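import Mathlib

namespace Pool.Agent.MP_ebfc19_pr.MN

open Filter Topology

/-- Abelian lemma: if the averages of `u` are eventually at most `y` then the discounted sums are at
most `y + δ` for small `l` -/
theorem abel_le (u : ℕ → ℝ) (h0 : ∀ n, 0 ≤ u n) (h1 : ∀ n, u n ≤ 1) (y : ℝ) (T₀ : ℕ)
    (h : ∀ T : ℕ, T₀ ≤ T → (∑ n ∈ Finset.range T, u n) / T ≤ y) {δ : ℝ} (hδ : 0 < δ) :
    ∃ l₀ : ℝ, 0 < l₀ ∧ ∀ l : ℝ, 0 < l → l < l₀ → l ≤ 1 →
      ∑' n : ℕ, l * (1 - l) ^ n * u n ≤ y + δ := by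
  have hy : 0 ≤ y := by
    refine le_trans ?_ (h (T₀ + 1) (by omega))
    exact div_nonneg (Finset.sum_nonneg fun n _ => h0 n) (by positivity)
  have hT : (0 : ℝ) ≤ T₀ := by positivity
  have hD : ∀ n : ℕ, (∑ k ∈ Finset.range n, u k) - n * y ≤ T₀ := by
    intro n
    by_cases hn : T₀ ≤ n
    · rcases Nat.eq_zero_or_pos n with h0' | hpos
      · subst h0'
        simp
      · have hn' : (0 : ℝ) < n := by exact_mod_cast hpos
        have h2 := h n hn
        rw [div_le_iff₀ hn'] at h2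
        linarith [mul_comm y (n : ℝ)]
    · have h2 : ∑ k ∈ Finset.range n, u k ≤ n := by
        calc ∑ k ∈ Finset.range n, u k ≤ ∑ _k ∈ Finset.range n, (1 : ℝ) :=
              Finset.sum_le_sum fun k _ => h1 k
          _ = n := by simp
      have h3 : (n : ℝ) ≤ T₀ := by exact_mod_cast (not_le.1 hn).le
      have h4 : 0 ≤ (n : ℝ) * y := by positivity
      linarith
  refine ⟨δ / (T₀ + 1), by positivity, fun l hl hl0 hl1 => ?_⟩
  have ha : ∀ n : ℕ, 0 ≤ (1 - l) ^ n := fun n => pow_nonneg (by linarith) n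
  have hS : ∀ N : ℕ, ∑ n ∈ Finset.range N, (1 - l) ^ n * (u n - y) ≤
      T₀ * (1 - (1 - l) ^ N) + (1 - l) ^ N * ((∑ k ∈ Finset.range N, u k) - N * y) := by
    intro N
    induction N with
    | zero => simp
    | succ N ih =>
      rw [Finset.sum_range_succ]
      have h2 := hD (N + 1)
      have h3 : 0 ≤ (1 - l) ^ N * l := mul_nonneg (ha N) hl.le
      have h4 := mul_le_mul_of_nonneg_left h2 h3
      rw [Finset.sum_range_succ] at h4 ⊢
      rw [pow_succ]
      push_cast at h4 ⊢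
      nlinarith [ih, h4]
  have hG : ∀ N : ℕ, ∑ n ∈ Finset.range N, l * (1 - l) ^ n = 1 - (1 - l) ^ N := by
    intro N
    induction N with
    | zero => simp
    | succ N ih =>
      rw [Finset.sum_range_succ, ih, pow_succ]
      ring
  have hlT : l * T₀ ≤ δ := by
    have h2 : l * (T₀ + 1) < δ := by rwa [lt_div_iff₀ (by positivity)] at hl0
    nlinarith
  refine Real.tsum_le_of_sum_range_le (fun n => ?_) fun N => ?_
  · exact mul_nonneg (mul_nonneg hl.le (ha n)) (h0 n)
  · have e : ∑ n ∈ Finset.range N, l * (1 - l) ^ n * u n =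
        l * ∑ n ∈ Finset.range N, (1 - l) ^ n * (u n - y) +
          y * ∑ n ∈ Finset.range N, l * (1 - l) ^ n := by
      rw [Finset.mul_sum, Finset.mul_sum, ← Finset.sum_add_distrib]
      exact Finset.sum_congr rfl fun n _ => by ring
    rw [e, hG]
    have h2 := hS N
    have h3 : (1 - l) ^ N * ((∑ k ∈ Finset.range N, u k) - N * y) ≤ (1 - l) ^ N * T₀ :=
      mul_le_mul_of_nonneg_left (hD N) (ha N)
    have h4 : ∑ n ∈ Finset.range N, (1 - l) ^ n * (u n - y) ≤ T₀ := by nlinarith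
    have h5 : l * ∑ n ∈ Finset.range N, (1 - l) ^ n * (u n - y) ≤ l * T₀ :=
      mul_le_mul_of_nonneg_left h4 hl.le
    have h6 : y * (1 - (1 - l) ^ N) ≤ y := by
      have := mul_nonneg hy (ha N)
      nlinarith
    linarith

end Pool.Agent.MP_ebfc19_pr.MN
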