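import Pool.Agent.Lib.MP_ebfc19_pr.MN.Defs

/-!
# The class of games used in the example, the example, and the vocabulary for paths

* `turn X g nx`: player 2 chooses `b`, player 1 reacts: his action `(a₀, a₁)` says which number `m`
  he uses if `b` is false / true; next state `nx ω b m`, payoff `g ω b`.
* `Cost c`: hypotheses on the cost function `c`.
* `mg c`: states `(v, n)` with `0 ≤ v ≤ 1`. The number `n` is the scale (rate `1/(n+1)`).
  The payoff is `b` (as 0 or 1), the new `v` is `v - (b - v)/(n+1)`, minus the cost `c m` if the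
  scale is changed from `n` to `m`, clipped to `[0,1]`. States with `v = 1` pay `1` forever.
* `IsPath c v n b K`: a play against the strategy `b = 1 iff S ≤ - t/4 or (n+1) c n ≤ t`, up to `K`.
-/

namespace Pool.Agent.MP_ebfc19_pr.MN

open MeasureTheory Filter Topology

/-- Player 2 chooses `b`, player 1 reacts to it. -/
def turn (X : Type) (g : X → Bool → ℝ) (nx : X → Bool → ℕ → X) : Game (ℕ × ℕ) Bool where
  Ω := X
  next := fun ω a b => nx ω b (if b then a.2 else a.1)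
  pay := fun ω _ b => g ω b

/-- `0` or `1`. -/
def bv (b : Bool) : ℝ := if b then 1 else 0

/-- Clipping to `[0,1]`. -/
noncomputable def clip (x : ℝ) : ℝ := max 0 (min 1 x)

theorem clip_mem (x : ℝ) : 0 ≤ clip x ∧ clip x ≤ 1 :=
  ⟨le_max_left _ _, max_le zero_le_one (min_le_left _ _)⟩

/-- The states of the example. -/
abbrev X : Type := {p : ℝ × ℕ // 0 ≤ p.1 ∧ p.1 ≤ 1}

/-- The new `v`. -/
noncomputable def nv (c : ℕ → ℝ) (v : ℝ) (n : ℕ) (y : ℝ) (m : ℕ) : ℝ :=
  clip (v - (y - v) / ((n : ℝ) + 1) - (if m = n then 0 else c m))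

open Classical in
/-- The new state. -/
noncomputable def nx (c : ℕ → ℝ) (ω : X) (b : Bool) (m : ℕ) : X :=
  if ω.1.1 = 1 then ⟨(1, m), zero_le_one, le_refl _⟩
  else ⟨(nv c ω.1.1 ω.1.2 (bv b) m, m), clip_mem _⟩

open Classical in
/-- The payoff. -/
noncomputable def gx (ω : X) (b : Bool) : ℝ := if ω.1.1 = 1 then 1 else bv b

/-- The example. -/
noncomputable def mg (c : ℕ → ℝ) : Game (ℕ × ℕ) Bool := turn X gx (nx c)

/-- The limit of the discounted values. -/
noncomputable def vs (ω : X) : ℝ := max 0 (ω.1.1 - (1 - ω.1.1) / ((ω.1.2 : ℝ) + 1))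

/-- Hypotheses on the cost of a change of scale. -/
structure Cost (c : ℕ → ℝ) : Prop where
  pos : ∀ n, 0 < c n
  anti : Antitone c
  mono : Monotone fun n : ℕ => ((n : ℝ) + 1) * c n
  big : ∀ n : ℕ, 8 / ((n : ℝ) + 1) ≤ c n
  lim : Tendsto c atTop (𝓝 0)
  div : ¬ Summable fun n : ℕ => c n / ((n : ℝ) + 1)

/-- The critical time of the scale `n`. -/
noncomputable def tau (c : ℕ → ℝ) (n : ℕ) : ℝ := ((n : ℝ) + 1) * c n

/-- The first scale whose critical time is larger than `x`. -/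
noncomputable def Mx (c : ℕ → ℝ) (x : ℝ) : ℕ := sInf {n : ℕ | x < tau c n}

/-- The surplus of the first `t` stages. -/
noncomputable def Sx (v b : ℕ → ℝ) (t : ℕ) : ℝ := ∑ r ∈ Finset.range t, (b r - v r)

/-- A play `v, n, b` (up to the time `K`) against the strategy of player 2. -/
structure IsPath (c : ℕ → ℝ) (v : ℕ → ℝ) (n : ℕ → ℕ) (b : ℕ → ℝ) (K : ℕ) : Prop where
  v0 : ∀ t, 0 ≤ v t
  v1 : ∀ t, v t ≤ 1
  step : ∀ t, t < K → v t ≠ 1 → v (t + 1) = nv c (v t) (n t) (b t) (n (t + 1))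
  rule0 : ∀ t, t < K → v t = 0 → b t = 0
  rule1 : ∀ t, t < K → v t ≠ 0 → (Sx v b t ≤ -(t : ℝ) / 4 ∨ tau c (n t) ≤ t) → b t = 1
  rule2 : ∀ t, t < K → ¬ (Sx v b t ≤ -(t : ℝ) / 4 ∨ tau c (n t) ≤ t) → b t = 0
  start : v 0 = 1 / 2
  small : c (n 0) ≤ 1 / 4

/-- Positive part. -/
noncomputable def pp (x : ℝ) : ℝ := max x 0

/-- The potential. -/
noncomputable def Rx (c : ℕ → ℝ) (v : ℕ → ℝ) (n : ℕ → ℕ) (b : ℕ → ℝ) (t : ℕ) : ℝ :=
  v t + pp (Sx v b t - 1) / ((Mx c t : ℝ) + 1) +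
    pp (2 + tau c (n t) / 4 - pp (1 - Sx v b t)) / ((n t : ℝ) + 1)

end Pool.Agent.MP_ebfc19_pr.MN
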