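import Mathlib

/-!
# Two-person zero-sum games with deterministic transitions

`Game A B`: state space `Ω`, action sets `A` (player 1) and `B` (player 2), next state `next ω a b`,
stage payoff `pay ω a b` to player 1. Since the transitions are deterministic, a history is the list
of the pairs of actions played so far (the last one is the head of the list). A pure strategy maps
histories to actions, a strategy is a probability measure on pure strategies.
-/

namespace Pool.Agent.MP_ebfc19_pr.MN

open MeasureTheory Filter Topology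

/-- Pure strategies of player 1. -/
abbrev S1 (A B : Type) : Type := List (A × B) → A

/-- Pure strategies of player 2. -/
abbrev S2 (A B : Type) : Type := List (A × B) → B

/-- The history after `n` stages (the last pair of actions is the head). -/
def hist {A B : Type} (s : S1 A B) (t : S2 A B) : ℕ → List (A × B)
  | 0 => []
  | n + 1 => (s (hist s t n), t (hist s t n)) :: hist s t n

/-- A two-person zero-sum game with deterministic transitions. -/
structure Game (A B : Type) where
  /-- the states -/
  Ω : Type
  /-- the next state -/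
  next : Ω → A → B → Ω
  /-- the stage payoff to player 1 -/
  pay : Ω → A → B → ℝ

namespace Game

variable {A B : Type} (G : Game A B)

/-- The state after the history `h`, from the initial state `ω`. -/
def st (ω : G.Ω) : List (A × B) → G.Ω
  | [] => ω
  | x :: h => G.next (st ω h) x.1 x.2

/-- The payoff of stage `n` (`n = 0, 1, …`). -/
def g (ω : G.Ω) (n : ℕ) (s : S1 A B) (t : S2 A B) : ℝ :=
  G.pay (G.st ω (hist s t n)) (s (hist s t n)) (t (hist s t n))

/-- The average of the first `T` payoffs. -/
noncomputable def avg (ω : G.Ω) (T : ℕ) (s : S1 A B) (t : S2 A B) : ℝ :=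
  (∑ n ∈ Finset.range T, G.g ω n s t) / T

/-- The discounted payoff. -/
noncomputable def disc (ω : G.Ω) (l : ℝ) (s : S1 A B) (t : S2 A B) : ℝ :=
  ∑' n : ℕ, l * (1 - l) ^ n * G.g ω n s t

end Game

/-- Expectation of `X` when player 1 uses the strategy `σ` and player 2 the strategy `τ`
(probability measures on pure strategies). -/
noncomputable def Ex {A B : Type} [MeasurableSpace A] [MeasurableSpace B]
    (σ : ProbabilityMeasure (S1 A B)) (τ : ProbabilityMeasure (S2 A B))
    (X : S1 A B → S2 A B → ℝ) : ℝ :=
  ∫ p, X p.1 p.2 ∂((σ : Measure (S1 A B)).prod (τ : Measure (S2 A B)))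

namespace Game

variable {A B : Type} [MeasurableSpace A] [MeasurableSpace B] (G : Game A B)

/-- `x` is the value of the `l`-discounted game starting at `ω`. -/
def IsDiscValue (l : ℝ) (ω : G.Ω) (x : ℝ) : Prop :=
  ∀ ε : ℝ, 0 < ε →
    (∃ σ : ProbabilityMeasure (S1 A B), ∀ τ : ProbabilityMeasure (S2 A B),
      x - ε ≤ Ex σ τ (G.disc ω l)) ∧
    (∃ τ : ProbabilityMeasure (S2 A B), ∀ σ : ProbabilityMeasure (S1 A B),
      Ex σ τ (G.disc ω l) ≤ x + ε)

/-- The game starting at `ω` has the value `x`. -/
def HasValue (ω : G.Ω) (x : ℝ) : Prop :=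
  ∀ ε : ℝ, 0 < ε →
    (∃ (σ : ProbabilityMeasure (S1 A B)) (T₀ : ℕ), ∀ τ : ProbabilityMeasure (S2 A B),
      (∀ T, T₀ ≤ T → x - ε ≤ Ex σ τ (G.avg ω T)) ∧
      x - ε ≤ Ex σ τ (fun s t => liminf (fun T => G.avg ω T s t) atTop)) ∧
    (∃ (τ : ProbabilityMeasure (S2 A B)) (T₀ : ℕ), ∀ σ : ProbabilityMeasure (S1 A B),
      (∀ T, T₀ ≤ T → Ex σ τ (G.avg ω T) ≤ x + ε) ∧
      Ex σ τ (fun s t => limsup (fun T => G.avg ω T s t) atTop) ≤ x + ε)

end Game

end Pool.Agent.MP_ebfc19_pr.MN
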