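import Pool.Agent.Lib.MP_ebfc19_pr.MN.Base

namespace Pool.Agent.MP_ebfc19_pr.MN

open MeasureTheory Filter Topology

theorem tau_unbounded {c : ℕ → ℝ} (hc : Cost c) (x : ℝ) : ∃ n : ℕ, x < tau c n := by
  by_contra hno
  push Not at hno
  refine hc.div ?_
  have h1 : Summable fun n : ℕ => x * (1 / ((n : ℝ) + 1) ^ 2) := by
    refine Summable.mul_left x ?_
    have h2 : Summable fun n : ℕ => 1 / (((n + 1 : ℕ) : ℝ)) ^ 2 :=
      (summable_nat_add_iff 1).2 (Real.summable_one_div_nat_pow.2 one_lt_two)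
    refine h2.congr fun n => ?_
    push_cast
    rfl
  refine Summable.of_nonneg_of_le (fun n => ?_) (fun n => ?_) h1
  · exact div_nonneg (hc.pos n).le (by positivity)
  · have h3 : ((n : ℝ) + 1) * c n ≤ x := hno n
    have h4 : (0 : ℝ) < (n : ℝ) + 1 := by positivity
    rw [mul_one_div, div_le_div_iff₀ h4 (by positivity)]
    nlinarith

theorem lt_tau_Mx {c : ℕ → ℝ} (hc : Cost c) (x : ℝ) : x < tau c (Mx c x) :=
  Nat.sInf_mem (s := {n : ℕ | x < tau c n}) (tau_unbounded hc x)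

theorem lt_Mx_of_tau_le {c : ℕ → ℝ} (hc : Cost c) {x : ℝ} {n : ℕ} (h : tau c n ≤ x) :
    n < Mx c x := by
  by_contra hn
  have h1 : tau c (Mx c x) ≤ tau c n := hc.mono (not_lt.1 hn)
  exact absurd (lt_tau_Mx hc x) (not_lt.2 (h1.trans h))

theorem Mx_le_of_lt_tau {c : ℕ → ℝ} (hc : Cost c) {x : ℝ} {n : ℕ} (h : x < tau c n) :
    Mx c x ≤ n :=
  Nat.sInf_le (s := {n : ℕ | x < tau c n}) h

theorem Mx_mono {c : ℕ → ℝ} (hc : Cost c) : Monotone (Mx c) := fun _ y hxy =>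
  Mx_le_of_lt_tau hc (hxy.trans_lt (lt_tau_Mx hc y))

/-- if `tau c n ≤ x` then `16 (n+1) ≤ M (16 x)` -/
theorem Mx_mul {c : ℕ → ℝ} (hc : Cost c) {x : ℝ} {n : ℕ} (h : tau c n ≤ x) :
    16 * (n + 1) ≤ Mx c (16 * x) := by
  have h1 : tau c (16 * n + 15) ≤ 16 * x := by
    have h2 : c (16 * n + 15) ≤ c n := hc.anti (by omega)
    have h3 : ((n : ℝ) + 1) * c n ≤ x := h
    have h4 : (0 : ℝ) ≤ (n : ℝ) + 1 := by positivity
    have h5 : tau c (16 * n + 15) = 16 * (((n : ℝ) + 1) * c (16 * n + 15)) := by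
      unfold tau
      push_cast
      ring
    rw [h5]
    have h6 := mul_le_mul_of_nonneg_left h2 h4
    linarith
  have := lt_Mx_of_tau_le hc h1
  omega

theorem div_sum_sq (a b : ℕ) (hab : a ≤ b) :
    ∑ n ∈ Finset.Ico a b, 1 / ((n : ℝ) + 1) ^ 2 ≤ 2 / ((a : ℝ) + 1) - 2 / ((b : ℝ) + 1) := by
  induction b, hab using Nat.le_induction with
  | base => simp
  | succ b hab ih =>
    rw [Finset.sum_Ico_succ_top hab]
    have h1 : (0 : ℝ) < (b : ℝ) + 1 := by positivity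
    have h2 : 1 / ((b : ℝ) + 1) ^ 2 ≤ 2 / ((b : ℝ) + 1) - 2 / (((b + 1 : ℕ) : ℝ) + 1) := by
      push_cast
      have h3 : (0 : ℝ) < (b : ℝ) + 1 + 1 := by positivity
      rw [div_sub_div _ _ h1.ne' h3.ne', div_le_div_iff₀ (by positivity) (by positivity)]
      nlinarith [h1, sq_nonneg ((b : ℝ) + 1), mul_pos h1 h1, (Nat.cast_nonneg b : (0 : ℝ) ≤ b)]
    linarith

theorem div_block {c : ℕ → ℝ} (hc : Cost c) {x : ℝ} (hx : 0 ≤ x) :
    ∑ n ∈ Finset.Ico (Mx c x) (Mx c (4096 * x)), c n / ((n : ℝ) + 1) ≤ 8192 * c (Mx c x) := by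
  set a := Mx c x with ha
  have hca := hc.pos a
  have ha1 : (0 : ℝ) < (a : ℝ) + 1 := by positivity
  have hxa : x < ((a : ℝ) + 1) * c a := lt_tau_Mx hc x
  have h1 : ∀ n ∈ Finset.Ico a (Mx c (4096 * x)), c n / ((n : ℝ) + 1) ≤
      (4096 * (((a : ℝ) + 1) * c a)) * (1 / ((n : ℝ) + 1) ^ 2) := by
    intro n hn
    have hn2 := (Finset.mem_Ico.1 hn).2
    have h3 : tau c n ≤ 4096 * x := by
      by_contra h
      exact absurd (Mx_le_of_lt_tau hc (not_le.1 h)) (not_le.2 hn2)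
    have h4 : ((n : ℝ) + 1) * c n ≤ 4096 * x := h3
    have h5 : (0 : ℝ) < (n : ℝ) + 1 := by positivity
    rw [mul_one_div, div_le_div_iff₀ h5 (by positivity)]
    have h6 : ((n : ℝ) + 1) * c n ≤ 4096 * (((a : ℝ) + 1) * c a) := by linarith
    nlinarith
  refine (Finset.sum_le_sum h1).trans ?_
  rw [← Finset.mul_sum]
  have hab : a ≤ Mx c (4096 * x) := Mx_mono hc (by linarith)
  have h2 := div_sum_sq a (Mx c (4096 * x)) hab
  have h3 : (0 : ℝ) ≤ 2 / (((Mx c (4096 * x) : ℕ) : ℝ) + 1) := by positivity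
  have h4 : ∑ n ∈ Finset.Ico a (Mx c (4096 * x)), 1 / ((n : ℝ) + 1) ^ 2 ≤ 2 / ((a : ℝ) + 1) := by
    linarith
  refine (mul_le_mul_of_nonneg_left h4 (by positivity)).trans (le_of_eq ?_)
  field_simp
  ring

/-- the divergence lemma -/
theorem not_summable_Mx {c : ℕ → ℝ} (hc : Cost c) :
    ¬ Summable fun i : ℕ => c (Mx c (4096 ^ (i + 1))) := by
  intro hs
  refine hc.div ?_
  have hkey : ∀ k : ℕ, ∑ n ∈ Finset.range (Mx c (4096 ^ (k + 1))), c n / ((n : ℝ) + 1) ≤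
      ∑ n ∈ Finset.range (Mx c (4096 ^ (0 + 1))), c n / ((n : ℝ) + 1) +
        8192 * ∑ i ∈ Finset.range k, c (Mx c (4096 ^ (i + 1))) := by
    intro k
    induction k with
    | zero => simp
    | succ k ih =>
      have hle : Mx c (4096 ^ (k + 1)) ≤ Mx c (4096 ^ (k + 1 + 1)) :=
        Mx_mono hc (pow_le_pow_right₀ (by norm_num) (by omega))
      rw [← Finset.sum_range_add_sum_Ico _ hle, Finset.sum_range_succ]
      have hb := div_block hc (x := 4096 ^ (k + 1)) (by positivity)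
      have he : (4096 : ℝ) * 4096 ^ (k + 1) = 4096 ^ (k + 1 + 1) := by ring
      rw [he] at hb
      linarith
  refine summable_of_sum_range_le (c := ∑ n ∈ Finset.range (Mx c (4096 ^ (0 + 1))),
    c n / ((n : ℝ) + 1) + 8192 * ∑' i : ℕ, c (Mx c (4096 ^ (i + 1)))) (fun n => ?_) (fun n => ?_)
  · exact div_nonneg (hc.pos n).le (by positivity)
  · obtain ⟨k, hk⟩ := pow_unbounded_of_one_lt (tau c n) (by norm_num : (1 : ℝ) < 4096)
    have hk' : tau c n ≤ 4096 ^ (k + 1) :=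
      hk.le.trans (pow_le_pow_right₀ (by norm_num) (by omega))
    have hn := lt_Mx_of_tau_le hc hk'
    have h1 : ∑ i ∈ Finset.range n, c i / ((i : ℝ) + 1) ≤
        ∑ i ∈ Finset.range (Mx c (4096 ^ (k + 1))), c i / ((i : ℝ) + 1) := by
      refine Finset.sum_le_sum_of_subset_of_nonneg
        (Finset.range_subset_range.2 hn.le) fun i _ _ => ?_
      exact div_nonneg (hc.pos i).le (by positivity)
    have h2 : ∑ i ∈ Finset.range k, c (Mx c (4096 ^ (i + 1))) ≤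
        ∑' i : ℕ, c (Mx c (4096 ^ (i + 1))) :=
      hs.sum_le_tsum _ fun i _ => (hc.pos _).le
    have h3 := hkey k
    linarith

end Pool.Agent.MP_ebfc19_pr.MN
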