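import Pool.Agent.Lib.MP_ebfc19_pr.MN.Turn

namespace Pool.Agent.MP_ebfc19_pr.MN

open MeasureTheory Filter Topology

theorem rateU_clip0 {x : ℝ} (hx : x ≤ 0) : clip x = 0 :=
  max_eq_left ((min_le_right _ _).trans hx)

theorem rateU_clip1 {x : ℝ} (hx : 0 ≤ x) : clip x ≤ x :=
  max_le hx (min_le_right _ _)

open Classical in
/-- the potential of player 2 -/
noncomputable def rateU_U (l : ℝ) (ω : X) : ℝ := if ω.1.1 = 0 then 0 else ω.1.1 + l

theorem rateU_U_nonneg {l : ℝ} (h0 : 0 < l) (ω : X) : 0 ≤ rateU_U l ω := by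
  unfold rateU_U
  split_ifs
  · exact le_rfl
  · exact add_nonneg ω.2.1 h0.le

theorem rateU_U_le {l : ℝ} (h0 : 0 < l) (ω : X) : rateU_U l ω ≤ ω.1.1 + l := by
  unfold rateU_U
  split_ifs
  · exact add_nonneg ω.2.1 h0.le
  · exact le_rfl

theorem rateU_U_zero {l : ℝ} {ω : X} (h : ω.1.1 = 0) : rateU_U l ω = 0 := if_pos h

theorem rateU_U_ne {l : ℝ} {ω : X} (h : ω.1.1 ≠ 0) : rateU_U l ω = ω.1.1 + l := if_neg h

open Classical in
/-- the choice of player 2 -/
noncomputable def rateU_b (l : ℝ) (ω : X) : Bool :=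
  decide (ω.1.1 ≠ 0 ∧ l < (1 - l) / ((ω.1.2 : ℝ) + 1))

theorem rateU_nx_one {c : ℕ → ℝ} {ω : X} (h : ω.1.1 = 1) (b : Bool) (m : ℕ) :
    (nx c ω b m).1.1 = 1 := by
  unfold nx
  rw [if_pos h]

theorem rateU_nx_ne {c : ℕ → ℝ} {ω : X} (h : ω.1.1 ≠ 1) (b : Bool) (m : ℕ) :
    (nx c ω b m).1.1 = nv c ω.1.1 ω.1.2 (bv b) m := by
  unfold nx
  rw [if_neg h]

/-- `U` after the stage: if the unclipped value is at most `y` then `U ≤ max 0 y + l`, and `U = 0` if it
is at most `0` -/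
theorem rateU_next {c : ℕ → ℝ} (hc : Cost c) {l : ℝ} (h0 : 0 < l) {ω : X} (h : ω.1.1 ≠ 1)
    (b : Bool) (m : ℕ) {y : ℝ} (hy : ω.1.1 - (bv b - ω.1.1) / ((ω.1.2 : ℝ) + 1) = y) :
    (rateU_U l (nx c ω b m) = 0) ∨ (0 < y ∧ rateU_U l (nx c ω b m) ≤ y + l) := by
  have h1 := rateU_nx_ne (c := c) h b m
  unfold nv at h1
  rw [hy] at h1
  set k : ℝ := if m = ω.1.2 then 0 else c m with hk
  have hk0 : 0 ≤ k := by
    rw [hk]
    split_ifs
    · exact le_rfl
    · exact (hc.pos m).le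
  rcases le_or_gt (y - k) 0 with h2 | h2
  · left
    rw [rateU_clip0 h2] at h1
    exact rateU_U_zero h1
  · right
    refine ⟨by linarith, (rateU_U_le h0 _).trans ?_⟩
    rw [h1]
    have h3 := rateU_clip1 h2.le
    linarith

theorem rateU_step {c : ℕ → ℝ} (hc : Cost c) {l : ℝ} (h0 : 0 < l) (h1 : l ≤ 1) (ω : X) (m : ℕ) :
    l * gx ω (rateU_b l ω) + (1 - l) * rateU_U l (nx c ω (rateU_b l ω) m) ≤ rateU_U l ω := by
  have hl : 0 ≤ 1 - l := sub_nonneg.2 h1
  have hn : (0 : ℝ) < (ω.1.2 : ℝ) + 1 := by positivity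
  by_cases hv1 : ω.1.1 = 1
  · have h2 : gx ω (rateU_b l ω) = 1 := if_pos hv1
    have h3 := rateU_U_le h0 (nx c ω (rateU_b l ω) m)
    rw [rateU_nx_one hv1] at h3
    have h5 : rateU_U l ω = ω.1.1 + l := rateU_U_ne (by rw [hv1]; exact one_ne_zero)
    rw [h2, h5, hv1]
    have h4 := mul_le_mul_of_nonneg_left h3 hl
    nlinarith [sq_nonneg l]
  have hg : ∀ b, gx ω b = bv b := fun b => if_neg hv1
  by_cases hv0 : ω.1.1 = 0
  · have h2 : rateU_b l ω = false := by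
      simp [rateU_b, hv0]
    rw [h2, hg]
    have h3 : bv false = 0 := rfl
    rcases rateU_next hc h0 hv1 false m rfl with h4 | ⟨h4, -⟩
    · rw [h4, h3, rateU_U_zero hv0]
      simp
    · rw [h3, hv0] at h4
      simp at h4
  · have hvpos : 0 < ω.1.1 := lt_of_le_of_ne ω.2.1 (Ne.symm hv0)
    have hvle : ω.1.1 ≤ 1 := ω.2.2
    rw [rateU_U_ne hv0]
    by_cases hb : l < (1 - l) / ((ω.1.2 : ℝ) + 1)
    · have h2 : rateU_b l ω = true := by
        simp [rateU_b, hv0, hb]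
      rw [h2, hg]
      have h3 : bv true = 1 := rfl
      rcases rateU_next hc h0 hv1 true m rfl with h4 | ⟨-, h4⟩
      · rw [h4, h3]
        linarith
      · rw [h3] at h4 ⊢
        have h5 := mul_le_mul_of_nonneg_left h4 hl
        have h6 : (1 - l) * (ω.1.1 - (1 - ω.1.1) / ((ω.1.2 : ℝ) + 1) + l) =
            (1 - l) * ω.1.1 - (1 - ω.1.1) * ((1 - l) / ((ω.1.2 : ℝ) + 1)) + (1 - l) * l := by
          ring
        have h7 := mul_le_mul_of_nonneg_left hb.le (sub_nonneg.2 hvle)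
        nlinarith [sq_nonneg l]
    · have h2 : rateU_b l ω = false := by
        simp [rateU_b, hb]
      rw [h2, hg]
      have h3 : bv false = 0 := rfl
      rcases rateU_next hc h0 hv1 false m rfl with h4 | ⟨-, h4⟩
      · rw [h4, h3]
        linarith
      · rw [h3] at h4 ⊢
        have h5 := mul_le_mul_of_nonneg_left h4 hl
        have h6 : (1 - l) * (ω.1.1 - (0 - ω.1.1) / ((ω.1.2 : ℝ) + 1) + l) =
            (1 - l) * ω.1.1 + ω.1.1 * ((1 - l) / ((ω.1.2 : ℝ) + 1)) + (1 - l) * l := by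
          ring
        have h7 := mul_le_mul_of_nonneg_left (not_lt.1 hb) hvpos.le
        nlinarith [sq_nonneg l]

theorem rateU_first {c : ℕ → ℝ} (hc : Cost c) {l : ℝ} (h0 : 0 < l) (h1 : l ≤ 1) (ω : X) (m : ℕ) :
    l * gx ω (rateU_b l ω) + (1 - l) * rateU_U l (nx c ω (rateU_b l ω) m) ≤ vs ω + 3 * l := by
  have hl : 0 ≤ 1 - l := sub_nonneg.2 h1
  have hn : (0 : ℝ) < (ω.1.2 : ℝ) + 1 := by positivity
  have hstep := rateU_step hc h0 h1 ω m
  have hvs0 : 0 ≤ vs ω := le_max_left _ _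
  have hvs1 : ω.1.1 - (1 - ω.1.1) / ((ω.1.2 : ℝ) + 1) ≤ vs ω := le_max_right _ _
  by_cases hv1 : ω.1.1 = 1
  · have h2 := rateU_U_le h0 ω
    rw [hv1] at hvs1 h2
    rw [sub_self, zero_div, sub_zero] at hvs1
    linarith
  by_cases hv0 : ω.1.1 = 0
  · rw [rateU_U_zero hv0] at hstep
    linarith
  have hvle : ω.1.1 ≤ 1 := ω.2.2
  by_cases hb : l < (1 - l) / ((ω.1.2 : ℝ) + 1)
  · have h2 : rateU_b l ω = true := by
      simp [rateU_b, hv0, hb]
    have hg : gx ω true = 1 := if_neg hv1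
    rw [h2, hg]
    have h3 : bv true = 1 := rfl
    have h4 : rateU_U l (nx c ω true m) ≤ vs ω + l := by
      rcases rateU_next hc h0 hv1 true m rfl with h4 | ⟨-, h4⟩
      · rw [h4]
        linarith
      · rw [h3] at h4
        linarith
    have h5 := mul_le_mul_of_nonneg_left h4 hl
    nlinarith
  · have h2 := rateU_U_le h0 ω
    rcases le_or_gt l (1 / 2) with h3 | h3
    · have h4 : 1 / ((ω.1.2 : ℝ) + 1) ≤ 2 * l := by
        have h5 := not_lt.1 hb
        rw [div_le_iff₀ hn] at h5 ⊢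
        nlinarith
      have h5 : (1 - ω.1.1) / ((ω.1.2 : ℝ) + 1) ≤ 1 / ((ω.1.2 : ℝ) + 1) := by
        gcongr
        linarith [ω.2.1]
      linarith
    · linarith

/-- the guarantee of player 2 in the `l`-discounted game: `b = 1` iff `v ≠ 0` and
`l < (1 - l) / (n + 1)` -/
theorem mg_upper {c : ℕ → ℝ} (hc : Cost c) {l : ℝ} (h0 : 0 < l) (h1 : l ≤ 1) (ω : X) :
    ∃ t : S2 (ℕ × ℕ) Bool, ∀ s, (mg c).disc ω l s t ≤ vs ω + 3 * l := by
  have hl : 0 ≤ 1 - l := sub_nonneg.2 h1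
  let t : S2 (ℕ × ℕ) Bool := fun h => rateU_b l ((mg c).st ω h : X)
  refine ⟨t, fun s => ?_⟩
  -- the states
  let w : ℕ → X := fun n => (mg c).st ω (hist s t n)
  have hw0 : w 0 = ω := rfl
  have hw : ∀ n, ∃ m, w (n + 1) = nx c (w n) (rateU_b l (w n)) m := fun n =>
    ⟨if t (hist s t n) then (s (hist s t n)).2 else (s (hist s t n)).1, rfl⟩
  have hgn : ∀ n, (mg c).g ω n s t = gx (w n) (rateU_b l (w n)) := fun n => rfl
  have hg0 : ∀ n, 0 ≤ (mg c).g ω n s t := by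
    intro n
    rw [hgn]
    unfold gx
    split_ifs
    · exact zero_le_one
    · unfold bv
      split_ifs
      · exact zero_le_one
      · exact le_rfl
  have hf0 : ∀ n, 0 ≤ l * (1 - l) ^ n * (mg c).g ω n s t := fun n =>
    mul_nonneg (mul_nonneg h0.le (pow_nonneg hl n)) (hg0 n)
  have hA : ∀ N, ∑ r ∈ Finset.range (N + 1), l * (1 - l) ^ r * (mg c).g ω r s t +
      (1 - l) ^ (N + 1) * rateU_U l (w (N + 1)) ≤ vs ω + 3 * l := by
    intro N
    induction N with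
    | zero =>
      obtain ⟨m, hm⟩ := hw 0
      rw [zero_add, Finset.sum_range_one, pow_zero, mul_one, pow_one, hgn, hm, hw0]
      exact rateU_first hc h0 h1 ω m
    | succ N ih =>
      refine le_trans ?_ ih
      obtain ⟨m, hm⟩ := hw (N + 1)
      rw [Finset.sum_range_succ, add_assoc]
      refine add_le_add le_rfl ?_
      rw [hm, hgn, pow_succ (1 - l) (N + 1)]
      have h2 := mul_le_mul_of_nonneg_left (rateU_step hc h0 h1 (w (N + 1)) m)
        (pow_nonneg hl (N + 1))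
      linarith
  unfold Game.disc
  refine Real.tsum_le_of_sum_range_le hf0 fun N => ?_
  refine le_trans ?_ (hA N)
  rw [Finset.sum_range_succ]
  have h2 := hf0 N
  have h3 := mul_nonneg (pow_nonneg hl (N + 1)) (rateU_U_nonneg h0 (w (N + 1)))
  linarith

end Pool.Agent.MP_ebfc19_pr.MN
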