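import Pool.Agent.Lib.MP_ebfc19_pr.MN.RateL
import Pool.Agent.Lib.MP_ebfc19_pr.MN.RateU

namespace Pool.Agent.MP_ebfc19_pr.MN

open MeasureTheory Filter Topology

/-- the rate -/
theorem mg_rate {c : ℕ → ℝ} (hc : Cost c) {l : ℝ} (h0 : 0 < l) {n : ℕ}
    (hn : l ≤ 1 / ((n : ℝ) + 1)) (ω : X) {x : ℝ} (hx : (mg c).IsDiscValue l ω x) :
    |x - vs ω| ≤ 2 * c n := by
  have hn0 : (0 : ℝ) < (n : ℝ) + 1 := by positivity
  have h1 : l ≤ 1 := by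
    refine hn.trans ?_
    rw [div_le_one hn0]
    linarith [(Nat.cast_nonneg n : (0 : ℝ) ≤ n)]
  have hbig := hc.big n
  have h3l : 8 * l ≤ c n := by
    have h2 : 8 * l ≤ 8 * (1 / ((n : ℝ) + 1)) := by linarith
    rw [mul_one_div] at h2
    linarith
  have hcn := hc.pos n
  obtain ⟨s, hs⟩ := mg_lower hc h0 h1 ω
  obtain ⟨t, ht⟩ := mg_upper hc h0 h1 ω
  have hlo := le_of_isDiscValue X gx gx_mem (nx c) h0 h1 ω hx s hs
  have hhi := isDiscValue_le X gx gx_mem (nx c) h0 h1 ω hx t ht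
  have h2 : n ≤ ⌈1 / l⌉₊ - 1 := by
    have h3 : ((n + 1 : ℕ) : ℝ) ≤ ⌈1 / l⌉₊ := by
      refine le_trans ?_ (Nat.le_ceil _)
      rw [le_div_iff₀ hn0] at hn
      rw [le_div_iff₀ h0]
      push_cast
      linarith
    have h4 : n + 1 ≤ ⌈1 / l⌉₊ := by exact_mod_cast h3
    omega
  have h3 : c (⌈1 / l⌉₊ - 1) ≤ c n := hc.anti h2
  rw [abs_le]
  constructor <;> linarith

end Pool.Agent.MP_ebfc19_pr.MN
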