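import Pool.Agent.Lib.MP_ebfc19_pr.MN.GlueT
import Pool.Agent.Lib.MP_ebfc19_pr.MN.Rate

namespace Pool.Agent.MP_ebfc19_pr.MN

open MeasureTheory Filter Topology

theorem measurableSet_good (c : ℕ → ℝ) (ω : X) (i : ℕ) : MeasurableSet {s | Good c ω i s} := by
  have h : {s | Good c ω i s} = ⋃ t : ℕ, {s : S1 (ℕ × ℕ) Bool |
      4096 ^ i ≤ t ∧ t ≤ 4096 ^ (i + 1) ∧ (vh c ω (hist s (ts c ω) t) = 0 ∨
        Bh (hist s (ts c ω) t) ≤ (1 / 4 + c ω.1.2 / 2) * t)} := by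
    ext s
    rw [Set.mem_iUnion]
    exact Iff.rfl
  rw [h]
  refine MeasurableSet.iUnion fun t => ?_
  refine (MeasurableSet.const _).inter ((MeasurableSet.const _).inter (MeasurableSet.union ?_ ?_))
  · exact (measurable_fhist_left (vh c ω) t (ts c ω)) (measurableSet_singleton (0 : ℝ))
  · exact measurableSet_le (measurable_fhist_left Bh t (ts c ω)) measurable_const

/-- bad windows are rare: for every strategy of player 1 some late window is good with probability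
close to `1` -/
theorem exists_good {c : ℕ → ℝ} (hc : Cost c) (ω : X) (hv : ω.1.1 = 1 / 2) (hn : c ω.1.2 ≤ 1 / 4)
    (σ : ProbabilityMeasure (S1 (ℕ × ℕ) Bool)) (i₀ : ℕ) {δ : ℝ} (hδ : 0 < δ) :
    ∃ i, i₀ ≤ i ∧ (σ : Measure (S1 (ℕ × ℕ) Bool)).real {s | ¬ Good c ω i s} ≤ δ := by
  classical
  by_contra hcon
  push Not at hcon
  have hm : ∀ i, MeasurableSet {s | ¬ Good c ω i s} := fun i => (measurableSet_good c ω i).compl
  have hint : ∀ (N : ℕ), ∑ i ∈ Finset.range N, c (Mx c (4096 ^ (i + i₀ + 1))) *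
      (σ : Measure (S1 (ℕ × ℕ) Bool)).real {s | ¬ Good c ω (i + i₀) s} ≤ 2 := by
    intro N
    have h1 : ∀ i, ∫ s, ({s | ¬ Good c ω (i + i₀) s} : Set (S1 (ℕ × ℕ) Bool)).indicator
        (fun _ => c (Mx c (4096 ^ (i + i₀ + 1)))) s ∂(σ : Measure (S1 (ℕ × ℕ) Bool)) =
        c (Mx c (4096 ^ (i + i₀ + 1))) *
          (σ : Measure (S1 (ℕ × ℕ) Bool)).real {s | ¬ Good c ω (i + i₀) s} := by
      intro i
      rw [integral_indicator_const _ (hm _), smul_eq_mul, mul_comm]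
    have h2 : ∑ i ∈ Finset.range N, c (Mx c (4096 ^ (i + i₀ + 1))) *
        (σ : Measure (S1 (ℕ × ℕ) Bool)).real {s | ¬ Good c ω (i + i₀) s} =
        ∫ s, ∑ i ∈ Finset.range N, ({s | ¬ Good c ω (i + i₀) s} :
          Set (S1 (ℕ × ℕ) Bool)).indicator (fun _ => c (Mx c (4096 ^ (i + i₀ + 1)))) s
          ∂(σ : Measure (S1 (ℕ × ℕ) Bool)) := by
      rw [integral_finsetSum]
      · exact Finset.sum_congr rfl fun i _ => (h1 i).symm
      · intro i _
        exact (integrable_const _).indicator (hm _)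
    rw [h2]
    have h3 : ∀ s : S1 (ℕ × ℕ) Bool, ∑ i ∈ Finset.range N, ({s | ¬ Good c ω (i + i₀) s} :
        Set (S1 (ℕ × ℕ) Bool)).indicator (fun _ => c (Mx c (4096 ^ (i + i₀ + 1)))) s ≤ 2 := by
      intro s
      have h4 := count_ts hc ω hv hn s
        (((Finset.range N).filter fun i => ¬ Good c ω (i + i₀) s).map
          (addRightEmbedding i₀)) (by
          intro i hi
          obtain ⟨j, hj, rfl⟩ := Finset.mem_map.1 hi
          exact (Finset.mem_filter.1 hj).2)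
      rw [Finset.sum_map, Finset.sum_filter] at h4
      refine le_trans (le_of_eq (Finset.sum_congr rfl fun i _ => ?_)) h4
      rw [Set.indicator_apply]
      rfl
    have h5 : ∫ _ : S1 (ℕ × ℕ) Bool, (2 : ℝ) ∂(σ : Measure (S1 (ℕ × ℕ) Bool)) = 2 := by simp
    rw [← h5]
    refine integral_mono ?_ (integrable_const _) h3
    exact integrable_finsetSum _ fun i _ => (integrable_const _).indicator (hm _)
  apply not_summable_Mx hc
  rw [← summable_nat_add_iff i₀]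
  refine summable_of_sum_range_le (c := 2 / δ) (fun i => (hc.pos _).le) fun N => ?_
  rw [le_div_iff₀ hδ, Finset.sum_mul]
  refine le_trans (Finset.sum_le_sum fun i _ => ?_) (hint N)
  exact mul_le_mul_of_nonneg_left (hcon (i + i₀) (Nat.le_add_left _ _)).le (hc.pos _).le

/-- finite horizon: against every strategy of player 1 there is a late horizon and a pure strategy
of player 2 with a small expected average -/
theorem exists_low {c : ℕ → ℝ} (hc : Cost c) (ω : X) (hv : ω.1.1 = 1 / 2)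
    (hn : c ω.1.2 ≤ 1 / (16 * 4096 ^ 2))
    (σ : ProbabilityMeasure (S1 (ℕ × ℕ) Bool)) (T₀ : ℕ) :
    ∃ (t : S2 (ℕ × ℕ) Bool) (T : ℕ), T₀ ≤ T ∧
      Ex σ (pure2 t) ((mg c).avg ω T) ≤ vs ω - 1 / (16 * 4096 ^ 2) := by
  have hn' : c ω.1.2 ≤ 1 / 4 := hn.trans (by norm_num)
  obtain ⟨i, hi, hδ⟩ := exists_good hc ω hv hn' σ (max T₀ 1)
    (show (0 : ℝ) < 1 / (16 * 4096 ^ 2) by norm_num)
  have hi1 : 1 ≤ i := (le_max_right _ _).trans hi
  have hi2 : T₀ ≤ i := (le_max_left _ _).trans hi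
  have hT : T₀ ≤ 4096 ^ (i + 2) := by
    have := Nat.lt_pow_self (show 1 < 4096 by norm_num) (n := i + 2)
    omega
  refine ⟨tt c ω (1 / 4 + c ω.1.2 / 2) i, 4096 ^ (i + 2), hT, ?_⟩
  have hpay : ∀ ω a b, 0 ≤ (mg c).pay ω a b ∧ (mg c).pay ω a b ≤ 1 := fun ω _ b => gx_mem ω b
  have hmem := avg_mem (mg c) ω hpay (4096 ^ (i + 2))
  rw [Ex_pure2 (tt c ω (1 / 4 + c ω.1.2 / 2) i) σ ((mg c).avg ω (4096 ^ (i + 2)))
    (measurable_avg (mg c) ω _) (C := 1) fun s t => by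
      rw [abs_le]
      exact ⟨by linarith [(hmem s t).1], (hmem s t).2⟩]
  have hpow : (1 : ℝ) / 4096 ^ (i + 2) ≤ 1 / (4096 * 4096 ^ 2) := by
    refine one_div_le_one_div_of_le (by norm_num) ?_
    rw [pow_add]
    refine mul_le_mul_of_nonneg_right ?_ (by norm_num)
    calc (4096 : ℝ) = 4096 ^ 1 := (pow_one _).symm
      _ ≤ 4096 ^ i := pow_le_pow_right₀ (by norm_num) hi1
  have hc0 := hc.pos ω.1.2
  set A : ℝ := 1 / 2 + c ω.1.2 / 2 - 1 / (4 * 4096 ^ 2) + 1 / (4096 * 4096 ^ 2) with hA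
  have hA0 : 0 ≤ A := by
    rw [hA]
    have : (0 : ℝ) ≤ 1 / 2 - 1 / (4 * 4096 ^ 2) + 1 / (4096 * 4096 ^ 2) := by norm_num
    linarith
  have hm : MeasurableSet {s | ¬ Good c ω i s} := (measurableSet_good c ω i).compl
  have hbound : ∀ s, (mg c).avg ω (4096 ^ (i + 2)) s (tt c ω (1 / 4 + c ω.1.2 / 2) i) ≤
      A + ({s | ¬ Good c ω i s} : Set (S1 (ℕ × ℕ) Bool)).indicator (fun _ => (1 : ℝ)) s := by
    intro s
    by_cases hs : Good c ω i s
    · have h1 := avg_tt hc ω hv hn' i s hs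
      rw [Set.indicator_of_notMem (fun h : s ∈ {s | ¬ Good c ω i s} => h hs), add_zero, hA]
      linarith
    · rw [Set.indicator_of_mem (show s ∈ {s | ¬ Good c ω i s} from hs)]
      have h1 := (hmem s (tt c ω (1 / 4 + c ω.1.2 / 2) i)).2
      linarith
  have hmeas : Measurable fun s =>
      (mg c).avg ω (4096 ^ (i + 2)) s (tt c ω (1 / 4 + c ω.1.2 / 2) i) :=
    (measurable_avg (mg c) ω _).comp measurable_prodMk_right
  have hintg : Integrable (fun s =>
      (mg c).avg ω (4096 ^ (i + 2)) s (tt c ω (1 / 4 + c ω.1.2 / 2) i))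
      (σ : Measure (S1 (ℕ × ℕ) Bool)) := by
    refine Integrable.of_bound hmeas.aestronglyMeasurable 1 (Eventually.of_forall fun s => ?_)
    rw [Real.norm_eq_abs, abs_le]
    exact ⟨by linarith [(hmem s (tt c ω (1 / 4 + c ω.1.2 / 2) i)).1], (hmem s _).2⟩
  have hind : Integrable (({s | ¬ Good c ω i s} : Set (S1 (ℕ × ℕ) Bool)).indicator
      (fun _ => (1 : ℝ))) (σ : Measure (S1 (ℕ × ℕ) Bool)) := (integrable_const _).indicator hm
  have h2 := integral_mono hintg ((integrable_const A).add hind) hbound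
  have h3 : ∫ s, (A + ({s | ¬ Good c ω i s} : Set (S1 (ℕ × ℕ) Bool)).indicator
      (fun _ => (1 : ℝ)) s) ∂(σ : Measure (S1 (ℕ × ℕ) Bool)) =
      A + (σ : Measure (S1 (ℕ × ℕ) Bool)).real {s | ¬ Good c ω i s} := by
    rw [integral_add (integrable_const A) hind, integral_indicator_const _ hm]
    simp
  have hvs : 1 / 2 - c ω.1.2 / 16 ≤ vs ω := by
    have h4 := hc.big ω.1.2
    unfold vs
    refine le_trans ?_ (le_max_right _ _)
    rw [hv]
    have h5 : (1 - 1 / 2 : ℝ) / ((ω.1.2 : ℝ) + 1) = 8 / ((ω.1.2 : ℝ) + 1) / 16 := by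
      have : ((ω.1.2 : ℝ) + 1) ≠ 0 := by positivity
      field_simp
      norm_num
    rw [h5]
    linarith
  have h6 : (∫ s, (mg c).avg ω (4096 ^ (i + 2)) s (tt c ω (1 / 4 + c ω.1.2 / 2) i)
      ∂(σ : Measure (S1 (ℕ × ℕ) Bool))) ≤ A + 1 / (16 * 4096 ^ 2) := by
    refine h2.trans ?_
    change ∫ s, (A + ({s | ¬ Good c ω i s} : Set (S1 (ℕ × ℕ) Bool)).indicator
      (fun _ => (1 : ℝ)) s) ∂(σ : Measure (S1 (ℕ × ℕ) Bool)) ≤ _
    rw [h3]
    linarith
  refine h6.trans ?_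
  rw [hA]
  norm_num at hn hvs ⊢
  linarith

end Pool.Agent.MP_ebfc19_pr.MN
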