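import Mathlib

namespace Pool.Agent.MP_ebfc19_pr.MN

open Filter Topology

/-- the optimality equation has a solution with values in `[0,1]`: least fixed point of the
monotone operator on the complete lattice of the functions with values in `[0,1]` -/
theorem exists_fix (X : Type) (g : X → Bool → ℝ) (hg : ∀ ω b, 0 ≤ g ω b ∧ g ω b ≤ 1)
    (nx : X → Bool → ℕ → X) {l : ℝ} (h0 : 0 < l) (h1 : l ≤ 1) :
    ∃ V : X → ℝ, (∀ ω, 0 ≤ V ω ∧ V ω ≤ 1) ∧
      ∀ ω, V ω = min (l * g ω false + (1 - l) * ⨆ m, V (nx ω false m))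
        (l * g ω true + (1 - l) * ⨆ m, V (nx ω true m)) := by
  haveI : Fact ((0 : ℝ) ≤ 1) := ⟨zero_le_one⟩
  have hl : 0 ≤ 1 - l := sub_nonneg.2 h1
  have hbdd : ∀ (V : X → Set.Icc (0 : ℝ) 1) (ω : X) (b : Bool),
      BddAbove (Set.range fun m => (V (nx ω b m) : ℝ)) := fun V ω b =>
    ⟨1, by
      rintro _ ⟨m, rfl⟩
      exact (V (nx ω b m)).2.2⟩
  have hsup : ∀ (V : X → Set.Icc (0 : ℝ) 1) (ω : X) (b : Bool),
      0 ≤ (⨆ m, (V (nx ω b m) : ℝ)) ∧ (⨆ m, (V (nx ω b m) : ℝ)) ≤ 1 := fun V ω b =>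
    ⟨(V (nx ω b 0)).2.1.trans (le_ciSup (hbdd V ω b) 0), ciSup_le fun m => (V (nx ω b m)).2.2⟩
  have hval : ∀ (V : X → Set.Icc (0 : ℝ) 1) (ω : X) (b : Bool),
      0 ≤ l * g ω b + (1 - l) * (⨆ m, (V (nx ω b m) : ℝ)) ∧
        l * g ω b + (1 - l) * (⨆ m, (V (nx ω b m) : ℝ)) ≤ 1 := by
    intro V ω b
    obtain ⟨h2, h3⟩ := hsup V ω b
    obtain ⟨h4, h5⟩ := hg ω b
    constructor
    · positivity
    · have h6 : l * g ω b ≤ l * 1 := mul_le_mul_of_nonneg_left h5 h0.le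
      have h7 : (1 - l) * (⨆ m, (V (nx ω b m) : ℝ)) ≤ (1 - l) * 1 :=
        mul_le_mul_of_nonneg_left h3 hl
      linarith
  let F : (X → Set.Icc (0 : ℝ) 1) →o (X → Set.Icc (0 : ℝ) 1) :=
    { toFun := fun V ω => ⟨min (l * g ω false + (1 - l) * ⨆ m, (V (nx ω false m) : ℝ))
        (l * g ω true + (1 - l) * ⨆ m, (V (nx ω true m) : ℝ)),
        le_min (hval V ω false).1 (hval V ω true).1, min_le_of_left_le (hval V ω false).2⟩
      monotone' := by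
        intro V W hVW ω
        have key : ∀ b, l * g ω b + (1 - l) * (⨆ m, (V (nx ω b m) : ℝ)) ≤
            l * g ω b + (1 - l) * (⨆ m, (W (nx ω b m) : ℝ)) := by
          intro b
          have h2 : (⨆ m, (V (nx ω b m) : ℝ)) ≤ ⨆ m, (W (nx ω b m) : ℝ) :=
            ciSup_mono (hbdd W ω b) fun m => hVW (nx ω b m)
          have h3 := mul_le_mul_of_nonneg_left h2 hl
          linarith
        exact min_le_min (key false) (key true) }
  refine ⟨fun ω => (F.lfp ω : ℝ), fun ω => ⟨(F.lfp ω).2.1, (F.lfp ω).2.2⟩, fun ω => ?_⟩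
  have h2 : F F.lfp = F.lfp := F.map_lfp
  have h3 := congrArg (fun V : X → Set.Icc (0 : ℝ) 1 => ((V ω : Set.Icc (0 : ℝ) 1) : ℝ)) h2
  exact h3.symm

end Pool.Agent.MP_ebfc19_pr.MN
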