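import Pool.Agent.Lib.MP_ebfc19_pr.MN.Base

namespace Pool.Agent.MP_ebfc19_pr.MN

open MeasureTheory Filter Topology

theorem Hold_clip_le {x y : ℝ} (hxy : x ≤ y) (hy : 0 ≤ y) : clip x ≤ y :=
  max_le hy ((min_le_right _ _).trans hxy)

theorem Hold_clip_pos {x : ℝ} (h : clip x ≠ 0) : clip x ≤ x := by
  unfold clip at h ⊢
  rcases le_total (min 1 x) 0 with h1 | h1
  · exact absurd (max_eq_left h1) h
  · rw [max_eq_right h1]
    exact min_le_right _ _

theorem Hold_cost {c : ℕ → ℝ} (hc : Cost c) (m n : ℕ) : 0 ≤ (if m = n then 0 else c m) := by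
  split_ifs
  · exact le_refl _
  · exact (hc.pos m).le

open Classical in
theorem Hold_aux {c : ℕ → ℝ} (hc : Cost c) {v : ℕ → ℝ} {n : ℕ → ℕ} {b : ℕ → ℝ} {K T : ℕ}
    (v0 : ∀ t, 0 ≤ v t) (v1 : ∀ t, v t ≤ 1)
    (step : ∀ t, K ≤ t → t < T → v t ≠ 1 → v (t + 1) = nv c (v t) (n t) (b t) (n (t + 1)))
    (one : ∀ t, K ≤ t → t < T → v t = 1 → v (t + 1) = 1)
    (rule0 : ∀ t, K ≤ t → t < T → v t = 0 → b t = 0)
    (rule1 : ∀ t, K ≤ t → t < T → v t ≠ 0 → n t + 1 + t + 1 ≤ T → b t = 1)
    (rule2 : ∀ t, K ≤ t → t < T → ¬ (n t + 1 + t + 1 ≤ T) → b t = 0) (k : ℕ) :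
    ∀ t, K ≤ t → t + k = T →
      ∑ r ∈ Finset.Ico t T, (if v r = 1 then 1 else b r) ≤
        (k : ℝ) * v t + (if v t = 0 then 0 else 1) := by
  induction k with
  | zero =>
    intro t _ htT
    have h1 : Finset.Ico t T = ∅ := Finset.Ico_eq_empty (by omega)
    rw [h1, Finset.sum_empty, Nat.cast_zero, zero_mul, zero_add]
    split_ifs
    · exact le_refl _
    · exact zero_le_one
  | succ k ih =>
    intro t hKt htT
    have hlt : t < T := by omega
    have h := ih (t + 1) (by omega) (by omega)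
    rw [Finset.sum_eq_sum_Ico_succ_bot hlt]
    set S := ∑ r ∈ Finset.Ico (t + 1) T, (if v r = 1 then 1 else b r) with hS
    have hk0 : (0 : ℝ) ≤ k := Nat.cast_nonneg k
    push_cast
    by_cases h1 : v t = 1
    · rw [one t hKt hlt h1] at h
      rw [if_neg one_ne_zero] at h
      rw [if_pos h1, h1, if_neg one_ne_zero]
      linarith
    rw [if_neg h1]
    have hst := step t hKt hlt h1
    by_cases h0 : v t = 0
    · rw [rule0 t hKt hlt h0, if_pos h0, h0]
      have h2 : v (t + 1) = 0 := by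
        refine le_antisymm ?_ (v0 _)
        rw [hst]
        unfold nv
        refine Hold_clip_le ?_ (le_refl _)
        rw [h0, rule0 t hKt hlt h0]
        have := Hold_cost hc (n (t + 1)) (n t)
        simp only [sub_self, zero_div, sub_zero]
        linarith
      rw [h2, if_pos rfl] at h
      linarith
    rw [if_neg h0]
    have hvpos : 0 < v t := lt_of_le_of_ne (v0 t) (Ne.symm h0)
    have hn : (0 : ℝ) < (n t : ℝ) + 1 := by positivity
    have hcost := Hold_cost hc (n (t + 1)) (n t)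
    by_cases hr : n t + 1 + t + 1 ≤ T
    · rw [rule1 t hKt hlt h0 hr]
      rw [rule1 t hKt hlt h0 hr] at hst
      by_cases h2 : v (t + 1) = 0
      · rw [h2, if_pos rfl] at h
        have h3 : 0 ≤ ((k : ℝ) + 1) * v t := by positivity
        linarith
      · rw [if_neg h2] at h
        have h3 : v (t + 1) ≤ v t - (1 - v t) / ((n t : ℝ) + 1) := by
          have h4 : v (t + 1) ≤ v t - (1 - v t) / ((n t : ℝ) + 1) -
              (if n (t + 1) = n t then 0 else c (n (t + 1))) := by
            rw [hst]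
            apply Hold_clip_pos
            rw [hst] at h2
            exact h2
          linarith
        have hkn : ((n t : ℝ) + 1) ≤ k := by
          have : n t + 1 ≤ k := by omega
          exact_mod_cast this
        have h5 : 1 - v t ≤ (k : ℝ) * ((1 - v t) / ((n t : ℝ) + 1)) := by
          rw [← mul_div_assoc, le_div_iff₀ hn, mul_comm]
          exact mul_le_mul_of_nonneg_right hkn (by linarith [v1 t])
        have h6 := mul_le_mul_of_nonneg_left h3 hk0
        rw [mul_sub] at h6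
        linarith
    · rw [rule2 t hKt hlt hr]
      rw [rule2 t hKt hlt hr] at hst
      have h3 : v (t + 1) ≤ v t + v t / ((n t : ℝ) + 1) := by
        rw [hst]
        refine Hold_clip_le ?_ (by positivity)
        have h4 : v t - (0 - v t) / ((n t : ℝ) + 1) = v t + v t / ((n t : ℝ) + 1) := by ring
        rw [h4]
        linarith
      have hkn : (k : ℝ) ≤ (n t : ℝ) + 1 := by
        have : k ≤ n t + 1 := by omega
        exact_mod_cast this
      have h5 : (k : ℝ) * (v t / ((n t : ℝ) + 1)) ≤ v t := by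
        rw [← mul_div_assoc, div_le_iff₀ hn, mul_comm]
        exact mul_le_mul_of_nonneg_left hkn hvpos.le
      have h6 := mul_le_mul_of_nonneg_left h3 hk0
      rw [mul_add] at h6
      have h7 : (if v (t + 1) = 0 then (0 : ℝ) else 1) ≤ 1 := by
        split_ifs
        · exact zero_le_one
        · exact le_refl _
      linarith

open Classical in
/-- the holding strategy of player 2 between the times `K` and `T` -/
theorem hold {c : ℕ → ℝ} (hc : Cost c) {v : ℕ → ℝ} {n : ℕ → ℕ} {b : ℕ → ℝ} {K T : ℕ}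
    (hKT : K ≤ T) (v0 : ∀ t, 0 ≤ v t) (v1 : ∀ t, v t ≤ 1)
    (step : ∀ t, K ≤ t → t < T → v t ≠ 1 → v (t + 1) = nv c (v t) (n t) (b t) (n (t + 1)))
    (one : ∀ t, K ≤ t → t < T → v t = 1 → v (t + 1) = 1)
    (rule0 : ∀ t, K ≤ t → t < T → v t = 0 → b t = 0)
    (rule1 : ∀ t, K ≤ t → t < T → v t ≠ 0 → n t + 1 + t + 1 ≤ T → b t = 1)
    (rule2 : ∀ t, K ≤ t → t < T → ¬ (n t + 1 + t + 1 ≤ T) → b t = 0) :
    ∑ r ∈ Finset.Ico K T, (if v r = 1 then 1 else b r) ≤ ((T : ℝ) - K) * v K + 1 := by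
  have h := Hold_aux hc v0 v1 step one rule0 rule1 rule2 (T - K) K le_rfl (by omega)
  rw [Nat.cast_sub hKT] at h
  have h7 : (if v K = 0 then (0 : ℝ) else 1) ≤ 1 := by
    split_ifs
    · exact zero_le_one
    · exact le_refl _
  linarith

end Pool.Agent.MP_ebfc19_pr.MN
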