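import Pool.Agent.Lib.MP_ebfc19_pr.MN.Win
import Pool.Agent.Lib.MP_ebfc19_pr.MN.Hold

namespace Pool.Agent.MP_ebfc19_pr.MN

open MeasureTheory Filter Topology

/-- histories of the example -/
abbrev Hi : Type := List ((ℕ × ℕ) × Bool)

/-- `v` after the history -/
noncomputable def vh (c : ℕ → ℝ) (ω : X) (h : Hi) : ℝ := (((mg c).st ω h : X)).1.1

/-- the scale after the history -/
noncomputable def nh (c : ℕ → ℝ) (ω : X) (h : Hi) : ℕ := (((mg c).st ω h : X)).1.2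

/-- the surplus -/
noncomputable def Sh (c : ℕ → ℝ) (ω : X) : Hi → ℝ
  | [] => 0
  | x :: h => Sh c ω h + (bv x.2 - vh c ω h)

/-- the number of stages with `b = 1` -/
noncomputable def Bh : Hi → ℝ
  | [] => 0
  | x :: h => Bh h + bv x.2

open Classical in
/-- the strategy of player 2 -/
noncomputable def ts (c : ℕ → ℝ) (ω : X) : S2 (ℕ × ℕ) Bool := fun h =>
  if vh c ω h = 0 then false
  else decide (Sh c ω h ≤ -(h.length : ℝ) / 4 ∨ tau c (nh c ω h) ≤ h.length)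

/-- the time to switch to the holding strategy has come -/
def stop (c : ℕ → ℝ) (ω : X) (α : ℝ) (i : ℕ) : Hi → Prop
  | [] => False
  | x :: h => stop c ω α i h ∨
      (4096 ^ i ≤ (x :: h).length ∧ (vh c ω (x :: h) = 0 ∨ Bh (x :: h) ≤ α * (x :: h).length)) ∨
      4096 ^ (i + 1) ≤ (x :: h).length

open Classical in
/-- the strategy of player 2 for the horizon `4096 ^ (i + 2)` -/
noncomputable def tt (c : ℕ → ℝ) (ω : X) (α : ℝ) (i : ℕ) : S2 (ℕ × ℕ) Bool := fun h =>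
  if stop c ω α i h then
    (if vh c ω h = 0 then false
     else decide (nh c ω h + 1 + h.length + 1 ≤ 4096 ^ (i + 2)))
  else ts c ω h

theorem Glue_len (s : S1 (ℕ × ℕ) Bool) (t : S2 (ℕ × ℕ) Bool) (k : ℕ) :
    (hist s t k).length = k := by
  induction k with
  | zero => rfl
  | succ k ih =>
    change (hist s t k).length + 1 = k + 1
    rw [ih]

theorem Glue_Sh (c : ℕ → ℝ) (ω : X) (s : S1 (ℕ × ℕ) Bool) (t : S2 (ℕ × ℕ) Bool) (k : ℕ) :
    Sh c ω (hist s t k) =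
      Sx (fun r => vh c ω (hist s t r)) (fun r => bv (t (hist s t r))) k := by
  induction k with
  | zero =>
    unfold Sx
    rw [Finset.range_zero, Finset.sum_empty]
    rfl
  | succ k ih =>
    rw [pathR_Sx_succ, ← ih]
    rfl

theorem Glue_Bh (s : S1 (ℕ × ℕ) Bool) (t : S2 (ℕ × ℕ) Bool) (k : ℕ) :
    Bh (hist s t k) = ∑ r ∈ Finset.range k, bv (t (hist s t r)) := by
  induction k with
  | zero =>
    rw [Finset.range_zero, Finset.sum_empty]
    rfl
  | succ k ih =>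
    rw [Finset.sum_range_succ, ← ih]
    rfl

theorem Glue_mem (c : ℕ → ℝ) (ω : X) (h : Hi) : 0 ≤ vh c ω h ∧ vh c ω h ≤ 1 :=
  ((mg c).st ω h : X).2

theorem Glue_st (c : ℕ → ℝ) (ω : X) (x : (ℕ × ℕ) × Bool) (h : Hi) :
    ((mg c).st ω (x :: h) : X) =
      nx c ((mg c).st ω h : X) x.2 (if x.2 then x.1.2 else x.1.1) := rfl

theorem Glue_nx (c : ℕ → ℝ) (ω : X) (b : Bool) (m : ℕ) (h : ω.1.1 ≠ 1) :
    (nx c ω b m).1.1 = nv c ω.1.1 ω.1.2 (bv b) (nx c ω b m).1.2 := by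
  unfold nx
  rw [if_neg h]

theorem Glue_nx_one (c : ℕ → ℝ) (ω : X) (b : Bool) (m : ℕ) (h : ω.1.1 = 1) :
    (nx c ω b m).1.1 = 1 := by
  unfold nx
  rw [if_pos h]

/-- one step of the play -/
theorem Glue_step (c : ℕ → ℝ) (ω : X) (s : S1 (ℕ × ℕ) Bool) (t : S2 (ℕ × ℕ) Bool) (k : ℕ)
    (h : vh c ω (hist s t k) ≠ 1) :
    vh c ω (hist s t (k + 1)) = nv c (vh c ω (hist s t k)) (nh c ω (hist s t k))
      (bv (t (hist s t k))) (nh c ω (hist s t (k + 1))) :=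
  Glue_nx c ((mg c).st ω (hist s t k) : X) (t (hist s t k)) _ h

theorem Glue_step_one (c : ℕ → ℝ) (ω : X) (s : S1 (ℕ × ℕ) Bool) (t : S2 (ℕ × ℕ) Bool) (k : ℕ)
    (h : vh c ω (hist s t k) = 1) : vh c ω (hist s t (k + 1)) = 1 :=
  Glue_nx_one c ((mg c).st ω (hist s t k) : X) (t (hist s t k)) _ h

open Classical in
/-- the payoff of a stage -/
theorem Glue_g (c : ℕ → ℝ) (ω : X) (s : S1 (ℕ × ℕ) Bool) (t : S2 (ℕ × ℕ) Bool) (k : ℕ) :
    (mg c).g ω k s t = if vh c ω (hist s t k) = 1 then 1 else bv (t (hist s t k)) := rfl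

theorem Glue_bv_nonneg (b : Bool) : 0 ≤ bv b := by
  cases b <;> simp [bv]

/-- plays against `ts` are paths -/
theorem isPath_ts {c : ℕ → ℝ} (hc : Cost c) (ω : X) (hv : ω.1.1 = 1 / 2) (hn : c ω.1.2 ≤ 1 / 4)
    (s : S1 (ℕ × ℕ) Bool) (K : ℕ) :
    IsPath c (fun t => vh c ω (hist s (ts c ω) t)) (fun t => nh c ω (hist s (ts c ω) t))
      (fun t => bv (ts c ω (hist s (ts c ω) t))) K where
  v0 := fun t => (Glue_mem c ω _).1
  v1 := fun t => (Glue_mem c ω _).2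
  step := fun t _ h => Glue_step c ω s (ts c ω) t h
  rule0 := by
    intro t _ h
    have h1 : ts c ω (hist s (ts c ω) t) = false := by
      conv_lhs => unfold ts
      exact if_pos h
    change bv (ts c ω (hist s (ts c ω) t)) = 0
    rw [h1]
    rfl
  rule1 := by
    intro t _ h hr
    rw [← Glue_Sh] at hr
    have h1 : ts c ω (hist s (ts c ω) t) = true := by
      conv_lhs => unfold ts
      refine (if_neg h).trans ?_
      rw [decide_eq_true_eq, Glue_len]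
      exact hr
    change bv (ts c ω (hist s (ts c ω) t)) = 1
    rw [h1]
    rfl
  rule2 := by
    intro t _ hr
    rw [← Glue_Sh] at hr
    have h1 : ts c ω (hist s (ts c ω) t) = false := by
      conv_lhs => unfold ts
      split_ifs with h2
      · rfl
      · rw [decide_eq_false_iff_not, Glue_len]
        exact hr
    change bv (ts c ω (hist s (ts c ω) t)) = 0
    rw [h1]
    rfl
  start := hv
  small := hn

/-- the payoffs of a play against `ts` -/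
theorem g_ts {c : ℕ → ℝ} (hc : Cost c) (ω : X) (hv : ω.1.1 = 1 / 2) (hn : c ω.1.2 ≤ 1 / 4)
    (s : S1 (ℕ × ℕ) Bool) (t : ℕ) :
    (mg c).g ω t s (ts c ω) = bv (ts c ω (hist s (ts c ω) t)) := by
  have h : vh c ω (hist s (ts c ω) t) < 1 := (isPath_ts hc ω hv hn s t).v_lt_one hc le_rfl
  rw [Glue_g, if_neg h.ne]

theorem Glue_avg {c : ℕ → ℝ} (hc : Cost c) (ω : X) (hv : ω.1.1 = 1 / 2) (hn : c ω.1.2 ≤ 1 / 4)
    (s : S1 (ℕ × ℕ) Bool) (T : ℕ) :
    (mg c).avg ω T s (ts c ω) =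
      (∑ r ∈ Finset.range T, bv (ts c ω (hist s (ts c ω) r))) / T := by
  unfold Game.avg
  congr 1
  exact Finset.sum_congr rfl fun r _ => g_ts hc ω hv hn s r

/-- along every play against `ts` the lower limit of the averages is at most
`1/4 + c (n 0) / 2` -/
theorem liminf_ts {c : ℕ → ℝ} (hc : Cost c) (ω : X) (hv : ω.1.1 = 1 / 2) (hn : c ω.1.2 ≤ 1 / 4)
    (s : S1 (ℕ × ℕ) Bool) :
    liminf (fun T => (mg c).avg ω T s (ts c ω)) atTop ≤ 1 / 4 + c ω.1.2 / 2 := by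
  refine liminf_le_of_frequently_le ?_ ?_
  · rw [frequently_atTop]
    intro T₀
    obtain ⟨t, ht, ht1, h⟩ := IsPath.low hc (isPath_ts hc ω hv hn s) T₀
    refine ⟨t, ht, ?_⟩
    rw [Glue_avg hc ω hv hn, div_le_iff₀ (by exact_mod_cast ht1)]
    exact h
  · refine isBoundedUnder_of ⟨0, fun T => ?_⟩
    rw [Glue_avg hc ω hv hn]
    exact div_nonneg (Finset.sum_nonneg fun r _ => Glue_bv_nonneg _) (Nat.cast_nonneg _)

/-- something good for player 2 happens in the window `i` of the play of `s` against `ts` -/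
def Good (c : ℕ → ℝ) (ω : X) (i : ℕ) (s : S1 (ℕ × ℕ) Bool) : Prop :=
  ∃ t, 4096 ^ i ≤ t ∧ t ≤ 4096 ^ (i + 1) ∧ (vh c ω (hist s (ts c ω) t) = 0 ∨
    Bh (hist s (ts c ω) t) ≤ (1 / 4 + c ω.1.2 / 2) * t)

/-- bad windows are rare: path level -/
theorem count_ts {c : ℕ → ℝ} (hc : Cost c) (ω : X) (hv : ω.1.1 = 1 / 2) (hn : c ω.1.2 ≤ 1 / 4)
    (s : S1 (ℕ × ℕ) Bool) (I : Finset ℕ) (hI : ∀ i ∈ I, ¬ Good c ω i s) :
    ∑ i ∈ I, c (Mx c (4096 ^ (i + 1))) ≤ 2 := by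
  refine IsPath.count hc (isPath_ts hc ω hv hn s) I ?_
  intro i hi t h1 h2
  have h := hI i hi
  unfold Good at h
  push Not at h
  obtain ⟨h3, h4⟩ := h t h1 h2
  rw [Glue_Bh] at h4
  exact ⟨lt_of_le_of_ne (Glue_mem c ω _).1 (Ne.symm h3), h4⟩

end Pool.Agent.MP_ebfc19_pr.MN
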