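import Pool.Agent.Lib.MP_ebfc19_pr.MN.Glue

namespace Pool.Agent.MP_ebfc19_pr.MN

open MeasureTheory Filter Topology

theorem GlueT_stop_succ (c : ℕ → ℝ) (ω : X) (α : ℝ) (i : ℕ) (s : S1 (ℕ × ℕ) Bool)
    (t : S2 (ℕ × ℕ) Bool) (k : ℕ) (h : stop c ω α i (hist s t k)) :
    stop c ω α i (hist s t (k + 1)) := Or.inl h

theorem GlueT_stop_mono (c : ℕ → ℝ) (ω : X) (α : ℝ) (i : ℕ) (s : S1 (ℕ × ℕ) Bool)
    (t : S2 (ℕ × ℕ) Bool) {k l : ℕ} (hkl : k ≤ l) (h : stop c ω α i (hist s t k)) :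
    stop c ω α i (hist s t l) := by
  induction l, hkl using Nat.le_induction with
  | base => exact h
  | succ l _ ih => exact GlueT_stop_succ c ω α i s t l ih

open Classical in
theorem GlueT_tt (c : ℕ → ℝ) (ω : X) (α : ℝ) (i : ℕ) (h : Hi) (hs : stop c ω α i h) :
    tt c ω α i h = (if vh c ω h = 0 then false
      else decide (nh c ω h + 1 + h.length + 1 ≤ 4096 ^ (i + 2))) := by
  unfold tt
  exact if_pos hs

/-- before the stop the play is the play against `ts` -/
theorem GlueT_hist (c : ℕ → ℝ) (ω : X) (α : ℝ) (i : ℕ) (s : S1 (ℕ × ℕ) Bool) (k : ℕ)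
    (h : ∀ j < k, ¬ stop c ω α i (hist s (tt c ω α i) j)) :
    hist s (tt c ω α i) k = hist s (ts c ω) k := by
  induction k with
  | zero => rfl
  | succ k ih =>
    have e := ih fun j hj => h j (by omega)
    have h1 : tt c ω α i (hist s (tt c ω α i) k) = ts c ω (hist s (tt c ω α i) k) := by
      conv_lhs => unfold tt
      exact if_neg (h k (by omega))
    have h2 : hist s (tt c ω α i) (k + 1) =
      (s (hist s (tt c ω α i) k), tt c ω α i (hist s (tt c ω α i) k)) ::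
        hist s (tt c ω α i) k := rfl
    have h3 : hist s (ts c ω) (k + 1) =
      (s (hist s (ts c ω) k), ts c ω (hist s (ts c ω) k)) :: hist s (ts c ω) k := rfl
    rw [h2, h3, h1, e]

/-- the horizon strategy works when the window is good -/
theorem avg_tt {c : ℕ → ℝ} (hc : Cost c) (ω : X) (hv : ω.1.1 = 1 / 2) (hn : c ω.1.2 ≤ 1 / 4)
    (i : ℕ) (s : S1 (ℕ × ℕ) Bool) (hs : Good c ω i s) :
    (mg c).avg ω (4096 ^ (i + 2)) s (tt c ω (1 / 4 + c ω.1.2 / 2) i) ≤
      1 / 2 + c ω.1.2 / 2 - 1 / (4 * 4096 ^ 2) + 1 / 4096 ^ (i + 2) := by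
  classical
  set α : ℝ := 1 / 4 + c ω.1.2 / 2 with hα
  have hc0 := hc.pos ω.1.2
  -- the first time at which the strategy is switched
  obtain ⟨t0, ht1, ht2, hgood⟩ := hs
  have hpow : 1 ≤ 4096 ^ i := Nat.one_le_pow _ _ (by norm_num)
  have hclause : ∀ k, stop c ω α i (hist s (tt c ω α i) (k + 1)) →
      stop c ω α i (hist s (tt c ω α i) k) ∨
      (4096 ^ i ≤ k + 1 ∧ (vh c ω (hist s (tt c ω α i) (k + 1)) = 0 ∨
        Bh (hist s (tt c ω α i) (k + 1)) ≤ α * ((k + 1 : ℕ) : ℝ))) ∨ 4096 ^ (i + 1) ≤ k + 1 := by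
    intro k h
    have hlen := Glue_len s (tt c ω α i) (k + 1)
    rcases h with h | h | h
    · exact Or.inl h
    · right; left
      change 4096 ^ i ≤ (hist s (tt c ω α i) (k + 1)).length ∧
        (vh c ω (hist s (tt c ω α i) (k + 1)) = 0 ∨ Bh (hist s (tt c ω α i) (k + 1)) ≤
          α * ((hist s (tt c ω α i) (k + 1)).length : ℝ)) at h
      rwa [hlen] at h
    · right; right
      change 4096 ^ (i + 1) ≤ (hist s (tt c ω α i) (k + 1)).length at h
      rwa [hlen] at h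
  have hstop0 : stop c ω α i (hist s (tt c ω α i) t0) := by
    by_contra hcon
    have hno : ∀ j < t0, ¬ stop c ω α i (hist s (tt c ω α i) j) := fun j hj hj2 =>
      hcon (GlueT_stop_mono c ω α i s _ hj.le hj2)
    have e := GlueT_hist c ω α i s t0 hno
    obtain ⟨k, rfl⟩ : ∃ k, t0 = k + 1 := ⟨t0 - 1, by omega⟩
    apply hcon
    have hlen := Glue_len s (tt c ω α i) (k + 1)
    right; left
    change 4096 ^ i ≤ (hist s (tt c ω α i) (k + 1)).length ∧
        (vh c ω (hist s (tt c ω α i) (k + 1)) = 0 ∨ Bh (hist s (tt c ω α i) (k + 1)) ≤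
          α * ((hist s (tt c ω α i) (k + 1)).length : ℝ))
    rw [hlen, e]
    exact ⟨ht1, hgood⟩
  have hex : ∃ k, stop c ω α i (hist s (tt c ω α i) k) := ⟨t0, hstop0⟩
  set K := Nat.find hex with hK
  have hKs : stop c ω α i (hist s (tt c ω α i) K) := Nat.find_spec hex
  have hKm : ∀ j < K, ¬ stop c ω α i (hist s (tt c ω α i) j) := fun j hj => Nat.find_min hex hj
  have hKt : K ≤ t0 := Nat.find_min' hex hstop0
  have hK0 : K ≠ 0 := by
    intro h0
    rw [h0] at hKs
    exact hKs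
  have hKe := GlueT_hist c ω α i s K hKm
  have hKi : 4096 ^ i ≤ K ∧ (vh c ω (hist s (tt c ω α i) K) = 0 ∨
      Bh (hist s (tt c ω α i) K) ≤ α * (K : ℝ)) := by
    obtain ⟨k, hk⟩ : ∃ k, K = k + 1 := ⟨K - 1, by omega⟩
    rw [hk] at hKs
    rcases hclause k hKs with h | h | h
    · exact absurd h (hKm k (by omega))
    · rw [hk]
      exact h
    · have e : K = t0 := by omega
      rw [hKe, e]
      exact ⟨ht1, hgood⟩
  obtain ⟨hKi1, hKi2⟩ := hKi
  have hpath := isPath_ts hc ω hv hn s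
  have hT : K ≤ 4096 ^ (i + 2) := by
    have h1 : 4096 ^ (i + 1) ≤ 4096 ^ (i + 2) := Nat.pow_le_pow_right (by norm_num) (by omega)
    omega
  have hTi : (4096 : ℝ) ^ (i + 2) = 4096 ^ 2 * 4096 ^ i := by rw [pow_add]; ring
  have hTi1 : (4096 : ℝ) ^ (i + 2) = 4096 * 4096 ^ (i + 1) := by rw [pow_succ']
  -- before `K`
  have hvK : ∀ r ≤ K, vh c ω (hist s (tt c ω α i) r) < 1 ∧
      vh c ω (hist s (tt c ω α i) r) ≤ 1 / 2 + c ω.1.2 / 2 := by
    intro r hr
    have e := GlueT_hist c ω α i s r fun j hj => hKm j (by omega)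
    rw [e]
    exact ⟨(hpath r).v_lt_one hc le_rfl, (hpath r).v_le hc le_rfl⟩
  have hbefore : ∑ r ∈ Finset.range K, (mg c).g ω r s (tt c ω α i) =
      Bh (hist s (tt c ω α i) K) := by
    rw [Glue_Bh]
    refine Finset.sum_congr rfl fun r hr => ?_
    rw [Finset.mem_range] at hr
    rw [Glue_g, if_neg (hvK r hr.le).1.ne]
  have hBK : Bh (hist s (tt c ω α i) K) ≤ K := by
    rw [Glue_Bh]
    have h1 : ∑ r ∈ Finset.range K, bv (tt c ω α i (hist s (tt c ω α i) r)) ≤
        ∑ r ∈ Finset.range K, (1 : ℝ) := by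
      refine Finset.sum_le_sum fun r _ => ?_
      cases tt c ω α i (hist s (tt c ω α i) r) <;> simp [bv]
    simpa using h1
  -- after `K`
  have htt : ∀ r, K ≤ r → tt c ω α i (hist s (tt c ω α i) r) =
      (if vh c ω (hist s (tt c ω α i) r) = 0 then false
        else decide (nh c ω (hist s (tt c ω α i) r) + 1 + r + 1 ≤ 4096 ^ (i + 2))) := by
    intro r hr
    have h1 := GlueT_stop_mono c ω α i s (tt c ω α i) hr hKs
    have h2 := Glue_len s (tt c ω α i) r
    refine (GlueT_tt c ω α i _ h1).trans ?_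
    rw [h2]
  have hafter := hold (T := 4096 ^ (i + 2)) (K := K) hc
    (v := fun r => vh c ω (hist s (tt c ω α i) r))
    (n := fun r => nh c ω (hist s (tt c ω α i) r))
    (b := fun r => bv (tt c ω α i (hist s (tt c ω α i) r))) hT
    (fun r => (Glue_mem c ω _).1) (fun r => (Glue_mem c ω _).2)
    (fun r _ _ h => Glue_step c ω s _ r h) (fun r _ _ h => Glue_step_one c ω s _ r h)
    (by
      intro r h1 _ h3
      change bv (tt c ω α i (hist s (tt c ω α i) r)) = 0
      rw [htt r h1, if_pos h3]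
      rfl)
    (by
      intro r h1 _ h3 h4
      change bv (tt c ω α i (hist s (tt c ω α i) r)) = 1
      rw [htt r h1, if_neg h3, decide_eq_true h4]
      rfl)
    (by
      intro r h1 _ h3
      change bv (tt c ω α i (hist s (tt c ω α i) r)) = 0
      have h4 : decide (nh c ω (hist s (tt c ω α i) r) + 1 + r + 1 ≤ 4096 ^ (i + 2)) = false :=
        decide_eq_false h3
      rw [htt r h1, h4, ite_self]
      rfl)
  have hg : ∑ r ∈ Finset.Ico K (4096 ^ (i + 2)), (mg c).g ω r s (tt c ω α i) ≤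
      ((4096 ^ (i + 2) : ℕ) - (K : ℝ)) * vh c ω (hist s (tt c ω α i) K) + 1 := by
    refine le_trans (le_of_eq ?_) hafter
    refine Finset.sum_congr rfl fun r _ => ?_
    rw [Glue_g]
  have htot : ∑ r ∈ Finset.range (4096 ^ (i + 2)), (mg c).g ω r s (tt c ω α i) ≤
      Bh (hist s (tt c ω α i) K) +
        ((4096 ^ (i + 2) : ℕ) - (K : ℝ)) * vh c ω (hist s (tt c ω α i) K) + 1 := by
    rw [← Finset.sum_range_add_sum_Ico _ hT, hbefore]
    linarith
  have hTpos : (0 : ℝ) < 4096 ^ (i + 2) := by positivity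
  unfold Game.avg
  push_cast at htot ⊢
  rw [div_le_iff₀ hTpos]
  refine htot.trans ?_
  have hKr : (4096 : ℝ) ^ i ≤ K := by exact_mod_cast hKi1
  have hKr2 : (K : ℝ) ≤ 4096 ^ (i + 1) := by
    have : K ≤ 4096 ^ (i + 1) := by omega
    exact_mod_cast this
  have hone : 1 / (4096 : ℝ) ^ (i + 2) * 4096 ^ (i + 2) = 1 := by
    field_simp
  have hexp : (1 / 2 + c ω.1.2 / 2 - 1 / (4 * 4096 ^ 2) + 1 / 4096 ^ (i + 2)) *
      (4096 : ℝ) ^ (i + 2) = (1 / 2 + c ω.1.2 / 2) * 4096 ^ (i + 2) -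
        4096 ^ i / 4 + 1 := by
    rw [add_mul, sub_mul, hone, hTi]
    ring
  rw [hexp]
  have hp : (0 : ℝ) < 4096 ^ i := by positivity
  rcases hKi2 with h0 | hB
  · rw [h0, mul_zero, add_zero]
    have h2 : (4096 : ℝ) ^ (i + 1) = 4096 * 4096 ^ i := by rw [pow_succ']
    have h3 : 0 ≤ c ω.1.2 / 2 * 4096 ^ (i + 2) := by positivity
    rw [h2] at hKr2
    nlinarith
  · have h4 := (hvK K le_rfl).2
    have h5 : (0 : ℝ) ≤ 4096 ^ (i + 2) - K := by
      rw [hTi1]
      have : (0 : ℝ) < 4096 ^ (i + 1) := by positivity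
      linarith
    have h6 := mul_le_mul_of_nonneg_left h4 h5
    rw [hα] at hB
    nlinarith

end Pool.Agent.MP_ebfc19_pr.MN
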