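import Mathlib

namespace Pool.Agent.MP_ebfc19_pr.MN

open Filter Topology

private theorem three_exists_h (u : ℕ → ℝ) (hpos : ∀ n, 0 < u n) (hs : Summable u) :
    ∃ h : ℕ → ℕ, (∀ k, 1 ≤ h k) ∧ Tendsto (fun k => (h k : ℝ)) atTop atTop ∧
      Summable fun k => (h k : ℝ) * u k := by
  set r : ℕ → ℝ := fun k => ∑' j, u (j + k) with hr
  have hsk : ∀ k, Summable fun j => u (j + k) := fun k => (summable_nat_add_iff k).2 hs
  have hrpos : ∀ k, 0 < r k := fun k => (hsk k).tsum_pos (fun j => (hpos _).le) 0 (hpos _)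
  have hstep : ∀ k, r k = u k + r (k + 1) := by
    intro k
    have h1 := (hsk k).tsum_eq_zero_add
    simp only [zero_add] at h1
    have h2 : ∀ b, b + 1 + k = b + (k + 1) := fun b => by ring
    simp only [h2] at h1
    exact h1
  have hr0 : Tendsto r atTop (𝓝 0) := tendsto_sum_nat_add u
  have hsq : Tendsto (fun k => √(r k)) atTop (𝓝 0) := by
    have h1 := (Real.continuous_sqrt.tendsto 0).comp hr0
    rwa [Real.sqrt_zero] at h1
  have hsqpos : ∀ k, 0 < √(r k) := fun k => Real.sqrt_pos.2 (hrpos k)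
  refine ⟨fun k => ⌊1 / √(r k)⌋₊ + 1, fun k => Nat.le_add_left 1 _, ?_, ?_⟩
  · have h1 : Tendsto (fun k => (√(r k))⁻¹) atTop atTop :=
      tendsto_inv_nhdsGT_zero.comp (tendsto_nhdsWithin_iff.2 ⟨hsq, Eventually.of_forall hsqpos⟩)
    refine tendsto_atTop_mono (fun k => ?_) h1
    push_cast
    rw [← one_div]
    exact (Nat.lt_floor_add_one _).le
  · have h1 : Summable fun k => √(r k) - √(r (k + 1)) := by
      refine summable_of_sum_range_le (c := √(r 0)) (fun k => ?_) (fun n => ?_)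
      · rw [sub_nonneg]
        apply Real.sqrt_le_sqrt
        rw [hstep k]
        linarith [hpos k]
      · rw [Finset.sum_range_sub']
        linarith [(hsqpos n).le]
    refine Summable.of_nonneg_of_le (fun k => ?_) (fun k => ?_) ((h1.mul_left 2).add hs)
    · exact mul_nonneg (Nat.cast_nonneg _) (hpos k).le
    · have h2 : ((⌊1 / √(r k)⌋₊ + 1 : ℕ) : ℝ) ≤ 1 / √(r k) + 1 := by
        push_cast
        have := Nat.floor_le (by positivity : 0 ≤ 1 / √(r k))
        linarith
      have h3 : u k = (√(r k) - √(r (k + 1))) * (√(r k) + √(r (k + 1))) := by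
        have e1 := Real.mul_self_sqrt (hrpos k).le
        have e2 := Real.mul_self_sqrt (hrpos (k + 1)).le
        have e3 := hstep k
        nlinarith
      have h4 : √(r (k + 1)) ≤ √(r k) := by
        apply Real.sqrt_le_sqrt
        rw [hstep k]
        linarith [hpos k]
      have h5 : 1 / √(r k) * u k ≤ 2 * (√(r k) - √(r (k + 1))) := by
        rw [div_mul_eq_mul_div, one_mul, div_le_iff₀ (hsqpos k), h3]
        have h6 : √(r k) + √(r (k + 1)) ≤ 2 * √(r k) := by linarith
        have h7 : 0 ≤ √(r k) - √(r (k + 1)) := by linarith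
        nlinarith [mul_le_mul_of_nonneg_left h6 h7]
      calc ((⌊1 / √(r k)⌋₊ + 1 : ℕ) : ℝ) * u k ≤ (1 / √(r k) + 1) * u k :=
            mul_le_mul_of_nonneg_right h2 (hpos k).le
        _ = 1 / √(r k) * u k + u k := by ring
        _ ≤ 2 * (√(r k) - √(r (k + 1))) + u k := by linarith

/-- the path through the points `(k, j)`, `j < h k` -/
private def threeSt (h : ℕ → ℕ) : ℕ → ℕ × ℕ
  | 0 => (0, 0)
  | i + 1 => if (threeSt h i).2 + 1 < h (threeSt h i).1 then
      ((threeSt h i).1, (threeSt h i).2 + 1) else ((threeSt h i).1 + 1, 0)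

private theorem threeSt_lt (h : ℕ → ℕ) (h1 : ∀ k, 1 ≤ h k) (i : ℕ) :
    (threeSt h i).2 < h (threeSt h i).1 := by
  induction i with
  | zero => exact h1 0
  | succ i ih =>
    rw [threeSt]
    split_ifs with hc
    · exact hc
    · exact h1 _

private theorem threeSt_mono (h : ℕ → ℕ) : Monotone fun i => (threeSt h i).1 := by
  refine monotone_nat_of_le_succ fun i => ?_
  simp only [threeSt]
  split_ifs with hc
  · exact le_rfl
  · exact Nat.le_succ _

private theorem threeSt_hit (h : ℕ → ℕ) (h1 : ∀ k, 1 ≤ h k) (k : ℕ) :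
    ∃ i, threeSt h i = (k, 0) := by
  induction k with
  | zero => exact ⟨0, rfl⟩
  | succ k ih =>
    obtain ⟨i, hi⟩ := ih
    have key : ∀ j, j < h k → threeSt h (i + j) = (k, j) := by
      intro j
      induction j with
      | zero => intro _; exact hi
      | succ j ihj =>
        intro hj
        have h2 := ihj (by omega)
        rw [← add_assoc, threeSt, h2]
        simp only
        rw [if_pos hj]
    refine ⟨i + (h k - 1) + 1, ?_⟩
    have h3 := h1 k
    rw [threeSt, key (h k - 1) (by omega)]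
    simp only
    rw [if_neg (by omega)]

private theorem threeSt_tendsto (h : ℕ → ℕ) (h1 : ∀ k, 1 ≤ h k) :
    Tendsto (fun i => (threeSt h i).1) atTop atTop := by
  refine tendsto_atTop_atTop_of_monotone (threeSt_mono h) fun k => ?_
  obtain ⟨i, hi⟩ := threeSt_hit h h1 k
  exact ⟨i, by rw [hi]⟩

private theorem threeSt_sum (h : ℕ → ℕ) (h1 : ∀ k, 1 ≤ h k) (u : ℕ → ℝ) (N : ℕ) :
    ∑ i ∈ Finset.range N, u (threeSt h i).1 =
      ∑ k ∈ Finset.range (threeSt h N).1, (h k : ℝ) * u k +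
        ((threeSt h N).2 : ℝ) * u (threeSt h N).1 := by
  induction N with
  | zero => simp [threeSt]
  | succ N ih =>
    rw [Finset.sum_range_succ, ih]
    have h2 := threeSt_lt h h1 N
    rw [threeSt]
    split_ifs with hc
    · push_cast
      ring
    · have h3 : h (threeSt h N).1 = (threeSt h N).2 + 1 := by omega
      rw [Finset.sum_range_succ, h3]
      push_cast
      ring

/-- a summable rate gives condition (3) of Mertens and Neyman -/
theorem three (F : ℕ → ℝ) (hpos : ∀ n, 0 < F n) (hanti : Antitone F)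
    (hs : Summable fun n : ℕ => F n / ((n : ℝ) + 1)) (Ω : Type) (vl : ℝ → Ω → ℝ) (v : Ω → ℝ)
    (C : ℝ) (h : ∀ (n : ℕ) (l : ℝ), 0 < l → l ≤ 1 / ((n : ℝ) + 1) → ∀ ω, |vl l ω - v ω| ≤ C * F n) :
    ∃ l : ℕ → ℝ, (∀ i, 0 < l i ∧ l i ≤ 1) ∧ StrictAnti l ∧ Tendsto l atTop (𝓝 0) ∧
      Tendsto (fun i => l (i + 1) / l i) atTop (𝓝 1) ∧
      Summable fun i => ⨆ ω, |vl (l (i + 1)) ω - vl (l i) ω| := by
  -- condensation
  have hu : Summable fun k : ℕ => F (2 ^ k - 1) := by
    have h1 : Summable fun n : ℕ => F (n - 1) / (n : ℝ) := by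
      rw [← summable_nat_add_iff 1]
      simpa using hs
    have h2 := (summable_condensed_iff_of_nonneg (f := fun n : ℕ => F (n - 1) / (n : ℝ))
      (fun n => div_nonneg (hpos _).le (Nat.cast_nonneg _)) (fun m n hm hmn => by
        have hm' : (0 : ℝ) < m := by exact_mod_cast hm
        have hmn' : (m : ℝ) ≤ n := by exact_mod_cast hmn
        exact div_le_div₀ (hpos _).le (hanti (by omega)) hm' hmn')).2 h1
    refine h2.congr fun k => ?_
    have h3 : (2 : ℝ) ^ k ≠ 0 := by positivity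
    push_cast
    field_simp
  obtain ⟨g, hg1, hg2, hg3⟩ := three_exists_h (fun k : ℕ => F (2 ^ k - 1)) (fun k => hpos _) hu
  set st := threeSt g with hst
  have hgpos : ∀ k, (0 : ℝ) < g k := fun k => by exact_mod_cast hg1 k
  let s : ℕ → ℝ := fun i => ((st i).1 : ℝ) + ((st i).2 : ℝ) / g (st i).1
  have hsk : ∀ i, ((st i).1 : ℝ) ≤ s i := fun i =>
    le_add_of_nonneg_right (div_nonneg (Nat.cast_nonneg _) (hgpos _).le)
  have hsstep : ∀ i, s (i + 1) = s i + 1 / g (st i).1 := by
    intro i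
    have h2 := threeSt_lt g hg1 i
    have h4 := (hgpos (st i).1).ne'
    simp only [s, hst, threeSt] at h4 ⊢
    split_ifs with hc
    · push_cast
      ring
    · have h3 : ((g (threeSt g i).1 : ℕ) : ℝ) = ((threeSt g i).2 : ℝ) + 1 := by
        have h5 : g (threeSt g i).1 = (threeSt g i).2 + 1 := by omega
        exact_mod_cast h5
      push_cast
      field_simp
      rw [h3]
      ring
  have hsmono : StrictMono s := by
    refine strictMono_nat_of_lt_succ fun i => ?_
    rw [hsstep]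
    have := hgpos (st i).1
    have h2 : 0 < 1 / (g (st i).1 : ℝ) := by positivity
    linarith
  have hs0 : ∀ i, 0 ≤ s i := fun i => (Nat.cast_nonneg _).trans (hsk i)
  have hstinf : Tendsto (fun i => (st i).1) atTop atTop := threeSt_tendsto g hg1
  have hsinf : Tendsto s atTop atTop :=
    tendsto_atTop_mono hsk (tendsto_natCast_atTop_atTop.comp hstinf)
  have hlpos : ∀ i, 0 < (2 : ℝ) ^ (-s i) := fun i => Real.rpow_pos_of_pos two_pos _
  have hanti' : StrictAnti fun i => (2 : ℝ) ^ (-s i) := by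
    intro i j hij
    exact Real.rpow_lt_rpow_of_exponent_lt one_lt_two (neg_lt_neg (hsmono hij))
  have hle : ∀ i, (2 : ℝ) ^ (-s i) ≤ 1 / (((2 ^ (st i).1 - 1 : ℕ) : ℝ) + 1) := by
    intro i
    have h1 : (((2 ^ (st i).1 - 1 : ℕ) : ℝ) + 1) = (2 : ℝ) ^ ((st i).1 : ℝ) := by
      rw [Real.rpow_natCast, Nat.cast_sub Nat.one_le_two_pow]
      push_cast
      ring
    rw [h1, one_div, ← Real.rpow_neg two_pos.le]
    exact Real.rpow_le_rpow_of_exponent_le one_lt_two.le (neg_le_neg (hsk i))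
  refine ⟨fun i => (2 : ℝ) ^ (-s i), fun i => ⟨hlpos i, ?_⟩, hanti', ?_, ?_, ?_⟩
  · exact Real.rpow_le_one_of_one_le_of_nonpos one_lt_two.le (neg_nonpos.2 (hs0 i))
  · have h1 : Tendsto (fun x : ℝ => (2 : ℝ) ^ (-x)) atTop (𝓝 0) := by
      have h2 : (fun x : ℝ => (2 : ℝ) ^ (-x)) = fun x : ℝ => (1 / 2 : ℝ) ^ x := by
        ext x
        rw [Real.rpow_neg two_pos.le, one_div, Real.inv_rpow two_pos.le]
      rw [h2]
      exact tendsto_rpow_atTop_of_base_lt_one _ (by norm_num) (by norm_num)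
    exact h1.comp hsinf
  · have h1 : ∀ i, (2 : ℝ) ^ (-s (i + 1)) / (2 : ℝ) ^ (-s i) =
        (2 : ℝ) ^ (-(1 / (g (st i).1 : ℝ))) := by
      intro i
      rw [← Real.rpow_sub two_pos, hsstep]
      congr 1
      ring
    simp only [h1]
    have h2 : Tendsto (fun i => (g (st i).1 : ℝ)) atTop atTop := hg2.comp hstinf
    have h3 : Tendsto (fun i => -(1 / (g (st i).1 : ℝ))) atTop (𝓝 0) := by
      have := h2.inv_tendsto_atTop.neg
      simpa using this
    have h4 : Tendsto (fun x : ℝ => (2 : ℝ) ^ x) (𝓝 0) (𝓝 1) := by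
      have := (Real.continuous_const_rpow (two_ne_zero : (2 : ℝ) ≠ 0)).tendsto 0
      simpa using this
    exact h4.comp h3
  · have hbound : ∀ i, ⨆ ω, |vl ((2 : ℝ) ^ (-s (i + 1))) ω - vl ((2 : ℝ) ^ (-s i)) ω| ≤
        2 * |C| * F (2 ^ (st i).1 - 1) := by
      intro i
      refine Real.iSup_le (fun ω => ?_) (by have := (hpos (2 ^ (st i).1 - 1)).le; positivity)
      have e1 := h (2 ^ (st i).1 - 1) _ (hlpos i) (hle i) ω
      have e2 := h (2 ^ (st i).1 - 1) _ (hlpos (i + 1))
        ((hanti' (Nat.lt_succ_self i)).le.trans (hle i)) ω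
      have e3 : C * F (2 ^ (st i).1 - 1) ≤ |C| * F (2 ^ (st i).1 - 1) :=
        mul_le_mul_of_nonneg_right (le_abs_self C) (hpos _).le
      calc |vl ((2 : ℝ) ^ (-s (i + 1))) ω - vl ((2 : ℝ) ^ (-s i)) ω|
          = |(vl ((2 : ℝ) ^ (-s (i + 1))) ω - v ω) - (vl ((2 : ℝ) ^ (-s i)) ω - v ω)| := by
            congr 1; ring
        _ ≤ |vl ((2 : ℝ) ^ (-s (i + 1))) ω - v ω| + |vl ((2 : ℝ) ^ (-s i)) ω - v ω| :=
            abs_sub _ _
        _ ≤ 2 * |C| * F (2 ^ (st i).1 - 1) := by linarith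
    refine Summable.of_nonneg_of_le (fun i => Real.iSup_nonneg fun ω => abs_nonneg _) hbound ?_
    refine Summable.mul_left _ ?_
    refine summable_of_sum_range_le (c := ∑' k, (g k : ℝ) * F (2 ^ k - 1))
      (fun i => (hpos _).le) (fun N => ?_)
    rw [threeSt_sum g hg1 (fun k => F (2 ^ k - 1)) N]
    have hnn : ∀ k, 0 ≤ (g k : ℝ) * F (2 ^ k - 1) := fun k =>
      mul_nonneg (hgpos k).le (hpos _).le
    calc ∑ k ∈ Finset.range (threeSt g N).1, (g k : ℝ) * F (2 ^ k - 1) +
          ((threeSt g N).2 : ℝ) * F (2 ^ (threeSt g N).1 - 1)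
        ≤ ∑ k ∈ Finset.range ((threeSt g N).1 + 1), (g k : ℝ) * F (2 ^ k - 1) := by
          rw [Finset.sum_range_succ]
          have e1 : ((threeSt g N).2 : ℝ) ≤ g (threeSt g N).1 := by
            exact_mod_cast (threeSt_lt g hg1 N).le
          have e2 := mul_le_mul_of_nonneg_right e1 (hpos (2 ^ (threeSt g N).1 - 1)).le
          linarith
      _ ≤ ∑' k, (g k : ℝ) * F (2 ^ k - 1) := hg3.sum_le_tsum _ (fun k _ => hnn k)

end Pool.Agent.MP_ebfc19_pr.MN
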