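import Pool.Agent.Lib.MP_ebfc19_pr.MN.NoVal
import Pool.Agent.Lib.MP_ebfc19_pr.MN.Three

namespace Pool.Agent.MP_ebfc19_pr.MN

open MeasureTheory Filter Topology

/-- scaling the rate gives a cost function -/
theorem exists_cost (F : ℕ → ℝ) (hpos : ∀ n, 0 < F n) (hanti : Antitone F)
    (hs : ¬ Summable fun n : ℕ => F n / ((n : ℝ) + 1)) (hlim : Tendsto F atTop (𝓝 0))
    (hmono : Monotone fun n : ℕ => ((n : ℝ) + 1) * F n) :
    Cost fun n => 8 / F 0 * F n := by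
  have h0 : 0 < F 0 := hpos 0
  have h8 : 0 < 8 / F 0 := by positivity
  refine ⟨fun n => mul_pos h8 (hpos n), ?_, ?_, ?_, ?_, ?_⟩
  · intro m n hmn
    exact mul_le_mul_of_nonneg_left (hanti hmn) h8.le
  · intro m n hmn
    have h := mul_le_mul_of_nonneg_left (hmono hmn) h8.le
    simp only at h ⊢
    calc ((m : ℝ) + 1) * (8 / F 0 * F m) = 8 / F 0 * (((m : ℝ) + 1) * F m) := by ring
      _ ≤ 8 / F 0 * (((n : ℝ) + 1) * F n) := h
      _ = ((n : ℝ) + 1) * (8 / F 0 * F n) := by ring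
  · intro n
    have h : F 0 ≤ ((n : ℝ) + 1) * F n := by
      have := hmono (Nat.zero_le n)
      simpa using this
    have hn : (0 : ℝ) < (n : ℝ) + 1 := by positivity
    rw [div_mul_eq_mul_div, div_le_div_iff₀ hn h0]
    nlinarith
  · have := hlim.const_mul (8 / F 0)
    simpa using this
  · intro h
    apply hs
    have h2 := h.mul_left (F 0 / 8)
    refine h2.congr fun n => ?_
    field_simp

theorem main (F : ℕ → ℝ) (hpos : ∀ n, 0 < F n) (hanti : Antitone F)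
    (hs : ¬ Summable fun n : ℕ => F n / ((n : ℝ) + 1)) (hlim : Tendsto F atTop (𝓝 0))
    (hmono : Monotone fun n : ℕ => ((n : ℝ) + 1) * F n) :
    ∃ (G : Game (ℕ × ℕ) Bool) (v : G.Ω → ℝ) (vl : ℝ → G.Ω → ℝ) (C : ℝ) (ω₀ : G.Ω) (ε₀ : ℝ),
      (∀ ω a b, 0 ≤ G.pay ω a b ∧ G.pay ω a b ≤ 1) ∧
      (∀ l ω, 0 < l → l ≤ 1 → G.IsDiscValue l ω (vl l ω)) ∧
      (∀ (n : ℕ) (l : ℝ), 0 < l → l ≤ 1 / ((n : ℝ) + 1) → ∀ ω, |vl l ω - v ω| ≤ C * F n) ∧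
      0 < ε₀ ∧
      (∃ t : S2 (ℕ × ℕ) Bool, ∀ s : S1 (ℕ × ℕ) Bool,
        liminf (fun T => G.avg ω₀ T s t) atTop ≤ v ω₀ - ε₀) ∧
      (∀ (σ : ProbabilityMeasure (S1 (ℕ × ℕ) Bool)) (T₀ : ℕ),
        ∃ (t : S2 (ℕ × ℕ) Bool) (T : ℕ), T₀ ≤ T ∧
          Ex σ (pure2 t) (G.avg ω₀ T) ≤ v ω₀ - ε₀) ∧
      ∀ x, ¬ G.HasValue ω₀ x := by
  classical
  have hc := exists_cost F hpos hanti hs hlim hmono
  set c : ℕ → ℝ := fun n => 8 / F 0 * F n with hcdef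
  have he : (0 : ℝ) < 1 / (16 * 4096 ^ 2) := by positivity
  obtain ⟨N, hN⟩ : ∃ N, c N ≤ 1 / (16 * 4096 ^ 2) := by
    have h1 := (hc.lim.eventually (gt_mem_nhds he)).exists
    obtain ⟨N, hN⟩ := h1
    exact ⟨N, hN.le⟩
  have hval : ∀ l : ℝ, 0 < l → l ≤ 1 → ∃ V : X → ℝ, ∀ ω : X, (mg c).IsDiscValue l ω (V ω) :=
    fun l h0 h1 => turn_value X gx gx_mem (nx c) h0 h1
  choose! V hV using hval
  let ω₀ : X := ⟨(1 / 2, N), by norm_num, by norm_num⟩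
  have hω1 : ω₀.1.1 = 1 / 2 := rfl
  have hω2 : ω₀.1.2 = N := rfl
  have hN4 : c ω₀.1.2 ≤ 1 / 4 := by
    rw [hω2]
    refine hN.trans ?_
    norm_num
  have hvs : 1 / 2 - 1 / (16 * 4096 ^ 2) / 16 ≤ vs ω₀ := by
    have hbig := hc.big N
    have hNp : (0 : ℝ) < (N : ℝ) + 1 := by positivity
    have h1 : 1 / ((N : ℝ) + 1) ≤ 1 / (16 * 4096 ^ 2) / 8 := by
      have h2 : 8 / ((N : ℝ) + 1) = 8 * (1 / ((N : ℝ) + 1)) := by ring
      linarith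
    have h3 : vs ω₀ = max 0 (1 / 2 - (1 - 1 / 2) / ((N : ℝ) + 1)) := rfl
    rw [h3]
    refine le_trans ?_ (le_max_right _ _)
    have h4 : (1 - 1 / 2 : ℝ) / ((N : ℝ) + 1) = 1 / 2 * (1 / ((N : ℝ) + 1)) := by ring
    rw [h4]
    linarith
  refine ⟨mg c, vs, V, 2 * (8 / F 0), ω₀, 1 / (16 * 4096 ^ 2), fun ω _ b => gx_mem ω b,
    fun l ω h0 h1 => hV l h0 h1 ω, ?_, he, ⟨ts c ω₀, ?_⟩, ?_, ?_⟩
  · intro n l h0 hln ω
    have hl1 : l ≤ 1 := by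
      refine hln.trans ?_
      rw [div_le_one (by positivity)]
      have : (0 : ℝ) ≤ n := Nat.cast_nonneg _
      linarith
    have h := mg_rate hc h0 hln ω (hV l h0 hl1 ω)
    calc |V l ω - vs ω| ≤ 2 * c n := h
      _ = 2 * (8 / F 0) * F n := by rw [hcdef]; ring
  · intro s
    have h := liminf_ts hc ω₀ hω1 hN4 s
    rw [hω2] at h
    refine h.trans ?_
    have h5 : (1 : ℝ) / (16 * 4096 ^ 2) ≤ 1 / 16 := by norm_num
    linarith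
  · intro σ T₀
    exact exists_low hc ω₀ hω1 hN σ T₀
  · intro x
    exact no_value hc ω₀ hω1 hN x

end Pool.Agent.MP_ebfc19_pr.MN
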