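import Pool.Agent.Lib.MP_ebfc19_pr.MN.Base

namespace Pool.Agent.MP_ebfc19_pr.MN

open MeasureTheory Filter Topology

variable {A B : Type} [MeasurableSpace A] [MeasurableSpace B] [Countable A] [Countable B]
  [MeasurableSingletonClass A] [MeasurableSingletonClass B]

omit [Countable A] [Countable B] in
/-- the set of the plays with a given history is measurable -/
theorem meas_hist_eq (n : ℕ) (h : List (A × B)) :
    MeasurableSet {p : S1 A B × S2 A B | hist p.1 p.2 n = h} := by
  induction n generalizing h with
  | zero => simp only [hist]; exact MeasurableSet.const _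
  | succ n ih =>
    cases h with
    | nil => simp only [hist, reduceCtorEq]; exact MeasurableSet.const _
    | cons x h =>
      have e : {p : S1 A B × S2 A B | hist p.1 p.2 (n + 1) = x :: h} =
          {p : S1 A B × S2 A B | hist p.1 p.2 n = h} ∩
            ({p : S1 A B × S2 A B | p.1 h = x.1} ∩ {p : S1 A B × S2 A B | p.2 h = x.2}) := by
        ext p
        simp only [hist, List.cons.injEq, Set.mem_ofPred_eq, Set.mem_inter_iff, Prod.ext_iff]
        constructor
        · rintro ⟨⟨h1, h2⟩, h3⟩
          rw [h3] at h1 h2
          exact ⟨h3, h1, h2⟩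
        · rintro ⟨h3, h1, h2⟩
          rw [h3]
          exact ⟨⟨h1, h2⟩, rfl⟩
      have m1 : Measurable fun p : S1 A B × S2 A B => p.1 h :=
        (measurable_pi_apply h).comp measurable_fst
      have m2 : Measurable fun p : S1 A B × S2 A B => p.2 h :=
        (measurable_pi_apply h).comp measurable_snd
      rw [e]
      exact (ih h).inter ((m1 (measurableSet_singleton x.1)).inter
        (m2 (measurableSet_singleton x.2)))

/-- every function of the history after `n` stages is measurable -/
theorem measurable_fhist (f : List (A × B) → ℝ) (n : ℕ) :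
    Measurable fun p : S1 A B × S2 A B => f (hist p.1 p.2 n) := by
  let _ : MeasurableSpace (List (A × B)) := ⊤
  have h1 : Measurable fun p : S1 A B × S2 A B => hist p.1 p.2 n :=
    measurable_to_countable' fun h => meas_hist_eq n h
  exact (measurable_from_top (f := f)).comp h1

theorem measurable_fhist_left (f : List (A × B) → ℝ) (n : ℕ) (t : S2 A B) :
    Measurable fun s : S1 A B => f (hist s t n) :=
  (measurable_fhist f n).comp (measurable_id.prodMk measurable_const)

theorem measurable_g (G : Game A B) (ω : G.Ω) (n : ℕ) :
    Measurable fun p : S1 A B × S2 A B => G.g ω n p.1 p.2 :=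
  measurable_fhist (fun l => match l with
    | [] => 0
    | x :: h => G.pay (G.st ω h) x.1 x.2) (n + 1)

theorem measurable_avg (G : Game A B) (ω : G.Ω) (T : ℕ) :
    Measurable fun p : S1 A B × S2 A B => G.avg ω T p.1 p.2 :=
  (Finset.measurable_sum _ fun n _ => measurable_g G ω n).div_const _

theorem measurable_disc (G : Game A B) (ω : G.Ω) (l : ℝ) :
    Measurable fun p : S1 A B × S2 A B => G.disc ω l p.1 p.2 :=
  Measurable.tsum fun n => (measurable_g G ω n).const_mul _

/-- a pure strategy of player 1 as a strategy -/
noncomputable def pure1 (s : S1 A B) : ProbabilityMeasure (S1 A B) :=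
  ⟨Measure.dirac s, inferInstance⟩

/-- a pure strategy of player 2 as a strategy -/
noncomputable def pure2 (t : S2 A B) : ProbabilityMeasure (S2 A B) :=
  ⟨Measure.dirac t, inferInstance⟩

end Pool.Agent.MP_ebfc19_pr.MN
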