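import Pool.Agent.Lib.MP_ebfc19_pr.MN.Meas

namespace Pool.Agent.MP_ebfc19_pr.MN

open MeasureTheory Filter Topology

variable {A B : Type} [MeasurableSpace A] [MeasurableSpace B] [Countable A] [Countable B]
  [MeasurableSingletonClass A] [MeasurableSingletonClass B]

private theorem measE_int {X : Type} [MeasurableSpace X] (μ : Measure X) [IsProbabilityMeasure μ]
    {f : X → ℝ} (hm : Measurable f) {C : ℝ} (hb : ∀ x, |f x| ≤ C) : Integrable f μ :=
  Integrable.of_bound hm.aestronglyMeasurable C (Filter.Eventually.of_forall hb)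

/-- lower bound of an expectation when player 1 uses the pure strategy `s` -/
theorem le_Ex_pure1 (s : S1 A B) (τ : ProbabilityMeasure (S2 A B)) (Y : S1 A B → S2 A B → ℝ)
    (hm : Measurable fun p : S1 A B × S2 A B => Y p.1 p.2) {C x : ℝ} (hb : ∀ s t, |Y s t| ≤ C)
    (hx : ∀ t, x ≤ Y s t) : x ≤ Ex (pure1 s) τ Y := by
  have h1 : Ex (pure1 s) τ Y = ∫ t, Y s t ∂(τ : Measure (S2 A B)) := by
    unfold Ex pure1
    change ∫ p, Y p.1 p.2 ∂((Measure.dirac s).prod (τ : Measure (S2 A B))) = _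
    rw [Measure.dirac_prod, integral_map measurable_prodMk_left.aemeasurable
      hm.aestronglyMeasurable]
  rw [h1]
  have h2 : ∫ _ : S2 A B, x ∂(τ : Measure (S2 A B)) = x := by simp
  rw [← h2]
  have hm' : Measurable fun t => Y s t := hm.comp measurable_prodMk_left
  exact integral_mono (integrable_const x) (measE_int _ hm' (hb s)) hx

omit [Countable A] [Countable B] [MeasurableSingletonClass A] [MeasurableSingletonClass B] in
private theorem measE_pure2 (t : S2 A B) (σ : ProbabilityMeasure (S1 A B))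
    (Y : S1 A B → S2 A B → ℝ)
    (hm : Measurable fun p : S1 A B × S2 A B => Y p.1 p.2) :
    Ex σ (pure2 t) Y = ∫ s, Y s t ∂(σ : Measure (S1 A B)) := by
  unfold Ex pure2
  change ∫ p, Y p.1 p.2 ∂((σ : Measure (S1 A B)).prod (Measure.dirac t)) = _
  rw [Measure.prod_dirac, integral_map measurable_prodMk_right.aemeasurable
    hm.aestronglyMeasurable]

/-- upper bound of an expectation when player 2 uses the pure strategy `t` -/
theorem Ex_pure2_le (t : S2 A B) (σ : ProbabilityMeasure (S1 A B)) (Y : S1 A B → S2 A B → ℝ)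
    (hm : Measurable fun p : S1 A B × S2 A B => Y p.1 p.2) {C x : ℝ} (hb : ∀ s t, |Y s t| ≤ C)
    (hx : ∀ s, Y s t ≤ x) : Ex σ (pure2 t) Y ≤ x := by
  rw [measE_pure2 t σ Y hm]
  have h2 : ∫ _ : S1 A B, x ∂(σ : Measure (S1 A B)) = x := by simp
  rw [← h2]
  have hm' : Measurable fun s => Y s t := hm.comp measurable_prodMk_right
  exact integral_mono (measE_int _ hm' fun s => hb s t) (integrable_const x) hx

/-- the expectation against a pure strategy of player 2 -/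
theorem Ex_pure2 (t : S2 A B) (σ : ProbabilityMeasure (S1 A B)) (Y : S1 A B → S2 A B → ℝ)
    (hm : Measurable fun p : S1 A B × S2 A B => Y p.1 p.2) {C : ℝ} (hb : ∀ s t, |Y s t| ≤ C) :
    Ex σ (pure2 t) Y = ∫ s, Y s t ∂(σ : Measure (S1 A B)) :=
  measE_pure2 t σ Y hm

omit [MeasurableSpace A] [MeasurableSpace B] [Countable A] [Countable B]
  [MeasurableSingletonClass A] [MeasurableSingletonClass B] in
private theorem measE_g_mem (G : Game A B) (ω : G.Ω)
    (hb : ∀ ω a b, 0 ≤ G.pay ω a b ∧ G.pay ω a b ≤ 1) (n : ℕ) (s : S1 A B) (t : S2 A B) :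
    0 ≤ G.g ω n s t ∧ G.g ω n s t ≤ 1 := hb _ _ _

omit [MeasurableSpace A] [MeasurableSpace B] [Countable A] [Countable B]
  [MeasurableSingletonClass A] [MeasurableSingletonClass B] in
private theorem measE_g_abs (G : Game A B) (ω : G.Ω)
    (hb : ∀ ω a b, 0 ≤ G.pay ω a b ∧ G.pay ω a b ≤ 1) (n : ℕ) (s : S1 A B) (t : S2 A B) :
    |G.g ω n s t| ≤ 1 := by
  have h := measE_g_mem G ω hb n s t
  rw [abs_of_nonneg h.1]
  exact h.2

private theorem measE_int_g (G : Game A B) (ω : G.Ω)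
    (hb : ∀ ω a b, 0 ≤ G.pay ω a b ∧ G.pay ω a b ≤ 1)
    (σ : ProbabilityMeasure (S1 A B)) (τ : ProbabilityMeasure (S2 A B)) (n : ℕ) :
    Integrable (fun p : S1 A B × S2 A B => G.g ω n p.1 p.2)
      ((σ : Measure (S1 A B)).prod (τ : Measure (S2 A B))) :=
  measE_int _ (measurable_g G ω n) fun p => measE_g_abs G ω hb n p.1 p.2

/-- averages: linearity -/
theorem Ex_avg (G : Game A B) (ω : G.Ω) (hb : ∀ ω a b, 0 ≤ G.pay ω a b ∧ G.pay ω a b ≤ 1)
    (σ : ProbabilityMeasure (S1 A B)) (τ : ProbabilityMeasure (S2 A B)) (T : ℕ) :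
    Ex σ τ (G.avg ω T) = (∑ n ∈ Finset.range T, Ex σ τ (G.g ω n)) / T := by
  unfold Ex Game.avg
  rw [integral_div, integral_finsetSum _ fun n _ => measE_int_g G ω hb σ τ n]

omit [MeasurableSpace A] [MeasurableSpace B] [Countable A] [Countable B]
  [MeasurableSingletonClass A] [MeasurableSingletonClass B] in
private theorem measE_geo {l : ℝ} (h0 : 0 < l) (h1 : l ≤ 1) :
    HasSum (fun n : ℕ => l * (1 - l) ^ n) 1 := by
  have h := (hasSum_geometric_of_lt_one (r := 1 - l) (by linarith) (by linarith)).mul_left l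
  rwa [sub_sub_cancel, mul_inv_cancel₀ h0.ne'] at h

omit [MeasurableSpace A] [MeasurableSpace B] [Countable A] [Countable B]
  [MeasurableSingletonClass A] [MeasurableSingletonClass B] in
private theorem measE_term (G : Game A B) (ω : G.Ω)
    (hb : ∀ ω a b, 0 ≤ G.pay ω a b ∧ G.pay ω a b ≤ 1)
    {l : ℝ} (h0 : 0 < l) (h1 : l ≤ 1) (n : ℕ) (s : S1 A B) (t : S2 A B) :
    0 ≤ l * (1 - l) ^ n * G.g ω n s t ∧ l * (1 - l) ^ n * G.g ω n s t ≤ l * (1 - l) ^ n := by
  have h := measE_g_mem G ω hb n s t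
  have h2 : 0 ≤ l * (1 - l) ^ n := mul_nonneg h0.le (pow_nonneg (by linarith) _)
  exact ⟨mul_nonneg h2 h.1, mul_le_of_le_one_right h2 h.2⟩

omit [MeasurableSpace A] [MeasurableSpace B] [Countable A] [Countable B]
  [MeasurableSingletonClass A] [MeasurableSingletonClass B] in
private theorem measE_summable (G : Game A B) (ω : G.Ω)
    (hb : ∀ ω a b, 0 ≤ G.pay ω a b ∧ G.pay ω a b ≤ 1)
    {l : ℝ} (h0 : 0 < l) (h1 : l ≤ 1) (s : S1 A B) (t : S2 A B) :
    Summable fun n : ℕ => l * (1 - l) ^ n * G.g ω n s t :=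
  Summable.of_nonneg_of_le (fun n => (measE_term G ω hb h0 h1 n s t).1)
    (fun n => (measE_term G ω hb h0 h1 n s t).2) (measE_geo h0 h1).summable

/-- discounted payoffs: linearity -/
theorem Ex_disc (G : Game A B) (ω : G.Ω) (hb : ∀ ω a b, 0 ≤ G.pay ω a b ∧ G.pay ω a b ≤ 1)
    (σ : ProbabilityMeasure (S1 A B)) (τ : ProbabilityMeasure (S2 A B)) {l : ℝ} (h0 : 0 < l)
    (h1 : l ≤ 1) :
    Ex σ τ (G.disc ω l) = ∑' n : ℕ, l * (1 - l) ^ n * Ex σ τ (G.g ω n) := by
  unfold Ex Game.disc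
  have hint : ∀ n : ℕ, Integrable (fun p : S1 A B × S2 A B => l * (1 - l) ^ n * G.g ω n p.1 p.2)
      ((σ : Measure (S1 A B)).prod (τ : Measure (S2 A B))) := fun n =>
    (measE_int_g G ω hb σ τ n).const_mul _
  have hs : Summable fun n : ℕ => ∫ p : S1 A B × S2 A B, ‖l * (1 - l) ^ n * G.g ω n p.1 p.2‖
      ∂((σ : Measure (S1 A B)).prod (τ : Measure (S2 A B))) := by
    refine Summable.of_nonneg_of_le (fun n => integral_nonneg fun p => norm_nonneg _)
      (fun n => ?_) (measE_geo h0 h1).summable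
    have h3 : ∫ _ : S1 A B × S2 A B, l * (1 - l) ^ n
        ∂((σ : Measure (S1 A B)).prod (τ : Measure (S2 A B))) = l * (1 - l) ^ n := by simp
    refine le_of_le_of_eq ?_ h3
    refine integral_mono (hint n).norm (integrable_const _) fun p => ?_
    have h4 := measE_term G ω hb h0 h1 n p.1 p.2
    simp only [Real.norm_eq_abs]
    rw [abs_of_nonneg h4.1]
    exact h4.2
  rw [← integral_tsum_of_summable_integral_norm hint hs]
  exact tsum_congr fun n => integral_const_mul _ _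

theorem Ex_g_mem (G : Game A B) (ω : G.Ω) (hb : ∀ ω a b, 0 ≤ G.pay ω a b ∧ G.pay ω a b ≤ 1)
    (σ : ProbabilityMeasure (S1 A B)) (τ : ProbabilityMeasure (S2 A B)) (n : ℕ) :
    0 ≤ Ex σ τ (G.g ω n) ∧ Ex σ τ (G.g ω n) ≤ 1 := by
  refine ⟨integral_nonneg fun p => (measE_g_mem G ω hb n p.1 p.2).1, ?_⟩
  have h3 : ∫ _ : S1 A B × S2 A B, (1 : ℝ)
      ∂((σ : Measure (S1 A B)).prod (τ : Measure (S2 A B))) = 1 := by simp
  rw [← h3]
  exact integral_mono (measE_int_g G ω hb σ τ n) (integrable_const _)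
    fun p => (measE_g_mem G ω hb n p.1 p.2).2

theorem avg_mem (G : Game A B) (ω : G.Ω) (hb : ∀ ω a b, 0 ≤ G.pay ω a b ∧ G.pay ω a b ≤ 1)
    (T : ℕ) (s : S1 A B) (t : S2 A B) : 0 ≤ G.avg ω T s t ∧ G.avg ω T s t ≤ 1 := by
  unfold Game.avg
  refine ⟨div_nonneg (Finset.sum_nonneg fun n _ => (measE_g_mem G ω hb n s t).1)
    (Nat.cast_nonneg T), ?_⟩
  refine div_le_one_of_le₀ ?_ (Nat.cast_nonneg T)
  have h := Finset.sum_le_card_nsmul (Finset.range T) (fun n => G.g ω n s t) 1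
    fun n _ => (measE_g_mem G ω hb n s t).2
  simpa using h

theorem disc_mem (G : Game A B) (ω : G.Ω) (hb : ∀ ω a b, 0 ≤ G.pay ω a b ∧ G.pay ω a b ≤ 1)
    {l : ℝ} (h0 : 0 < l) (h1 : l ≤ 1) (s : S1 A B) (t : S2 A B) :
    0 ≤ G.disc ω l s t ∧ G.disc ω l s t ≤ 1 := by
  unfold Game.disc
  refine ⟨tsum_nonneg fun n => (measE_term G ω hb h0 h1 n s t).1, ?_⟩
  refine le_of_le_of_eq ?_ (measE_geo h0 h1).tsum_eq
  exact (measE_summable G ω hb h0 h1 s t).tsum_le_tsum
    (fun n => (measE_term G ω hb h0 h1 n s t).2) (measE_geo h0 h1).summable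

/-- partial sums bound the discounted payoff from below and above -/
theorem disc_bounds (G : Game A B) (ω : G.Ω) (hb : ∀ ω a b, 0 ≤ G.pay ω a b ∧ G.pay ω a b ≤ 1)
    {l : ℝ} (h0 : 0 < l) (h1 : l ≤ 1) (s : S1 A B) (t : S2 A B) (N : ℕ) :
    ∑ n ∈ Finset.range N, l * (1 - l) ^ n * G.g ω n s t ≤ G.disc ω l s t ∧
    G.disc ω l s t ≤ ∑ n ∈ Finset.range N, l * (1 - l) ^ n * G.g ω n s t + (1 - l) ^ N := by
  have hs := measE_summable G ω hb h0 h1 s t
  have h2 := hs.sum_add_tsum_nat_add N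
  have h3 : ∀ n : ℕ, l * (1 - l) ^ (n + N) = (1 - l) ^ N * (l * (1 - l) ^ n) := fun n => by
    rw [pow_add]
    ring
  have h4 : HasSum (fun n : ℕ => l * (1 - l) ^ (n + N)) ((1 - l) ^ N) := by
    have h5 := (measE_geo h0 h1).mul_left ((1 - l) ^ N)
    rw [mul_one] at h5
    simpa only [h3] using h5
  have hs' : Summable fun n : ℕ => l * (1 - l) ^ (n + N) * G.g ω (n + N) s t :=
    (summable_nat_add_iff N).2 hs
  have h6 : 0 ≤ ∑' n : ℕ, l * (1 - l) ^ (n + N) * G.g ω (n + N) s t :=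
    tsum_nonneg fun n => (measE_term G ω hb h0 h1 (n + N) s t).1
  have h7 : ∑' n : ℕ, l * (1 - l) ^ (n + N) * G.g ω (n + N) s t ≤ (1 - l) ^ N := by
    rw [← h4.tsum_eq]
    exact hs'.tsum_le_tsum (fun n => (measE_term G ω hb h0 h1 (n + N) s t).2) h4.summable
  unfold Game.disc
  rw [← h2]
  exact ⟨by linarith, by linarith⟩

end Pool.Agent.MP_ebfc19_pr.MN
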