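import Pool.Agent.Lib.MP_ebfc19_pr.MN.Exp
import Pool.Agent.Lib.MP_ebfc19_pr.MN.Abel

namespace Pool.Agent.MP_ebfc19_pr.MN

open MeasureTheory Filter Topology

/-- discounting a sequence with nonnegative partial sums -/
private theorem noval_sum (d : ℕ → ℝ) (hd : ∀ N, 0 ≤ ∑ n ∈ Finset.range N, d n) {l : ℝ}
    (h0 : 0 < l) (h1 : l ≤ 1) (N : ℕ) :
    (1 - l) ^ N * ∑ n ∈ Finset.range N, d n ≤ ∑ n ∈ Finset.range N, (1 - l) ^ n * d n := by
  induction N with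
  | zero => simp
  | succ N ih =>
    rw [Finset.sum_range_succ (fun n => (1 - l) ^ n * d n)]
    have h2 : 0 ≤ (1 - l) ^ N := pow_nonneg (by linarith) N
    have h3 : (1 - l) ^ (N + 1) * ∑ n ∈ Finset.range (N + 1), d n ≤
        (1 - l) ^ N * ∑ n ∈ Finset.range (N + 1), d n := by
      apply mul_le_mul_of_nonneg_right _ (hd _)
      rw [pow_succ]
      nlinarith
    refine h3.trans ?_
    rw [Finset.sum_range_succ, mul_add]
    linarith

/-- uniform abelian lemma -/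
private theorem noval_abel (u : ℕ → ℝ) (h0 : ∀ n, 0 ≤ u n) (h1 : ∀ n, u n ≤ 1) (y : ℝ) (T₀ : ℕ)
    (h : ∀ T : ℕ, T₀ ≤ T → (∑ n ∈ Finset.range T, u n) / T ≤ y) {l : ℝ} (hl0 : 0 < l)
    (hl1 : l ≤ 1) : ∑' n : ℕ, l * (1 - l) ^ n * u n ≤ y + T₀ * l := by
  have hy : 0 ≤ y := by
    refine le_trans ?_ (h T₀ le_rfl)
    exact div_nonneg (Finset.sum_nonneg fun i _ => h0 i) (Nat.cast_nonneg _)
  have hT0 : (0 : ℝ) ≤ T₀ := Nat.cast_nonneg _
  have hd : ∀ N, 0 ≤ ∑ n ∈ Finset.range N, ((y + if n = 0 then (T₀ : ℝ) else 0) - u n) := by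
    intro N
    rcases Nat.eq_zero_or_pos N with rfl | hN
    · simp
    rw [Finset.sum_sub_distrib, Finset.sum_add_distrib, Finset.sum_const, Finset.card_range,
      Finset.sum_ite_eq' (Finset.range N) 0 (fun _ => (T₀ : ℝ)), if_pos (Finset.mem_range.2 hN),
      nsmul_eq_mul]
    have hNr : (0 : ℝ) < N := by exact_mod_cast hN
    rcases le_total T₀ N with h2 | h2
    · have h3 := h N h2
      rw [div_le_iff₀ hNr] at h3
      nlinarith
    · have h3 : ∑ n ∈ Finset.range N, u n ≤ N := by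
        calc ∑ n ∈ Finset.range N, u n ≤ ∑ _n ∈ Finset.range N, (1 : ℝ) :=
              Finset.sum_le_sum fun i _ => h1 i
          _ = N := by simp
      have h4 : (N : ℝ) ≤ T₀ := by exact_mod_cast h2
      nlinarith
  apply Real.tsum_le_of_sum_range_le
  · intro n
    exact mul_nonneg (mul_nonneg hl0.le (pow_nonneg (by linarith) n)) (h0 n)
  intro N
  have h2 := noval_sum _ hd hl0 hl1 N
  have h3 : 0 ≤ (1 - l) ^ N * ∑ n ∈ Finset.range N, ((y + if n = 0 then (T₀ : ℝ) else 0) - u n) :=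
    mul_nonneg (pow_nonneg (by linarith) N) (hd N)
  have h4 := h3.trans h2
  have h5 : ∑ n ∈ Finset.range N, (1 - l) ^ n * ((y + if n = 0 then (T₀ : ℝ) else 0) - u n) =
      y * ∑ n ∈ Finset.range N, (1 - l) ^ n +
        ∑ n ∈ Finset.range N, (if n = 0 then (T₀ : ℝ) else 0) -
        ∑ n ∈ Finset.range N, (1 - l) ^ n * u n := by
    rw [Finset.mul_sum, ← Finset.sum_add_distrib, ← Finset.sum_sub_distrib]
    refine Finset.sum_congr rfl fun n _ => ?_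
    rcases Nat.eq_zero_or_pos n with rfl | hn
    · simp
    · rw [if_neg hn.ne']; ring
  have h6 : ∑ n ∈ Finset.range N, (if n = 0 then (T₀ : ℝ) else 0) ≤ T₀ := by
    rw [Finset.sum_ite_eq' (Finset.range N) 0 (fun _ => (T₀ : ℝ))]
    split_ifs
    · exact le_rfl
    · exact hT0
  have h7 : l * ∑ n ∈ Finset.range N, (1 - l) ^ n ≤ 1 := by
    have h8 := geom_sum_mul (1 - l) N
    have h9 : 0 ≤ (1 - l) ^ N := pow_nonneg (by linarith) N
    nlinarith
  have h8 : ∑ n ∈ Finset.range N, l * (1 - l) ^ n * u n =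
      l * ∑ n ∈ Finset.range N, (1 - l) ^ n * u n := by
    rw [Finset.mul_sum]
    exact Finset.sum_congr rfl fun n _ => by ring
  rw [h8]
  rw [h5] at h4
  have h9 : l * ∑ n ∈ Finset.range N, (1 - l) ^ n * u n ≤
      l * (y * ∑ n ∈ Finset.range N, (1 - l) ^ n + T₀) :=
    mul_le_mul_of_nonneg_left (by linarith) hl0.le
  have h10 : y * (l * ∑ n ∈ Finset.range N, (1 - l) ^ n) ≤ y * 1 :=
    mul_le_mul_of_nonneg_left h7 hy
  nlinarith

/-- the second player cannot guarantee less than `vs` -/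
private theorem noval_ge {c : ℕ → ℝ} (hc : Cost c) (ω : X) {y : ℝ}
    (τ : ProbabilityMeasure (S2 (ℕ × ℕ) Bool)) (T₀ : ℕ)
    (h : ∀ σ : ProbabilityMeasure (S1 (ℕ × ℕ) Bool), ∀ T, T₀ ≤ T →
      Ex σ τ ((mg c).avg ω T) ≤ y) : vs ω ≤ y := by
  have hb : ∀ (ω : (mg c).Ω) a b, 0 ≤ (mg c).pay ω a b ∧ (mg c).pay ω a b ≤ 1 :=
    fun ω _ b => gx_mem ω b
  have key : ∀ k : ℕ, vs ω - c k - (T₀ + 3) * (1 / ((k : ℝ) + 1)) ≤ y := by
    intro k
    have hk : (0 : ℝ) < (k : ℝ) + 1 := by positivity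
    have hl0 : (0 : ℝ) < 1 / ((k : ℝ) + 1) := by positivity
    have hl1 : 1 / ((k : ℝ) + 1) ≤ 1 := by
      rw [div_le_one hk]
      have : (0 : ℝ) ≤ k := Nat.cast_nonneg _
      linarith
    obtain ⟨s, hs⟩ := mg_lower hc hl0 hl1 ω
    have hceil : ⌈1 / (1 / ((k : ℝ) + 1))⌉₊ - 1 = k := by
      rw [one_div_one_div]
      have : ((k : ℝ) + 1) = ((k + 1 : ℕ) : ℝ) := by push_cast; rfl
      rw [this, Nat.ceil_natCast]
      simp
    rw [hceil] at hs
    have h1 : vs ω - c k - 3 * (1 / ((k : ℝ) + 1)) ≤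
        Ex (pure1 s) τ ((mg c).disc ω (1 / ((k : ℝ) + 1))) := by
      refine le_Ex_pure1 s τ _ (measurable_disc (mg c) ω _) (C := 1) ?_ hs
      intro s t
      have := disc_mem (mg c) ω hb hl0 hl1 s t
      rw [abs_le]
      constructor <;> linarith [this.1, this.2]
    rw [Ex_disc (mg c) ω hb (pure1 s) τ hl0 hl1] at h1
    have h2 : ∑' n : ℕ, (1 / ((k : ℝ) + 1)) * (1 - 1 / ((k : ℝ) + 1)) ^ n *
        Ex (pure1 s) τ ((mg c).g ω n) ≤ y + T₀ * (1 / ((k : ℝ) + 1)) := by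
      refine noval_abel _ (fun n => (Ex_g_mem (mg c) ω hb (pure1 s) τ n).1)
        (fun n => (Ex_g_mem (mg c) ω hb (pure1 s) τ n).2) y T₀ ?_ hl0 hl1
      intro T hT
      have h3 := h (pure1 s) T hT
      rwa [Ex_avg (mg c) ω hb] at h3
    linarith
  have hlim : Tendsto (fun k : ℕ => vs ω - c k - (T₀ + 3) * (1 / ((k : ℝ) + 1))) atTop
      (𝓝 (vs ω - 0 - (T₀ + 3) * 0)) := by
    exact (tendsto_const_nhds.sub hc.lim).sub
      (tendsto_one_div_add_atTop_nhds_zero_nat.const_mul _)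
  have h4 := le_of_tendsto' hlim key
  simpa using h4

/-- no value -/
theorem no_value {c : ℕ → ℝ} (hc : Cost c) (ω : X) (hv : ω.1.1 = 1 / 2)
    (hn : c ω.1.2 ≤ 1 / (16 * 4096 ^ 2)) (x : ℝ) : ¬ (mg c).HasValue ω x := by
  intro hval
  have he : (0 : ℝ) < 1 / (16 * 4096 ^ 2) / 4 := by positivity
  obtain ⟨⟨σ, T₀, hσ⟩, ⟨τ, T₁, hτ⟩⟩ := hval _ he
  obtain ⟨t, T, hT, hlow⟩ := exists_low hc ω hv hn σ T₀
  have h1 := (hσ (pure2 t)).1 T hT
  have h2 := noval_ge hc ω τ T₁ (fun σ' T' hT' => (hτ σ').1 T' hT')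
  linarith

end Pool.Agent.MP_ebfc19_pr.MN
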