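import Pool.Agent.Lib.MP_ebfc19_pr.MN.Div

namespace Pool.Agent.MP_ebfc19_pr.MN

open MeasureTheory Filter Topology

theorem pathR_pp_nonneg (x : ℝ) : 0 ≤ pp x := le_max_right _ _

theorem pathR_pp_ge (x : ℝ) : x ≤ pp x := le_max_left _ _

theorem pathR_pp_sub (x : ℝ) : pp x - pp (-x) = x := by
  unfold pp
  rcases le_total x 0 with h | h
  · rw [max_eq_right h, max_eq_left (by linarith)]; ring
  · rw [max_eq_left h, max_eq_right (by linarith)]; ring

theorem pathR_pp_mono {x y : ℝ} (h : x ≤ y) : pp x ≤ pp y := max_le_max h le_rfl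

theorem pathR_pp_of_nonneg {x : ℝ} (h : 0 ≤ x) : pp x = x := max_eq_left h

theorem pathR_pp_of_nonpos {x : ℝ} (h : x ≤ 0) : pp x = 0 := max_eq_right h

/-- `pp` is 1-Lipschitz -/
theorem pathR_pp_lip {x y : ℝ} (h : x ≤ y) : pp y - pp x ≤ y - x := by
  unfold pp
  rcases le_total x 0 with h1 | h1 <;> rcases le_total y 0 with h2 | h2
  · rw [max_eq_right h1, max_eq_right h2]; linarith
  · rw [max_eq_right h1, max_eq_left h2]; linarith
  · rw [max_eq_left h1, max_eq_right h2]; linarith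
  · rw [max_eq_left h1, max_eq_left h2]

/-- one step of the potential, real numbers only -/
theorem pathR_real (v v' μ θ θ' S D cost H : ℝ) (hv' : v' ≤ v - D * μ - cost) (hθ : θ' ≤ θ)
    (hμ : 0 ≤ μ)
    (h : (0 ≤ D ∧ (θ ≤ μ ∨ S + D ≤ 1)) ∨ (D ≤ 0 ∧ μ ≤ θ ∧ pp (1 - (S + D)) ≤ H)) :
    v' + pp (S + D - 1) * θ' + pp (H - pp (1 - (S + D))) * μ + cost ≤
      v + pp (S - 1) * θ + pp (H - pp (1 - S)) * μ := by
  have e1 : pp (S + D - 1) - pp (1 - (S + D)) = S + D - 1 := by
    have := pathR_pp_sub (S + D - 1)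
    rwa [show -(S + D - 1) = 1 - (S + D) by ring] at this
  have e2 : pp (S - 1) - pp (1 - S) = S - 1 := by
    have := pathR_pp_sub (S - 1)
    rwa [show -(S - 1) = 1 - S by ring] at this
  have n1 := pathR_pp_nonneg (S + D - 1)
  have n2 := pathR_pp_nonneg (S - 1)
  have k1 : pp (S + D - 1) * θ' ≤ pp (S + D - 1) * θ := mul_le_mul_of_nonneg_left hθ n1
  rcases h with ⟨hD, h2⟩ | ⟨hD, h2, h3⟩
  · have m1 : pp (1 - (S + D)) ≤ pp (1 - S) := pathR_pp_mono (by linarith)
    have m2 : pp (S - 1) ≤ pp (S + D - 1) := pathR_pp_mono (by linarith)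
    have m3 : pp (H - pp (1 - (S + D))) - pp (H - pp (1 - S)) ≤ pp (1 - S) - pp (1 - (S + D)) := by
      have := pathR_pp_lip (x := H - pp (1 - S)) (y := H - pp (1 - (S + D))) (by linarith)
      linarith
    have m4 := mul_le_mul_of_nonneg_right m3 hμ
    have m5 : (pp (S + D - 1) - pp (S - 1)) * θ ≤ (pp (S + D - 1) - pp (S - 1)) * μ := by
      rcases h2 with h2 | h2
      · exact mul_le_mul_of_nonneg_left h2 (by linarith)
      · have : pp (S + D - 1) = 0 := pathR_pp_of_nonpos (by linarith)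
        have h0 : pp (S - 1) = 0 := by linarith
        rw [this, h0]; simp
    have hDe : D = (pp (S + D - 1) - pp (S - 1)) + (pp (1 - S) - pp (1 - (S + D))) := by linarith
    have hDμ : D * μ = (pp (S + D - 1) - pp (S - 1)) * μ +
        (pp (1 - S) - pp (1 - (S + D))) * μ := by
      rw [← add_mul, ← hDe]
    nlinarith
  · have m1 : pp (1 - S) ≤ pp (1 - (S + D)) := pathR_pp_mono (by linarith)
    have m2 : pp (S + D - 1) ≤ pp (S - 1) := pathR_pp_mono (by linarith)
    have m3 : pp (H - pp (1 - (S + D))) = H - pp (1 - (S + D)) :=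
      pathR_pp_of_nonneg (by linarith)
    have m4 : pp (H - pp (1 - S)) = H - pp (1 - S) := pathR_pp_of_nonneg (by linarith)
    rw [m3, m4]
    have m5 : (pp (S - 1) - pp (S + D - 1)) * μ ≤ (pp (S - 1) - pp (S + D - 1)) * θ :=
      mul_le_mul_of_nonneg_left h2 (by linarith)
    have hDe : D = (pp (S + D - 1) - pp (S - 1)) + (pp (1 - S) - pp (1 - (S + D))) := by linarith
    have hDμ : D * μ = (pp (S + D - 1) - pp (S - 1)) * μ +
        (pp (1 - S) - pp (1 - (S + D))) * μ := by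
      rw [← add_mul, ← hDe]
    nlinarith

variable {c : ℕ → ℝ} {v : ℕ → ℝ} {n : ℕ → ℕ} {b : ℕ → ℝ} {K : ℕ}

theorem pathR_clip_of_nonpos {x : ℝ} (h : x ≤ 0) : clip x = 0 := by
  unfold clip
  rw [min_eq_right (by linarith), max_eq_left h]

theorem pathR_clip_le {x : ℝ} (h : 0 < clip x) : clip x ≤ x := by
  by_contra hc
  push Not at hc
  unfold clip at h hc
  rcases le_total x 0 with h1 | h1
  · rw [min_eq_right (by linarith), max_eq_left h1] at h
    exact lt_irrefl _ h
  · rw [max_eq_right (le_min zero_le_one h1)] at hc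
    exact absurd hc (not_lt.mpr (min_le_right _ _))

theorem pathR_Sx_succ (v b : ℕ → ℝ) (t : ℕ) : Sx v b (t + 1) = Sx v b t + (b t - v t) := by
  unfold Sx
  rw [Finset.sum_range_succ]

/-- `0` is absorbing for `v` -/
theorem IsPath.zero (hc : Cost c) (h : IsPath c v n b K) {s t : ℕ} (hst : s ≤ t) (ht : t ≤ K)
    (h0 : v s = 0) : v t = 0 := by
  induction t, hst using Nat.le_induction with
  | base => exact h0
  | succ t hst ih =>
    have h1 := ih (by omega)
    have hb := h.rule0 t (by omega) h1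
    rw [h.step t (by omega) (by rw [h1]; norm_num), h1, hb]
    unfold nv
    apply pathR_clip_of_nonpos
    have : (0 : ℝ) ≤ (if n (t + 1) = n t then 0 else c (n (t + 1))) := by
      split_ifs
      · exact le_rfl
      · exact (hc.pos _).le
    simp only [sub_self, zero_div]
    linarith

/-- one step of the potential -/
theorem IsPath.R_step (hc : Cost c) (h : IsPath c v n b K) {t : ℕ} (ht : t < K)
    (h1 : v t < 1) (h0 : 0 < v (t + 1)) :
    Rx c v n b (t + 1) + (if n (t + 1) = n t then 0 else c (n (t + 1)) / 2) ≤ Rx c v n b t := by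
  have hvt : v t ≠ 0 := by
    intro h2
    have := h.zero hc (Nat.le_succ t) (by omega) h2
    rw [this] at h0
    exact lt_irrefl _ h0
  have hvpos : 0 < v t := lt_of_le_of_ne (h.v0 t) (Ne.symm hvt)
  have hst := h.step t ht (ne_of_lt h1)
  have hN : (0 : ℝ) < (n t : ℝ) + 1 := by positivity
  have hv' : v (t + 1) ≤ v t - (b t - v t) * (1 / ((n t : ℝ) + 1)) -
      (if n (t + 1) = n t then 0 else c (n (t + 1))) := by
    have h2 : 0 < nv c (v t) (n t) (b t) (n (t + 1)) := hst ▸ h0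
    have h3 := pathR_clip_le h2
    rw [hst]
    unfold nv at h3 ⊢
    rw [mul_one_div]
    exact h3
  have hθ : 1 / ((Mx c ((t + 1 : ℕ) : ℝ) : ℝ) + 1) ≤ 1 / ((Mx c (t : ℝ) : ℝ) + 1) := by
    have hm : Mx c (t : ℝ) ≤ Mx c ((t + 1 : ℕ) : ℝ) := Mx_mono hc (by push_cast; linarith)
    have hm' : ((Mx c (t : ℝ) : ℕ) : ℝ) ≤ (Mx c ((t + 1 : ℕ) : ℝ) : ℝ) := by exact_mod_cast hm
    apply one_div_le_one_div_of_le
    · positivity
    · linarith
  have hμ : (0 : ℝ) ≤ 1 / ((n t : ℝ) + 1) := by positivity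
  have key : (0 ≤ b t - v t ∧ (1 / ((Mx c (t : ℝ) : ℝ) + 1) ≤ 1 / ((n t : ℝ) + 1) ∨
      Sx v b t + (b t - v t) ≤ 1)) ∨ (b t - v t ≤ 0 ∧ 1 / ((n t : ℝ) + 1) ≤
      1 / ((Mx c (t : ℝ) : ℝ) + 1) ∧ pp (1 - (Sx v b t + (b t - v t))) ≤ 2 + tau c (n t) / 4) := by
    by_cases hr : Sx v b t ≤ -(t : ℝ) / 4 ∨ tau c (n t) ≤ t
    · left
      have hb := h.rule1 t ht hvt hr
      refine ⟨by rw [hb]; linarith, ?_⟩
      rcases hr with hr | hr
      · right
        rw [hb]
        have : (0 : ℝ) ≤ t := Nat.cast_nonneg t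
        linarith
      · left
        have hm := lt_Mx_of_tau_le hc hr
        have hm' : (n t : ℝ) ≤ (Mx c (t : ℝ) : ℝ) := by exact_mod_cast hm.le
        apply one_div_le_one_div_of_le hN
        linarith
    · right
      have hb := h.rule2 t ht hr
      push Not at hr
      refine ⟨by rw [hb]; linarith, ?_, ?_⟩
      · have hm := Mx_le_of_lt_tau hc hr.2
        have hm' : (Mx c (t : ℝ) : ℝ) ≤ (n t : ℝ) := by exact_mod_cast hm
        apply one_div_le_one_div_of_le
        · positivity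
        · linarith
      · rw [hb]
        have h3 : 0 ≤ tau c (n t) := by
          unfold tau
          exact mul_nonneg hN.le (hc.pos _).le
        unfold pp
        apply max_le
        · linarith [hr.1, hr.2]
        · linarith
  have hreal := pathR_real (v t) (v (t + 1)) (1 / ((n t : ℝ) + 1)) (1 / ((Mx c (t : ℝ) : ℝ) + 1))
    (1 / ((Mx c ((t + 1 : ℕ) : ℝ) : ℝ) + 1)) (Sx v b t) (b t - v t)
    (if n (t + 1) = n t then 0 else c (n (t + 1))) (2 + tau c (n t) / 4) hv' hθ hμ key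
  unfold Rx
  rw [pathR_Sx_succ]
  simp only [div_eq_mul_one_div (pp _)]
  by_cases hch : n (t + 1) = n t
  · rw [if_pos hch] at hreal ⊢
    rw [hch]
    linarith
  · rw [if_neg hch] at hreal ⊢
    have hM : (0 : ℝ) < (n (t + 1) : ℝ) + 1 := by positivity
    have h5 : pp (2 + tau c (n (t + 1)) / 4 - pp (1 - (Sx v b t + (b t - v t)))) *
        (1 / ((n (t + 1) : ℝ) + 1)) ≤ c (n (t + 1)) / 2 := by
      have h6 : pp (2 + tau c (n (t + 1)) / 4 - pp (1 - (Sx v b t + (b t - v t)))) ≤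
          2 + tau c (n (t + 1)) / 4 := by
        have h7 : 0 ≤ tau c (n (t + 1)) := by
          unfold tau
          exact mul_nonneg hM.le (hc.pos _).le
        have h8 := pathR_pp_nonneg (1 - (Sx v b t + (b t - v t)))
        apply max_le
        · linarith
        · linarith
      have h9 := mul_le_mul_of_nonneg_right h6 (show (0 : ℝ) ≤ 1 / ((n (t + 1) : ℝ) + 1) by positivity)
      have h10 : (2 + tau c (n (t + 1)) / 4) * (1 / ((n (t + 1) : ℝ) + 1)) =
          (8 / ((n (t + 1) : ℝ) + 1)) / 4 + c (n (t + 1)) / 4 := by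
        unfold tau
        field_simp
        ring
      have h11 := hc.big (n (t + 1))
      linarith
    have h12 : 0 ≤ pp (2 + tau c (n t) / 4 - pp (1 - (Sx v b t + (b t - v t)))) *
        (1 / ((n t : ℝ) + 1)) := mul_nonneg (pathR_pp_nonneg _) hμ
    linarith

theorem Rx_nonneg (h : IsPath c v n b K) (t : ℕ) : 0 ≤ Rx c v n b t := by
  unfold Rx
  have h1 := h.v0 t
  have h2 := pathR_pp_nonneg (Sx v b t - 1)
  have h3 := pathR_pp_nonneg (2 + tau c (n t) / 4 - pp (1 - Sx v b t))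
  positivity

theorem pathR_v_le_Rx (c : ℕ → ℝ) (v : ℕ → ℝ) (n : ℕ → ℕ) (b : ℕ → ℝ) (t : ℕ) :
    v t ≤ Rx c v n b t := by
  unfold Rx
  have h2 := pathR_pp_nonneg (Sx v b t - 1)
  have h3 := pathR_pp_nonneg (2 + tau c (n t) / 4 - pp (1 - Sx v b t))
  have h4 : 0 ≤ pp (Sx v b t - 1) / ((Mx c t : ℝ) + 1) := by positivity
  have h5 : 0 ≤ pp (2 + tau c (n t) / 4 - pp (1 - Sx v b t)) / ((n t : ℝ) + 1) := by positivity
  linarith

theorem pathR_zero_le (hc : Cost c) (h : IsPath c v n b K) :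
    Rx c v n b 0 ≤ 1 / 2 + c (n 0) / 2 := by
  unfold Rx
  have h1 : Sx v b 0 = 0 := by simp [Sx]
  have h2 : pp ((0 : ℝ) - 1) = 0 := pathR_pp_of_nonpos (by norm_num)
  have h3 : pp ((1 : ℝ) - 0) = 1 := by rw [pathR_pp_of_nonneg (by norm_num)]; norm_num
  rw [h1, h2, h3, h.start]
  have hM : (0 : ℝ) < (n 0 : ℝ) + 1 := by positivity
  have h7 : 0 ≤ tau c (n 0) := by
    unfold tau
    exact mul_nonneg hM.le (hc.pos _).le
  rw [pathR_pp_of_nonneg (by linarith : (0 : ℝ) ≤ 2 + tau c (n 0) / 4 - 1)]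
  have h10 : (2 + tau c (n 0) / 4 - 1) / ((n 0 : ℝ) + 1) =
      (8 / ((n 0 : ℝ) + 1)) / 8 + c (n 0) / 4 := by
    unfold tau
    field_simp
    ring
  have h11 := hc.big (n 0)
  have h12 := hc.pos (n 0)
  rw [h10]
  simp only [zero_div]
  linarith

theorem pathR_aux (hc : Cost c) (h : IsPath c v n b K) :
    ∀ t, t ≤ K → v t < 1 ∧ (0 < v t → Rx c v n b t ≤ Rx c v n b 0) := by
  have h0 := pathR_zero_le hc h
  have hs := h.small
  intro t
  induction t with
  | zero =>
    intro _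
    refine ⟨by rw [h.start]; norm_num, fun _ => le_rfl⟩
  | succ t ih =>
    intro ht
    obtain ⟨h1, h2⟩ := ih (by omega)
    rcases (h.v0 (t + 1)).eq_or_lt with h3 | h3
    · refine ⟨by rw [← h3]; norm_num, fun h4 => ?_⟩
      rw [← h3] at h4
      exact absurd h4 (lt_irrefl _)
    · have h4 := h.R_step hc (by omega) h1 h3
      have h5 : 0 < v t := by
        refine lt_of_le_of_ne (h.v0 t) (fun h6 => ?_)
        have := h.zero hc (Nat.le_succ t) (by omega) h6.symm
        rw [this] at h3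
        exact lt_irrefl _ h3
      have h6 := h2 h5
      have h7 : (0 : ℝ) ≤ (if n (t + 1) = n t then 0 else c (n (t + 1)) / 2) := by
        split_ifs
        · exact le_rfl
        · have := hc.pos (n (t + 1)); positivity
      have h8 := pathR_v_le_Rx c v n b (t + 1)
      refine ⟨by linarith, fun _ => by linarith⟩

theorem IsPath.v_lt_one (hc : Cost c) (h : IsPath c v n b K) {t : ℕ} (ht : t ≤ K) : v t < 1 :=
  (pathR_aux hc h t ht).1

theorem IsPath.v_le (hc : Cost c) (h : IsPath c v n b K) {t : ℕ} (ht : t ≤ K) :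
    v t ≤ 1 / 2 + c (n 0) / 2 := by
  rcases (h.v0 t).eq_or_lt with h3 | h3
  · rw [← h3]
    have := hc.pos (n 0)
    linarith
  · have h1 := (pathR_aux hc h t ht).2 h3
    have h2 := pathR_v_le_Rx c v n b t
    have h4 := pathR_zero_le hc h
    linarith

theorem IsPath.pos_of_pos (hc : Cost c) (h : IsPath c v n b K) {s t : ℕ} (hst : s ≤ t)
    (ht : t ≤ K) (h0 : 0 < v t) : 0 < v s := by
  refine lt_of_le_of_ne (h.v0 s) (fun h6 => ?_)
  have := h.zero hc hst ht h6.symm
  rw [this] at h0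
  exact lt_irrefl _ h0

theorem IsPath.R_anti (hc : Cost c) (h : IsPath c v n b K) {s t : ℕ} (hst : s ≤ t) (ht : t ≤ K)
    (h0 : 0 < v t) : Rx c v n b t ≤ Rx c v n b s := by
  induction t, hst using Nat.le_induction with
  | base => exact le_rfl
  | succ t hst ih =>
    have h1 := h.pos_of_pos hc (Nat.le_succ t) ht h0
    have h2 := ih (by omega) h1
    have h4 := h.R_step hc (by omega) (h.v_lt_one hc (by omega)) h0
    have h7 : (0 : ℝ) ≤ (if n (t + 1) = n t then 0 else c (n (t + 1)) / 2) := by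
      split_ifs
      · exact le_rfl
      · have := hc.pos (n (t + 1)); positivity
    linarith

theorem IsPath.R_zero_le (hc : Cost c) (h : IsPath c v n b K) :
    Rx c v n b 0 ≤ 1 := by
  have h4 := pathR_zero_le hc h
  have := h.small
  linarith

end Pool.Agent.MP_ebfc19_pr.MN
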