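import Pool.Agent.Lib.MP_ebfc19_pr.MN.Turn

namespace Pool.Agent.MP_ebfc19_pr.MN

open MeasureTheory Filter Topology

theorem RateL_bv (b : Bool) : 0 ≤ bv b ∧ bv b ≤ 1 := by
  unfold bv
  split_ifs
  · exact ⟨zero_le_one, le_refl _⟩
  · exact ⟨le_refl _, zero_le_one⟩

theorem gx_mem (ω : X) (b : Bool) : 0 ≤ gx ω b ∧ gx ω b ≤ 1 := by
  unfold gx
  split_ifs
  · exact ⟨zero_le_one, le_refl _⟩
  · exact RateL_bv b

/-- passage to the limit in the discounted sum -/
theorem RateL_lim {l a C : ℝ} (h0 : 0 < l) (h1 : l ≤ 1) (g W : ℕ → ℝ)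
    (hg : ∀ n, 0 ≤ g n ∧ g n ≤ 1) (hW : ∀ n, |W n| ≤ C)
    (h : ∀ N, a ≤ ∑ r ∈ Finset.range (N + 1), l * (1 - l) ^ r * g r + (1 - l) ^ (N + 1) * W (N + 1)) :
    a ≤ ∑' n : ℕ, l * (1 - l) ^ n * g n := by
  have hl : 0 ≤ 1 - l := by linarith
  have hl1 : 1 - l < 1 := by linarith
  have hs : Summable fun n : ℕ => l * (1 - l) ^ n * g n := by
    refine Summable.of_nonneg_of_le (fun n => ?_) (fun n => ?_)
      (summable_geometric_of_lt_one hl hl1)
    · exact mul_nonneg (mul_nonneg h0.le (pow_nonneg hl n)) (hg n).1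
    · have h2 : l * (1 - l) ^ n * g n ≤ 1 * (1 - l) ^ n * 1 := by
        refine mul_le_mul ?_ (hg n).2 (hg n).1 ?_
        · exact mul_le_mul_of_nonneg_right h1 (pow_nonneg hl n)
        · rw [one_mul]; exact pow_nonneg hl n
      rwa [one_mul, mul_one] at h2
  have ht : Tendsto (fun N : ℕ => ∑ r ∈ Finset.range (N + 1), l * (1 - l) ^ r * g r +
      (1 - l) ^ (N + 1) * W (N + 1)) atTop (𝓝 ((∑' n : ℕ, l * (1 - l) ^ n * g n) + 0)) := by
    refine Tendsto.add ?_ ?_
    · exact (hs.hasSum.tendsto_sum_nat).comp (tendsto_add_atTop_nat 1)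
    · have hp : Tendsto (fun N : ℕ => (1 - l) ^ (N + 1) * C) atTop (𝓝 (0 * C)) :=
        ((tendsto_pow_atTop_nhds_zero_of_lt_one hl hl1).comp (tendsto_add_atTop_nat 1)).mul_const C
      rw [zero_mul] at hp
      refine squeeze_zero_norm (fun N => ?_) hp
      rw [Real.norm_eq_abs, abs_mul, abs_of_nonneg (pow_nonneg hl _)]
      exact mul_le_mul_of_nonneg_left (hW _) (pow_nonneg hl _)
  rw [add_zero] at ht
  exact ge_of_tendsto' ht h

open Classical in
/-- the potential -/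
noncomputable def RateL_W (l : ℝ) (x : X) : ℝ := if x.1.1 = 1 then 1 else x.1.1 - 2 * l

theorem RateL_W_ge {l : ℝ} (h0 : 0 < l) (x : X) : x.1.1 - 2 * l ≤ RateL_W l x := by
  unfold RateL_W
  split_ifs with h
  · rw [h]; linarith
  · exact le_refl _

theorem RateL_W_abs {l : ℝ} (h0 : 0 < l) (h1 : l ≤ 1) (x : X) : |RateL_W l x| ≤ 3 := by
  have h2 := x.2.1
  have h3 := x.2.2
  unfold RateL_W
  split_ifs with h
  · rw [abs_one]; norm_num
  · rw [abs_le]
    constructor <;> linarith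

theorem RateL_nx2 (c : ℕ → ℝ) (x : X) (b : Bool) (m : ℕ) : (nx c x b m).1.2 = m := by
  unfold nx
  split_ifs <;> rfl

theorem RateL_nx1 (c : ℕ → ℝ) (x : X) (b : Bool) (m : ℕ) (h : x.1.1 = 1) :
    (nx c x b m).1.1 = 1 := by
  unfold nx
  rw [if_pos h]

theorem RateL_nxv (c : ℕ → ℝ) (x : X) (b : Bool) (m : ℕ) (h : x.1.1 ≠ 1) :
    (nx c x b m).1.1 = nv c x.1.1 x.1.2 (bv b) m := by
  unfold nx
  rw [if_neg h]

/-- the value of `l` for the scale `m` -/
theorem RateL_mu {l : ℝ} (h0 : 0 < l) (h1 : l ≤ 1) {m : ℕ} (hm : m = ⌈1 / l⌉₊ - 1) :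
    1 / ((m : ℝ) + 1) ≤ l ∧ l - (1 - l) * (1 / ((m : ℝ) + 1)) ≤ 2 * l ^ 2 := by
  have h2 : 1 ≤ 1 / l := by rw [le_div_iff₀ h0, one_mul]; exact h1
  have h3 : 1 ≤ ⌈1 / l⌉₊ := by
    rw [Nat.one_le_ceil_iff]
    linarith
  have h4 : (m : ℝ) + 1 = (⌈1 / l⌉₊ : ℝ) := by
    have : m + 1 = ⌈1 / l⌉₊ := by omega
    exact_mod_cast this
  have h5 : 1 / l ≤ (m : ℝ) + 1 := by rw [h4]; exact Nat.le_ceil _
  have h6 : (m : ℝ) + 1 < 1 / l + 1 := by rw [h4]; exact Nat.ceil_lt_add_one (by positivity)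
  have hm0 : (0 : ℝ) < (m : ℝ) + 1 := by positivity
  refine ⟨?_, ?_⟩
  · rw [div_le_iff₀ hm0]
    rw [div_le_iff₀ h0] at h5
    linarith
  · have h7 : ((m : ℝ) + 1) * l < 1 + l := by
      have h8 := mul_lt_mul_of_pos_right h6 h0
      have h8' : (1 / l + 1) * l = 1 + l := by
        rw [add_mul, one_div_mul_cancel h0.ne', one_mul]
      rwa [h8'] at h8
    have h9 : l / (1 + l) ≤ 1 / ((m : ℝ) + 1) := by
      rw [div_le_div_iff₀ (by linarith) hm0]
      linarith
    have h10 : (1 - l) * (l / (1 + l)) ≤ (1 - l) * (1 / ((m : ℝ) + 1)) :=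
      mul_le_mul_of_nonneg_left h9 (by linarith)
    have h11 : l - (1 - l) * (l / (1 + l)) = 2 * l ^ 2 / (1 + l) := by
      have : (1 + l) ≠ 0 := by linarith
      field_simp
      ring
    have h12 : 2 * l ^ 2 / (1 + l) ≤ 2 * l ^ 2 := by
      apply div_le_self (by positivity)
      linarith
    linarith

/-- one stage at the scale `m` -/
theorem RateL_step {c : ℕ → ℝ} {l : ℝ} (h0 : 0 < l) (h1 : l ≤ 1) {m : ℕ}
    (hm : m = ⌈1 / l⌉₊ - 1) (x : X) (hx : x.1.2 = m) (b : Bool) :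
    RateL_W l x ≤ l * gx x b + (1 - l) * RateL_W l (nx c x b m) := by
  by_cases h : x.1.1 = 1
  · have h2 : RateL_W l (nx c x b m) = 1 := by
      unfold RateL_W
      rw [if_pos (RateL_nx1 c x b m h)]
    rw [h2]
    unfold RateL_W gx
    rw [if_pos h, if_pos h]
    linarith
  · obtain ⟨hmu1, hmu2⟩ := RateL_mu h0 h1 hm
    have hv0 := x.2.1
    have hv1 := x.2.2
    have hb := RateL_bv b
    have hg : gx x b = bv b := by
      unfold gx
      rw [if_neg h]
    have hWx : RateL_W l x = x.1.1 - 2 * l := by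
      unfold RateL_W
      rw [if_neg h]
    have hnv := RateL_nxv c x b m h
    rw [hg, hWx]
    unfold nv at hnv
    rw [if_pos hx.symm, sub_zero, hx] at hnv
    set μ : ℝ := 1 / ((m : ℝ) + 1) with hμ
    have hdiv : (bv b - x.1.1) / ((m : ℝ) + 1) = μ * (bv b - x.1.1) := by
      rw [hμ]; ring
    rw [hdiv] at hnv
    have hl : 0 ≤ 1 - l := by linarith
    by_cases hy : x.1.1 - μ * (bv b - x.1.1) ≤ 1
    · have h2 : x.1.1 - μ * (bv b - x.1.1) ≤ (nx c x b m).1.1 := by
        rw [hnv]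
        unfold clip
        rw [min_eq_right hy]
        exact le_max_right _ _
      have h3 := RateL_W_ge h0 (nx c x b m)
      have h4 : (1 - l) * (x.1.1 - μ * (bv b - x.1.1) - 2 * l) ≤
          (1 - l) * RateL_W l (nx c x b m) :=
        mul_le_mul_of_nonneg_left (by linarith) hl
      have hd0 : 0 ≤ l - (1 - l) * μ := by
        have : (1 - l) * μ ≤ 1 * μ := mul_le_mul_of_nonneg_right (by linarith) (by positivity)
        linarith
      have h5 : -(l - (1 - l) * μ) ≤ (bv b - x.1.1) * (l - (1 - l) * μ) := by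
        have h6 : -1 ≤ bv b - x.1.1 := by linarith [hb.1]
        have h7 := mul_le_mul_of_nonneg_right h6 hd0
        linarith
      nlinarith
    · push Not at hy
      have h2 : (nx c x b m).1.1 = 1 := by
        rw [hnv]
        unfold clip
        rw [min_eq_left hy.le, max_eq_right zero_le_one]
      have h3 : RateL_W l (nx c x b m) = 1 := by
        unfold RateL_W
        rw [if_pos h2]
      rw [h3]
      have h4 : 0 ≤ l * bv b := mul_nonneg h0.le hb.1
      linarith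

/-- the first stage -/
theorem RateL_first {c : ℕ → ℝ} (hc : Cost c) {l : ℝ} (h0 : 0 < l) (h1 : l ≤ 1) (m : ℕ) (x : X)
    (b : Bool) : vs x - c m - 3 * l ≤ l * gx x b + (1 - l) * RateL_W l (nx c x b m) := by
  have hcm := (hc.pos m).le
  by_cases h : x.1.1 = 1
  · have h2 : RateL_W l (nx c x b m) = 1 := by
      unfold RateL_W
      rw [if_pos (RateL_nx1 c x b m h)]
    rw [h2]
    unfold vs gx
    rw [if_pos h, h]
    simp
    linarith
  · have hv0 := x.2.1
    have hv1 := x.2.2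
    have hb := RateL_bv b
    have hg : gx x b = bv b := by
      unfold gx
      rw [if_neg h]
    have hnv := RateL_nxv c x b m h
    have hn : (0 : ℝ) < (x.1.2 : ℝ) + 1 := by positivity
    have hcost : (if m = x.1.2 then 0 else c m) ≤ c m := by
      split_ifs
      · exact hcm
      · exact le_refl _
    have h2 : (bv b - x.1.1) / ((x.1.2 : ℝ) + 1) ≤ (1 - x.1.1) / ((x.1.2 : ℝ) + 1) :=
      div_le_div_of_nonneg_right (by linarith [hb.2]) hn.le
    have h3 : 0 ≤ (1 - x.1.1) / ((x.1.2 : ℝ) + 1) := div_nonneg (by linarith) hn.le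
    have h4 : vs x - c m ≤ (nx c x b m).1.1 := by
      rw [hnv]
      unfold vs nv clip
      rcases le_total (x.1.1 - (1 - x.1.1) / ((x.1.2 : ℝ) + 1)) 0 with h5 | h5
      · rw [max_eq_left h5]
        exact le_trans (by linarith) (le_max_left _ _)
      · rw [max_eq_right h5]
        refine le_trans ?_ (le_max_right _ _)
        refine le_min ?_ ?_
        · linarith
        · linarith
    have h5 := RateL_W_ge h0 (nx c x b m)
    have h6 := (nx c x b m).2.2
    have h7 : (1 - l) * ((nx c x b m).1.1 - 2 * l) ≤ (1 - l) * RateL_W l (nx c x b m) :=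
      mul_le_mul_of_nonneg_left h5 (by linarith)
    have h8 : 0 ≤ l * gx x b := mul_nonneg h0.le (gx_mem x b).1
    have h9 : l * (nx c x b m).1.1 ≤ l * 1 := mul_le_mul_of_nonneg_left h6 h0.le
    nlinarith [mul_pos h0 h0]

/-- the guarantee of player 1 in the `l`-discounted game: change to the scale `⌈1/l⌉ - 1` in the
first stage and stay there -/
theorem mg_lower {c : ℕ → ℝ} (hc : Cost c) {l : ℝ} (h0 : 0 < l) (h1 : l ≤ 1) (ω : X) :
    ∃ s : S1 (ℕ × ℕ) Bool, ∀ t, vs ω - c (⌈1 / l⌉₊ - 1) - 3 * l ≤ (mg c).disc ω l s t := by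
  obtain ⟨m, hm⟩ : ∃ m : ℕ, m = ⌈1 / l⌉₊ - 1 := ⟨_, rfl⟩
  rw [← hm]
  refine ⟨fun _ => (m, m), fun t => ?_⟩
  set s : S1 (ℕ × ℕ) Bool := fun _ => (m, m) with hs
  let x : ℕ → X := fun n => (mg c).st ω (hist s t n)
  let b : ℕ → Bool := fun n => t (hist s t n)
  have hx0 : x 0 = ω := rfl
  have hxs : ∀ n, x (n + 1) = nx c (x n) (b n) m := by
    intro n
    have h2 : x (n + 1) = nx c (x n) (b n) (if b n then (m, m).2 else (m, m).1) := rfl
    rw [h2]
    simp
  have hgn : ∀ n, (mg c).g ω n s t = gx (x n) (b n) := fun n => rfl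
  unfold Game.disc
  refine RateL_lim h0 h1 (fun n => (mg c).g ω n s t) (fun n => RateL_W l (x n)) (fun n => ?_)
    (fun n => RateL_W_abs h0 h1 _) (fun N => ?_)
  · rw [hgn]
    exact gx_mem _ _
  · induction N with
    | zero =>
      have h2 := RateL_first hc h0 h1 m (x 0) (b 0)
      rw [← hxs 0] at h2
      simp only [zero_add, Finset.sum_range_one, pow_zero, mul_one, pow_one]
      rw [hgn]
      exact h2
    | succ N ih =>
      have h2 := RateL_step (c := c) h0 h1 hm (x (N + 1))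
        (by rw [hxs N]; exact RateL_nx2 c _ _ m) (b (N + 1))
      rw [← hxs (N + 1)] at h2
      have h3 := mul_le_mul_of_nonneg_left h2 (pow_nonneg (by linarith : (0 : ℝ) ≤ 1 - l) (N + 1))
      rw [Finset.sum_range_succ]
      simp only [hgn] at ih ⊢
      have h4 : (1 - l) ^ (N + 1) * (l * gx (x (N + 1)) (b (N + 1)) +
          (1 - l) * RateL_W l (x (N + 1 + 1))) =
          l * (1 - l) ^ (N + 1) * gx (x (N + 1)) (b (N + 1)) +
          (1 - l) ^ (N + 1 + 1) * RateL_W l (x (N + 1 + 1)) := by ring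
      rw [h4] at h3
      linarith

end Pool.Agent.MP_ebfc19_pr.MN
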