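import Pool.Agent.Lib.MP_ebfc19_pr.MN.MeasE
import Pool.Agent.Lib.MP_ebfc19_pr.MN.Fix

namespace Pool.Agent.MP_ebfc19_pr.MN

open MeasureTheory Filter Topology

private theorem tn_lower {l ε : ℝ} (h1 : l ≤ 1) (a w : ℕ → ℝ)
    (h : ∀ n, w n - l * ε ≤ l * a n + (1 - l) * w (n + 1)) (N : ℕ) :
    w 0 - ε * (1 - (1 - l) ^ N) ≤
      ∑ n ∈ Finset.range N, l * (1 - l) ^ n * a n + (1 - l) ^ N * w N := by
  induction N with
  | zero => simp
  | succ N ih =>
    rw [Finset.sum_range_succ]
    have h2 : 0 ≤ (1 - l) ^ N := pow_nonneg (by linarith) N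
    have h3 := mul_le_mul_of_nonneg_left (h N) h2
    rw [pow_succ]
    nlinarith

private theorem tn_upper {l : ℝ} (h1 : l ≤ 1) (a w : ℕ → ℝ)
    (h : ∀ n, l * a n + (1 - l) * w (n + 1) ≤ w n) (N : ℕ) :
    ∑ n ∈ Finset.range N, l * (1 - l) ^ n * a n + (1 - l) ^ N * w N ≤ w 0 := by
  induction N with
  | zero => simp
  | succ N ih =>
    rw [Finset.sum_range_succ]
    have h2 : 0 ≤ (1 - l) ^ N := pow_nonneg (by linarith) N
    have h3 := mul_le_mul_of_nonneg_left (h N) h2
    rw [pow_succ]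
    nlinarith

private theorem tn_lim {l : ℝ} (h0 : 0 < l) (h1 : l ≤ 1) :
    Tendsto (fun N : ℕ => (1 - l) ^ N) atTop (𝓝 0) :=
  tendsto_pow_atTop_nhds_zero_of_lt_one (by linarith) (by linarith)

private theorem tn_pay (X : Type) (g : X → Bool → ℝ) (hg : ∀ ω b, 0 ≤ g ω b ∧ g ω b ≤ 1)
    (nx : X → Bool → ℕ → X) : ∀ ω a b, 0 ≤ (turn X g nx).pay ω a b ∧ (turn X g nx).pay ω a b ≤ 1 :=
  fun ω _ b => hg ω b

private theorem tn_abs (X : Type) (g : X → Bool → ℝ) (hg : ∀ ω b, 0 ≤ g ω b ∧ g ω b ≤ 1)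
    (nx : X → Bool → ℕ → X) {l : ℝ} (h0 : 0 < l) (h1 : l ≤ 1) (ω : X) (s : S1 (ℕ × ℕ) Bool)
    (t : S2 (ℕ × ℕ) Bool) : |(turn X g nx).disc ω l s t| ≤ 1 := by
  obtain ⟨h2, h3⟩ := disc_mem (turn X g nx) ω (tn_pay X g hg nx) h0 h1 s t
  rw [abs_le]
  exact ⟨by linarith, h3⟩

/-- the discounted games have values -/
theorem turn_value (X : Type) (g : X → Bool → ℝ) (hg : ∀ ω b, 0 ≤ g ω b ∧ g ω b ≤ 1)
    (nx : X → Bool → ℕ → X) {l : ℝ} (h0 : 0 < l) (h1 : l ≤ 1) :
    ∃ V : X → ℝ, ∀ ω : X, (turn X g nx).IsDiscValue l ω (V ω) := by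
  obtain ⟨V, hV, hfix⟩ := exists_fix X g hg nx h0 h1
  refine ⟨V, fun ω ε hε => ?_⟩
  have hbdd : ∀ (ω : X) (b : Bool), BddAbove (Set.range fun m => V (nx ω b m)) := fun ω b =>
    ⟨1, by rintro _ ⟨m, rfl⟩; exact (hV _).2⟩
  have hle : ∀ (ω : X) (b : Bool), V ω ≤ l * g ω b + (1 - l) * ⨆ m, V (nx ω b m) := by
    intro ω b
    rw [hfix ω]
    cases b
    · exact min_le_left _ _
    · exact min_le_right _ _
  constructor
  · -- player 1
    have hm : ∀ (ω : X) (b : Bool), ∃ m, (⨆ m, V (nx ω b m)) - l * ε ≤ V (nx ω b m) := by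
      intro ω b
      obtain ⟨m, hm⟩ := exists_lt_of_lt_ciSup
        (show (⨆ m, V (nx ω b m)) - l * ε < ⨆ m, V (nx ω b m) by
          have := mul_pos h0 hε
          linarith)
      exact ⟨m, hm.le⟩
    choose m hm using hm
    let s : S1 (ℕ × ℕ) Bool := fun h =>
      (m ((turn X g nx).st ω h) false, m ((turn X g nx).st ω h) true)
    have key : ∀ t : S2 (ℕ × ℕ) Bool, V ω - ε ≤ (turn X g nx).disc ω l s t := by
      intro t
      have h2 : ∀ n, V ((turn X g nx).st ω (hist s t n)) - l * ε ≤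
          l * (turn X g nx).g ω n s t +
            (1 - l) * V ((turn X g nx).st ω (hist s t (n + 1))) := by
        intro n
        have e1 : (turn X g nx).g ω n s t =
            g ((turn X g nx).st ω (hist s t n)) (t (hist s t n)) := rfl
        have e2 : (turn X g nx).st ω (hist s t (n + 1)) =
            nx ((turn X g nx).st ω (hist s t n)) (t (hist s t n))
              (m ((turn X g nx).st ω (hist s t n)) (t (hist s t n))) := by
          change nx ((turn X g nx).st ω (hist s t n)) (t (hist s t n))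
            (if t (hist s t n) then m ((turn X g nx).st ω (hist s t n)) true
              else m ((turn X g nx).st ω (hist s t n)) false) = _
          cases t (hist s t n) <;> rfl
        rw [e1, e2]
        have h3 := hle ((turn X g nx).st ω (hist s t n)) (t (hist s t n))
        have h4 := hm ((turn X g nx).st ω (hist s t n)) (t (hist s t n))
        have h5 := mul_le_mul_of_nonneg_left h4 (show 0 ≤ 1 - l by linarith)
        have h6 : (1 - l) * (l * ε) ≤ l * ε := by
          have := mul_nonneg h0.le (mul_nonneg h0.le hε.le)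
          nlinarith
        linarith
      have h3 := tn_lower (ε := ε) h1 (fun n => (turn X g nx).g ω n s t)
        (fun n => V ((turn X g nx).st ω (hist s t n))) h2
      have h4 : ∀ N, V ω - ε - (1 - l) ^ N ≤ (turn X g nx).disc ω l s t := by
        intro N
        have h5 := h3 N
        have h6 := (disc_bounds (turn X g nx) ω (tn_pay X g hg nx) h0 h1 s t N).1
        have h7 : 0 ≤ (1 - l) ^ N := pow_nonneg (by linarith) N
        have h8 : (1 - l) ^ N * V ((turn X g nx).st ω (hist s t N)) ≤ (1 - l) ^ N :=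
          mul_le_of_le_one_right h7 (hV _).2
        have h9 : (turn X g nx).st ω (hist s t 0) = ω := rfl
        simp only [h9] at h5
        have h10 := mul_nonneg hε.le h7
        linarith
      have h5 : Tendsto (fun N : ℕ => V ω - ε - (1 - l) ^ N) atTop (𝓝 (V ω - ε - 0)) :=
        tendsto_const_nhds.sub (tn_lim h0 h1)
      rw [sub_zero] at h5
      exact le_of_tendsto' h5 h4
    exact ⟨pure1 s, fun τ => le_Ex_pure1 s τ _ (measurable_disc (turn X g nx) ω l)
      (fun s t => tn_abs X g hg nx h0 h1 ω s t) key⟩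
  · -- player 2
    have hb : ∀ ω : X, ∃ b : Bool, l * g ω b + (1 - l) * ⨆ m, V (nx ω b m) ≤ V ω := by
      intro ω
      rcases min_choice (l * g ω false + (1 - l) * ⨆ m, V (nx ω false m))
        (l * g ω true + (1 - l) * ⨆ m, V (nx ω true m)) with h2 | h2
      · exact ⟨false, by rw [← h2, ← hfix ω]⟩
      · exact ⟨true, by rw [← h2, ← hfix ω]⟩
    choose b hb using hb
    let t : S2 (ℕ × ℕ) Bool := fun h => b ((turn X g nx).st ω h)
    have key : ∀ s : S1 (ℕ × ℕ) Bool, (turn X g nx).disc ω l s t ≤ V ω + ε := by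
      intro s
      have h2 : ∀ n, l * (turn X g nx).g ω n s t +
          (1 - l) * V ((turn X g nx).st ω (hist s t (n + 1))) ≤
            V ((turn X g nx).st ω (hist s t n)) := by
        intro n
        have e1 : (turn X g nx).g ω n s t =
            g ((turn X g nx).st ω (hist s t n)) (b ((turn X g nx).st ω (hist s t n))) := rfl
        have e2 : ∃ k, (turn X g nx).st ω (hist s t (n + 1)) =
            nx ((turn X g nx).st ω (hist s t n)) (b ((turn X g nx).st ω (hist s t n))) k :=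
          ⟨_, rfl⟩
        obtain ⟨k, e2⟩ := e2
        rw [e1, e2]
        have h3 := hb ((turn X g nx).st ω (hist s t n))
        have h4 := le_ciSup (hbdd ((turn X g nx).st ω (hist s t n))
          (b ((turn X g nx).st ω (hist s t n)))) k
        have h5 := mul_le_mul_of_nonneg_left h4 (show 0 ≤ 1 - l by linarith)
        linarith
      have h3 := tn_upper h1 (fun n => (turn X g nx).g ω n s t)
        (fun n => V ((turn X g nx).st ω (hist s t n))) h2
      have h4 : ∀ N, (turn X g nx).disc ω l s t ≤ V ω + ε + (1 - l) ^ N := by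
        intro N
        have h5 := h3 N
        have h6 := (disc_bounds (turn X g nx) ω (tn_pay X g hg nx) h0 h1 s t N).2
        have h7 : 0 ≤ (1 - l) ^ N := pow_nonneg (by linarith) N
        have h8 : 0 ≤ (1 - l) ^ N * V ((turn X g nx).st ω (hist s t N)) :=
          mul_nonneg h7 (hV _).1
        have h9 : (turn X g nx).st ω (hist s t 0) = ω := rfl
        simp only [h9] at h5
        linarith
      have h5 : Tendsto (fun N : ℕ => V ω + ε + (1 - l) ^ N) atTop (𝓝 (V ω + ε + 0)) :=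
        tendsto_const_nhds.add (tn_lim h0 h1)
      rw [add_zero] at h5
      exact ge_of_tendsto' h5 h4
    exact ⟨pure2 t, fun σ => Ex_pure2_le t σ _ (measurable_disc (turn X g nx) ω l)
      (fun s t => tn_abs X g hg nx h0 h1 ω s t) key⟩

/-- a discounted value is at least what a pure strategy of player 1 guarantees -/
theorem le_of_isDiscValue (X : Type) (g : X → Bool → ℝ) (hg : ∀ ω b, 0 ≤ g ω b ∧ g ω b ≤ 1)
    (nx : X → Bool → ℕ → X) {l : ℝ} (h0 : 0 < l) (h1 : l ≤ 1) (ω : X) {x y : ℝ}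
    (hx : (turn X g nx).IsDiscValue l ω x) (s : S1 (ℕ × ℕ) Bool)
    (hs : ∀ t, y ≤ (turn X g nx).disc ω l s t) : y ≤ x := by
  refine le_of_forall_pos_le_add fun ε hε => ?_
  obtain ⟨-, τ, hτ⟩ := hx ε hε
  exact (le_Ex_pure1 s τ _ (measurable_disc (turn X g nx) ω l)
    (fun s t => tn_abs X g hg nx h0 h1 ω s t) hs).trans (hτ (pure1 s))

/-- a discounted value is at most what a pure strategy of player 2 guarantees -/
theorem isDiscValue_le (X : Type) (g : X → Bool → ℝ) (hg : ∀ ω b, 0 ≤ g ω b ∧ g ω b ≤ 1)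
    (nx : X → Bool → ℕ → X) {l : ℝ} (h0 : 0 < l) (h1 : l ≤ 1) (ω : X) {x y : ℝ}
    (hx : (turn X g nx).IsDiscValue l ω x) (t : S2 (ℕ × ℕ) Bool)
    (ht : ∀ s, (turn X g nx).disc ω l s t ≤ y) : x ≤ y := by
  refine le_of_forall_pos_le_add fun ε hε => ?_
  obtain ⟨⟨σ, hσ⟩, -⟩ := hx ε hε
  have h2 := Ex_pure2_le t σ _ (measurable_disc (turn X g nx) ω l)
    (fun s t => tn_abs X g hg nx h0 h1 ω s t) ht
  have h3 := hσ (pure2 t)
  linarith

end Pool.Agent.MP_ebfc19_pr.MN
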