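import Pool.Agent.Lib.MP_ebfc19_pr.MN.PathR

namespace Pool.Agent.MP_ebfc19_pr.MN

open MeasureTheory Filter Topology

variable {c : ℕ → ℝ} {v : ℕ → ℝ} {n : ℕ → ℕ} {b : ℕ → ℝ} {K : ℕ}

theorem IsPath.b_mem (h : IsPath c v n b K) {t : ℕ} (ht : t < K) : 0 ≤ b t ∧ b t ≤ 1 := by
  by_cases h0 : v t = 0
  · rw [h.rule0 t ht h0]; norm_num
  by_cases hr : Sx v b t ≤ -(t : ℝ) / 4 ∨ tau c (n t) ≤ t
  · rw [h.rule1 t ht h0 hr]; norm_num
  · rw [h.rule2 t ht hr]; norm_num

theorem win_sum_eq (v b : ℕ → ℝ) (t : ℕ) :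
    ∑ r ∈ Finset.range t, b r = Sx v b t + ∑ r ∈ Finset.range t, v r := by
  unfold Sx
  rw [Finset.sum_sub_distrib]
  ring

theorem IsPath.not_low (hc : Cost c) (h : IsPath c v n b K) {t : ℕ} (ht : t ≤ K)
    (hw : (1 / 4 + c (n 0) / 2) * t < ∑ r ∈ Finset.range t, b r) : -(t : ℝ) / 4 < Sx v b t := by
  by_contra hcon
  push Not at hcon
  rw [win_sum_eq v b t] at hw
  have h1 : ∑ r ∈ Finset.range t, v r ≤ ∑ r ∈ Finset.range t, (1 / 2 + c (n 0) / 2) := by
    apply Finset.sum_le_sum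
    intro r hr
    exact h.v_le hc (by rw [Finset.mem_range] at hr; omega)
  rw [Finset.sum_const, Finset.card_range, nsmul_eq_mul] at h1
  nlinarith

theorem win_sum_le (h : IsPath c v n b K) {s t : ℕ} (hst : s ≤ t) (ht : t ≤ K)
    (hb : ∀ r, s ≤ r → r < t → b r = 0) : ∑ r ∈ Finset.range t, b r ≤ s := by
  rw [← Finset.sum_range_add_sum_Ico _ hst]
  have h1 : ∑ r ∈ Finset.Ico s t, b r = 0 := by
    apply Finset.sum_eq_zero
    intro r hr
    rw [Finset.mem_Ico] at hr
    exact hb r hr.1 hr.2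
  rw [h1, add_zero]
  have h2 : ∑ r ∈ Finset.range s, b r ≤ ∑ r ∈ Finset.range s, (1 : ℝ) := by
    apply Finset.sum_le_sum
    intro r hr
    rw [Finset.mem_range] at hr
    exact (h.b_mem (by omega)).2
  simpa using h2

theorem win_real (v1 v2 S1 S2 μ θ1 θ2 H T : ℝ) (hT : 1 ≤ T) (hv : v2 ≤ v1 - (S2 - S1) * μ)
    (hS : 90 * T ≤ S2 - S1) (hS1 : -(4 * T) < S1) (hμ : 0 ≤ μ) (h12 : θ2 ≤ θ1)
    (hθ : θ2 ≤ μ / 16) {k : ℝ} (hk : k ≤ 16 * T * μ) (hk0 : 0 ≤ k) :
    v2 + pp (S2 - 1) * θ2 + pp (H - pp (1 - S2)) * μ + k / 2 ≤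
      v1 + pp (S1 - 1) * θ1 + pp (H - pp (1 - S1)) * μ := by
  have e1 : pp (S2 - 1) - pp (1 - S2) = S2 - 1 := by
    have := pathR_pp_sub (S2 - 1)
    rwa [show -(S2 - 1) = 1 - S2 by ring] at this
  have e2 : pp (S1 - 1) - pp (1 - S1) = S1 - 1 := by
    have := pathR_pp_sub (S1 - 1)
    rwa [show -(S1 - 1) = 1 - S1 by ring] at this
  have n1 := pathR_pp_nonneg (S2 - 1)
  have n2 := pathR_pp_nonneg (S1 - 1)
  have n3 := pathR_pp_nonneg (1 - S2)
  have m1 : pp (1 - S2) ≤ pp (1 - S1) := pathR_pp_mono (by linarith)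
  have m0 : pp (1 - S1) ≤ 1 + 4 * T := by
    unfold pp
    apply max_le <;> linarith
  have m3 : pp (H - pp (1 - S2)) - pp (H - pp (1 - S1)) ≤ pp (1 - S1) - pp (1 - S2) := by
    have := pathR_pp_lip (x := H - pp (1 - S1)) (y := H - pp (1 - S2)) (by linarith)
    linarith
  have m4 := mul_le_mul_of_nonneg_right m3 hμ
  have hX : 85 * T ≤ pp (S2 - 1) - pp (S1 - 1) := by linarith
  have hDe : (S2 - S1) * μ = (pp (S2 - 1) - pp (S1 - 1)) * μ +
      (pp (1 - S1) - pp (1 - S2)) * μ := by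
    rw [← add_mul]
    congr 1
    linarith
  have k1 : pp (S1 - 1) * θ2 ≤ pp (S1 - 1) * θ1 := mul_le_mul_of_nonneg_left h12 n2
  have k2 : (pp (S2 - 1) - pp (S1 - 1)) * θ2 ≤ (pp (S2 - 1) - pp (S1 - 1)) * (μ / 16) :=
    mul_le_mul_of_nonneg_left hθ (by linarith)
  have k3 : 85 * T * (15 / 16 * μ) ≤ (pp (S2 - 1) - pp (S1 - 1)) * (15 / 16 * μ) :=
    mul_le_mul_of_nonneg_right hX (by positivity)
  have k4 : 0 ≤ T * μ := by positivity
  nlinarith

/-- the window lemma: in a window `[T, 4096 T]` in which `v > 0` and all averages are larger than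
`1/4 + c (n 0) / 2` the potential drops by `c (M (4096 T)) / 2` -/
theorem IsPath.window (hc : Cost c) (h : IsPath c v n b K) {T : ℕ} (hT : 1 ≤ T)
    (hK : 4096 * T ≤ K)
    (hw : ∀ t, T ≤ t → t ≤ 4096 * T →
      0 < v t ∧ (1 / 4 + c (n 0) / 2) * t < ∑ r ∈ Finset.range t, b r) :
    Rx c v n b (4096 * T) + c (Mx c (4096 * T)) / 2 ≤ Rx c v n b T := by
  have hTr : (1 : ℝ) ≤ T := by exact_mod_cast hT
  have hc0 := hc.pos (n 0)
  have hnl : ∀ t, T ≤ t → t ≤ 4096 * T → -(t : ℝ) / 4 < Sx v b t := fun t h1 h2 =>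
    h.not_low hc (by omega) (hw t h1 h2).2
  have hb0 : ∀ t, T ≤ t → t < 4096 * T → (t : ℝ) < tau c (n t) → b t = 0 := by
    intro t h1 h2 h3
    apply h.rule2 t (by omega)
    push Not
    exact ⟨hnl t h1 (by omega), h3⟩
  have hb1 : ∀ t, T ≤ t → t < 4096 * T → tau c (n t) ≤ (t : ℝ) → b t = 1 := by
    intro t h1 h2 h3
    exact h.rule1 t (by omega) (ne_of_gt (hw t h1 (by omega)).1) (Or.inr h3)
  have hend : 0 < v (4096 * T) := (hw (4096 * T) (by omega) le_rfl).1
  by_cases hA : ∃ t, T ≤ t ∧ t < 4096 * T ∧ n (t + 1) ≠ n t ∧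
      tau c (n (t + 1)) ≤ 4096 * (T : ℝ)
  · obtain ⟨t, h1, h2, h3, h4⟩ := hA
    have h5 : 0 < v (t + 1) := (hw (t + 1) (by omega) (by omega)).1
    have h6 : 0 < v t := (hw t h1 (by omega)).1
    have h7 := h.R_step hc (by omega) (h.v_lt_one hc (by omega)) h5
    rw [if_neg h3] at h7
    have h8 := h.R_anti hc (show t + 1 ≤ 4096 * T by omega) hK hend
    have h9 := h.R_anti hc h1 (by omega) h6
    have h10 : c (Mx c (4096 * (T : ℝ))) ≤ c (n (t + 1)) :=
      hc.anti (lt_Mx_of_tau_le hc h4).le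
    linarith
  push Not at hA
  by_cases hB : ∃ t, T ≤ t ∧ t < 256 * T ∧ n (t + 1) ≠ n t
  · exfalso
    obtain ⟨t1, h1, h2, h3⟩ := hB
    have h4 : ∀ t, t1 + 1 ≤ t → t ≤ 4096 * T → 4096 * (T : ℝ) < tau c (n t) := by
      intro t ht
      induction t, ht using Nat.le_induction with
      | base => intro _; exact hA t1 h1 (by omega) h3
      | succ t ht ih =>
        intro h5
        by_cases h6 : n (t + 1) = n t
        · rw [h6]; exact ih (by omega)
        · exact hA t (by omega) (by omega) h6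
    have h5 : ∀ r, 256 * T ≤ r → r < 4096 * T → b r = 0 := by
      intro r h6 h7
      apply hb0 r (by omega) h7
      have h8 := h4 r (by omega) (by omega)
      have h9 : (r : ℝ) ≤ 4096 * (T : ℝ) := by exact_mod_cast h7.le
      linarith
    have h6 := win_sum_le h (show 256 * T ≤ 4096 * T by omega) hK h5
    have h7 := (hw (4096 * T) (by omega) le_rfl).2
    push_cast at h6 h7
    nlinarith
  push Not at hB
  have hconst : ∀ t, T ≤ t → t ≤ 256 * T → n t = n T := by
    intro t ht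
    induction t, ht using Nat.le_induction with
    | base => intro _; rfl
    | succ t ht ih =>
      intro h5
      rw [hB t ht (by omega)]
      exact ih (by omega)
  by_cases hC : 16 * (T : ℝ) < tau c (n T)
  · exfalso
    have h5 : ∀ r, T ≤ r → r < 16 * T → b r = 0 := by
      intro r h6 h7
      apply hb0 r h6 (by omega)
      rw [hconst r h6 (by omega)]
      have h9 : (r : ℝ) ≤ 16 * (T : ℝ) := by exact_mod_cast h7.le
      linarith
    have h6 := win_sum_le h (show T ≤ 16 * T by omega) (by omega) h5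
    have h7 := (hw (16 * T) (by omega) (by omega)).2
    push_cast at h6 h7
    nlinarith
  push Not at hC
  have hs := h.small
  have hN : (0 : ℝ) < (n T : ℝ) + 1 := by positivity
  have hμ : (0 : ℝ) < 1 / ((n T : ℝ) + 1) := by positivity
  have hbt : ∀ t, 16 * T ≤ t → t < 256 * T → b t = 1 := by
    intro t h1 h2
    apply hb1 t (by omega) (by omega)
    rw [hconst t (by omega) (by omega)]
    have h9 : (16 : ℝ) * (T : ℝ) ≤ (t : ℝ) := by exact_mod_cast h1
    linarith
  have hmain : ∀ t, 16 * T ≤ t → t ≤ 256 * T →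
      v t ≤ v (16 * T) - (Sx v b t - Sx v b (16 * T)) * (1 / ((n T : ℝ) + 1)) ∧
      3 / 8 * ((t : ℝ) - 16 * T) ≤ Sx v b t - Sx v b (16 * T) := by
    intro t ht
    induction t, ht using Nat.le_induction with
    | base =>
      intro _
      push_cast
      constructor
      · simp
      · simp
    | succ t ht ih =>
      intro h5
      obtain ⟨i1, i2⟩ := ih (by omega)
      have h6 := h.step t (by omega) (ne_of_lt (h.v_lt_one hc (by omega)))
      have h7 : 0 < v (t + 1) := (hw (t + 1) (by omega) (by omega)).1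
      have h8 : n (t + 1) = n t := hB t (by omega) (by omega)
      have h9 : n t = n T := hconst t (by omega) (by omega)
      have h10 := pathR_clip_le (h6 ▸ h7 : 0 < nv c (v t) (n t) (b t) (n (t + 1)))
      have h11 := hbt t ht (by omega)
      have h12 := h.v_le hc (show t ≤ K by omega)
      have h13 : v (t + 1) ≤ v t - (b t - v t) * (1 / ((n T : ℝ) + 1)) := by
        rw [h6]
        rw [if_pos h8, h9] at h10
        unfold nv
        rw [if_pos h8, h9]
        rw [mul_one_div]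
        linarith
      rw [pathR_Sx_succ]
      constructor
      · rw [show (Sx v b t + (b t - v t) - Sx v b (16 * T)) * (1 / ((n T : ℝ) + 1)) =
          (Sx v b t - Sx v b (16 * T)) * (1 / ((n T : ℝ) + 1)) +
          (b t - v t) * (1 / ((n T : ℝ) + 1)) by ring]
        linarith
      · rw [h11]
        push_cast
        linarith
  obtain ⟨q1, q2⟩ := hmain (256 * T) (by omega) le_rfl
  have h16 := hnl (16 * T) (by omega) (by omega)
  push_cast at q2 h16
  have hθ1 : 1 / ((Mx c ((256 * T : ℕ) : ℝ) : ℝ) + 1) ≤ 1 / ((Mx c ((16 * T : ℕ) : ℝ) : ℝ) + 1) := by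
    have hm : Mx c ((16 * T : ℕ) : ℝ) ≤ Mx c ((256 * T : ℕ) : ℝ) :=
      Mx_mono hc (by push_cast; linarith)
    have hm' : ((Mx c ((16 * T : ℕ) : ℝ) : ℕ) : ℝ) ≤ (Mx c ((256 * T : ℕ) : ℝ) : ℝ) := by
      exact_mod_cast hm
    apply one_div_le_one_div_of_le
    · positivity
    · linarith
  have hθ2 : 1 / ((Mx c ((256 * T : ℕ) : ℝ) : ℝ) + 1) ≤ 1 / ((n T : ℝ) + 1) / 16 := by
    have hm := Mx_mul hc hC
    rw [show 16 * (16 * (T : ℝ)) = ((256 * T : ℕ) : ℝ) by push_cast; ring] at hm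
    have hm' : (16 : ℝ) * ((n T : ℝ) + 1) ≤ (Mx c ((256 * T : ℕ) : ℝ) : ℝ) := by
      exact_mod_cast hm
    rw [div_div]
    apply one_div_le_one_div_of_le
    · positivity
    · linarith
  have hk : c (n T) ≤ 16 * (T : ℝ) * (1 / ((n T : ℝ) + 1)) := by
    rw [mul_one_div, le_div_iff₀ hN]
    unfold tau at hC
    linarith
  have hreal := win_real (v (16 * T)) (v (256 * T)) (Sx v b (16 * T)) (Sx v b (256 * T))
    (1 / ((n T : ℝ) + 1)) (1 / ((Mx c ((16 * T : ℕ) : ℝ) : ℝ) + 1))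
    (1 / ((Mx c ((256 * T : ℕ) : ℝ) : ℝ) + 1)) (2 + tau c (n T) / 4) T hTr q1
    (by linarith) (by linarith) hμ.le hθ1 hθ2 hk (hc.pos _).le
  have hR1 : Rx c v n b (16 * T) = v (16 * T) +
      pp (Sx v b (16 * T) - 1) * (1 / ((Mx c ((16 * T : ℕ) : ℝ) : ℝ) + 1)) +
      pp (2 + tau c (n T) / 4 - pp (1 - Sx v b (16 * T))) * (1 / ((n T : ℝ) + 1)) := by
    unfold Rx
    rw [hconst (16 * T) (by omega) (by omega), mul_one_div, mul_one_div]
  have hR2 : Rx c v n b (256 * T) = v (256 * T) +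
      pp (Sx v b (256 * T) - 1) * (1 / ((Mx c ((256 * T : ℕ) : ℝ) : ℝ) + 1)) +
      pp (2 + tau c (n T) / 4 - pp (1 - Sx v b (256 * T))) * (1 / ((n T : ℝ) + 1)) := by
    unfold Rx
    rw [hconst (256 * T) (by omega) le_rfl, mul_one_div, mul_one_div]
  have a1 := h.R_anti hc (show T ≤ 16 * T by omega) (by omega) (hw (16 * T) (by omega) (by omega)).1
  have a2 := h.R_anti hc (show 256 * T ≤ 4096 * T by omega) hK hend
  have a3 : c (Mx c (4096 * (T : ℝ))) ≤ c (n T) := by
    apply hc.anti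
    have := lt_Mx_of_tau_le hc (le_trans hC (by linarith : 16 * (T : ℝ) ≤ 4096 * (T : ℝ)))
    exact this.le
  rw [← hR1, ← hR2] at hreal
  linarith

/-- the counting lemma: the windows `[4096^i, 4096^(i+1)]` in which nothing good for player 2
happens have a bounded sum of `c (M (4096^(i+1)))` -/
theorem IsPath.count (hc : Cost c) {v : ℕ → ℝ} {n : ℕ → ℕ} {b : ℕ → ℝ}
    (h : ∀ K, IsPath c v n b K) (I : Finset ℕ)
    (hI : ∀ i ∈ I, ∀ t, 4096 ^ i ≤ t → t ≤ 4096 ^ (i + 1) →
      0 < v t ∧ (1 / 4 + c (n 0) / 2) * t < ∑ r ∈ Finset.range t, b r) :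
    ∑ i ∈ I, c (Mx c (4096 ^ (i + 1))) ≤ 2 := by
  classical
  rcases I.eq_empty_or_nonempty with rfl | hne
  · simp
  set m := I.max' hne with hm
  have hmI : m ∈ I := I.max'_mem hne
  have hle : ∀ i ∈ I, i ≤ m := fun i hi => I.le_max' i hi
  have hvm : 0 < v (4096 ^ (m + 1)) :=
    (hI m hmI (4096 ^ (m + 1)) (Nat.pow_le_pow_right (by norm_num) (by omega)) le_rfl).1
  have key : ∀ N, N ≤ m + 1 →
      (∑ i ∈ Finset.range N, if i ∈ I then c (Mx c (4096 ^ (i + 1))) / 2 else 0) +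
        Rx c v n b (4096 ^ N) ≤ Rx c v n b 1 := by
    intro N
    induction N with
    | zero => intro _; simp
    | succ N ih =>
      intro hN
      have i1 := ih (by omega)
      rw [Finset.sum_range_succ]
      have hv : 0 < v (4096 ^ (N + 1)) :=
        (h (4096 ^ (m + 1))).pos_of_pos hc (Nat.pow_le_pow_right (by norm_num) hN) le_rfl hvm
      by_cases hNI : N ∈ I
      · rw [if_pos hNI]
        have hw := (h (4096 * 4096 ^ N)).window hc (T := 4096 ^ N)
          (Nat.one_le_pow _ _ (by norm_num)) le_rfl (by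
            intro t h1 h2
            apply hI N hNI t h1
            rw [pow_succ]
            linarith)
        have e1 : 4096 * 4096 ^ N = 4096 ^ (N + 1) := by ring
        have e2 : (4096 : ℝ) * ((4096 ^ N : ℕ) : ℝ) = 4096 ^ (N + 1) := by
          push_cast; ring
        rw [e1, e2] at hw
        linarith
      · rw [if_neg hNI]
        have := (h (4096 ^ (N + 1))).R_anti hc
          (show 4096 ^ N ≤ 4096 ^ (N + 1) from Nat.pow_le_pow_right (by norm_num) (by omega))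
          le_rfl hv
        linarith
  have hfin := key (m + 1) le_rfl
  have hsum : (∑ i ∈ Finset.range (m + 1), if i ∈ I then c (Mx c (4096 ^ (i + 1))) / 2 else 0) =
      ∑ i ∈ I, c (Mx c (4096 ^ (i + 1))) / 2 := by
    rw [← Finset.sum_filter]
    congr 1
    ext i
    simp only [Finset.mem_filter, Finset.mem_range]
    constructor
    · exact fun hx => hx.2
    · exact fun hx => ⟨by have := hle i hx; omega, hx⟩
  rw [hsum, ← Finset.sum_div] at hfin
  have hv1 : 0 < v 1 := (h (4096 ^ (m + 1))).pos_of_pos hc (Nat.one_le_pow _ _ (by norm_num))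
    le_rfl hvm
  have r1 := (h 1).R_anti hc (Nat.zero_le 1) le_rfl hv1
  have r2 := (h 1).R_zero_le hc
  have r3 := Rx_nonneg (h (4096 ^ (m + 1))) (4096 ^ (m + 1))
  linarith

/-- along every path the average is small at arbitrarily large times -/
theorem IsPath.low (hc : Cost c) {v : ℕ → ℝ} {n : ℕ → ℕ} {b : ℕ → ℝ}
    (h : ∀ K, IsPath c v n b K) (T₀ : ℕ) :
    ∃ t, T₀ ≤ t ∧ 1 ≤ t ∧ ∑ r ∈ Finset.range t, b r ≤ (1 / 4 + c (n 0) / 2) * t := by
  by_contra hcon
  push Not at hcon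
  have hc0 := hc.pos (n 0)
  have hv : ∀ t, 0 < v t := by
    intro s
    refine lt_of_le_of_ne ((h s).v0 s) (fun hs => ?_)
    have hz : ∀ r, s ≤ r → b r = 0 := by
      intro r hr
      exact (h (r + 1)).rule0 r (by omega) ((h (r + 1)).zero hc hr (by omega) hs.symm)
    set t := T₀ + 4 * s + 1 with ht
    have h1 := win_sum_le (h t) (show s ≤ t by omega) le_rfl (fun r hr _ => hz r hr)
    have h2 := hcon t (by omega) (by omega)
    have h3 : (t : ℝ) = T₀ + 4 * s + 1 := by rw [ht]; push_cast; ring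
    have h4 : (0 : ℝ) ≤ T₀ := Nat.cast_nonneg _
    have h5 : (0 : ℝ) ≤ s := Nat.cast_nonneg _
    rw [h3] at h2
    nlinarith
  obtain ⟨i₀, hi₀⟩ : ∃ i₀, T₀ ≤ 4096 ^ i₀ := ⟨T₀, (Nat.lt_pow_self (by norm_num)).le⟩
  apply not_summable_Mx hc
  rw [← summable_nat_add_iff i₀]
  apply summable_of_sum_le (c := 2)
  · intro i
    exact (hc.pos _).le
  · intro u
    have := IsPath.count hc h (u.map (addRightEmbedding i₀)) (by
      intro i hi t h1 h2
      rw [Finset.mem_map] at hi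
      obtain ⟨j, _, rfl⟩ := hi
      simp only [addRightEmbedding_apply] at h1 h2
      have h3 : 4096 ^ i₀ ≤ 4096 ^ (j + i₀) := Nat.pow_le_pow_right (by norm_num) (by omega)
      exact ⟨hv t, hcon t (by omega) (by have := Nat.one_le_pow (j + i₀) 4096 (by norm_num); omega)⟩)
    rw [Finset.sum_map] at this
    simpa using this

end Pool.Agent.MP_ebfc19_pr.MN
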